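import Mathlib

set_option autoImplicit false

/-!
Definitions for boxicity and clique minors (problem MP_be9601_co).
-/

namespace Pool.Agent.BoxMinor

/-- `G` is the intersection graph of axis-parallel boxes in dimension `d`:
the box of `v` is the product of the closed intervals `[lo v i, hi v i]`. -/
def HasBoxRep {V : Type*} (G : SimpleGraph V) (d : ℕ) : Prop :=
  ∃ lo hi : V → Fin d → ℝ, (∀ v i, lo v i ≤ hi v i) ∧
    ∀ u v, u ≠ v → (G.Adj u v ↔ ∀ i, lo u i ≤ hi v i ∧ lo v i ≤ hi u i)

/-- The boxicity of `G`: the least `d` such that `G` has a box representation in dimension `d`. -/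
noncomputable def boxicity {V : Type*} (G : SimpleGraph V) : ℕ :=
  sInf {d : ℕ | HasBoxRep G d}

/-- `G` has a `K_t` minor: there are `t` pairwise disjoint connected vertex sets
with an edge between any two of them. -/
def HasCliqueMinor {V : Type*} (G : SimpleGraph V) (t : ℕ) : Prop :=
  ∃ B : Fin t → Set V, (∀ i, (G.induce (B i)).Connected) ∧
    (∀ i j, i ≠ j → Disjoint (B i) (B j)) ∧
    (∀ i j, i ≠ j → ∃ x ∈ B i, ∃ y ∈ B j, G.Adj x y)

end Pool.Agent.BoxMinor
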