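import Mathlib
import Pool.Agent.BoxMinor.Defs

set_option autoImplicit false

namespace Pool.Agent.BoxMinor
open SimpleGraph

variable {V : Type*}

/-- `G` restricted to the edges inside `S`, as a graph on the whole vertex set. -/
def restr (G : SimpleGraph V) (S : Set V) : SimpleGraph V where
  Adj x y := G.Adj x y ∧ x ∈ S ∧ y ∈ S
  symm := ⟨fun _ _ h => ⟨h.1.symm, h.2.2, h.2.1⟩⟩
  loopless := ⟨fun _ h => G.irrefl h.1⟩

@[simp] lemma restr_adj (G : SimpleGraph V) (S : Set V) (x y : V) :
    (restr G S).Adj x y ↔ G.Adj x y ∧ x ∈ S ∧ y ∈ S := Iff.rfl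

lemma restr_le (G : SimpleGraph V) (S : Set V) : restr G S ≤ G := fun _ _ h => h.1

lemma restr_mono (G : SimpleGraph V) {S T : Set V} (h : S ⊆ T) : restr G S ≤ restr G T :=
  fun _ _ hx => ⟨hx.1, h hx.2.1, h hx.2.2⟩

lemma restr_walk_support (G : SimpleGraph V) (S : Set V) {u v : V} (p : (restr G S).Walk u v)
    (hu : u ∈ S) : ∀ x ∈ p.support, x ∈ S := by
  induction p with
  | nil => intro x hx; simp at hx; rw [hx]; exact hu
  | cons h q ih =>
    intro x hx
    simp only [Walk.support_cons, List.mem_cons] at hx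
    rcases hx with rfl | hx
    · exact hu
    · exact ih h.2.2 x hx

lemma restr_reachable_mem (G : SimpleGraph V) (S : Set V) {u v : V} (h : (restr G S).Reachable u v)
    (hu : u ∈ S) : v ∈ S := by
  obtain ⟨p⟩ := h
  exact restr_walk_support G S p hu v p.end_mem_support

/-- walks in the restricted graph lift to the induced graph -/
lemma induce_reachable_of_restr (G : SimpleGraph V) (S : Set V) {u v : V}
    (p : (restr G S).Walk u v) (hu : u ∈ S) (hv : v ∈ S) :
    (G.induce S).Reachable ⟨u, hu⟩ ⟨v, hv⟩ := by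
  induction p with
  | nil => exact Reachable.refl _
  | @cons a b c h q ih =>
    have h1 : (G.induce S).Adj ⟨a, hu⟩ ⟨b, h.2.2⟩ := h.1
    exact h1.reachable.trans (ih h.2.2 hv)

lemma restr_reachable_of_induce (G : SimpleGraph V) (S : Set V) {u v : S}
    (h : (G.induce S).Reachable u v) : (restr G S).Reachable u v := by
  obtain ⟨p⟩ := h
  induction p with
  | nil => exact Reachable.refl _
  | @cons a b c h q ih =>
    have h1 : (restr G S).Adj a b := ⟨h, a.2, b.2⟩
    exact h1.reachable.trans ih

lemma induce_connected_iff (G : SimpleGraph V) (S : Set V) :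
    (G.induce S).Connected ↔ S.Nonempty ∧ ∀ x ∈ S, ∀ y ∈ S, (restr G S).Reachable x y := by
  constructor
  · intro h
    obtain ⟨⟨v, hv⟩⟩ := h.nonempty
    exact ⟨⟨v, hv⟩, fun x hx y hy => restr_reachable_of_induce G S (h.preconnected ⟨x, hx⟩ ⟨y, hy⟩)⟩
  · rintro ⟨⟨v, hv⟩, h⟩
    refine (connected_iff _).2 ⟨?_, ⟨⟨v, hv⟩⟩⟩
    rintro ⟨x, hx⟩ ⟨y, hy⟩
    obtain ⟨p⟩ := h x hx y hy
    exact induce_reachable_of_restr G S p hx hy

/-- the component of `u` in `G[U]` -/
def comp (G : SimpleGraph V) (U : Set V) (u : V) : Set V := {y | (restr G U).Reachable u y}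

lemma comp_subset (G : SimpleGraph V) (U : Set V) {u : V} (hu : u ∈ U) : comp G U u ⊆ U :=
  fun _ hy => restr_reachable_mem G U hy hu

lemma mem_comp_self (G : SimpleGraph V) (U : Set V) (u : V) : u ∈ comp G U u := Reachable.refl _

lemma comp_closed (G : SimpleGraph V) (U : Set V) {u x y : V} (hu : u ∈ U) (hx : x ∈ comp G U u)
    (hy : y ∈ U) (h : G.Adj x y) : y ∈ comp G U u := by
  have hxU := comp_subset G U hu hx
  have : (restr G U).Adj x y := ⟨h, hxU, hy⟩
  exact Reachable.trans hx this.reachable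

lemma restr_comp_reachable (G : SimpleGraph V) (U : Set V) {u x : V} (hx : x ∈ comp G U u) :
    (restr G (comp G U u)).Reachable u x := by
  have hx' : (restr G U).Reachable u x := hx
  obtain ⟨p⟩ := hx'
  -- general: for a walk from a to x with a in comp, reachable in the restricted graph
  have key : ∀ {a b : V} (q : (restr G U).Walk a b), a ∈ comp G U u →
      (restr G (comp G U u)).Reachable a b := by
    intro a b q
    induction q with
    | nil => intro _; exact Reachable.refl _
    | @cons a b c h q ih =>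
      intro ha
      have hb : b ∈ comp G U u := Reachable.trans ha h.reachable
      have : (restr G (comp G U u)).Adj a b := ⟨h.1, ha, hb⟩
      exact this.reachable.trans (ih hb)
  exact key p (mem_comp_self G U u)

lemma comp_connected (G : SimpleGraph V) (U : Set V) (u : V) :
    (G.induce (comp G U u)).Connected := by
  rw [induce_connected_iff]
  refine ⟨⟨u, mem_comp_self G U u⟩, fun x hx y hy => ?_⟩
  exact (restr_comp_reachable G U hx).symm.trans (restr_comp_reachable G U hy)

/-- there is an edge between the two sets -/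
def AdjSets (G : SimpleGraph V) (S T : Set V) : Prop := ∃ x ∈ S, ∃ y ∈ T, G.Adj x y

lemma AdjSets.symm {G : SimpleGraph V} {S T : Set V} (h : AdjSets G S T) : AdjSets G T S := by
  obtain ⟨x, hx, y, hy, h⟩ := h
  exact ⟨y, hy, x, hx, h.symm⟩

lemma AdjSets.mono_left {G : SimpleGraph V} {S S' T : Set V} (h : AdjSets G S T) (hs : S ⊆ S') :
    AdjSets G S' T := by
  obtain ⟨x, hx, y, hy, h⟩ := h
  exact ⟨x, hs hx, y, hy, h⟩

end Pool.Agent.BoxMinor
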