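import Mathlib
import Pool.Agent.BoxMinor.Restr

set_option autoImplicit false

namespace Pool.Agent.BoxMinor
open SimpleGraph

variable {V : Type*}

open Classical in
/-- the number of neighbours of `x` in the finite set `S` -/
noncomputable def degIn (G : SimpleGraph V) (S : Finset V) (x : V) : ℕ :=
  (S.filter (fun y => G.Adj x y)).card

open Classical in
/-- the number of ordered adjacent pairs in the finite set `S` -/
noncomputable def pairsIn (G : SimpleGraph V) (S : Finset V) : ℕ :=
  ((S ×ˢ S).filter (fun p => G.Adj p.1 p.2)).card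

lemma pairsIn_eq_sum (G : SimpleGraph V) (S : Finset V) :
    pairsIn G S = ∑ x ∈ S, degIn G S x := by
  classical
  unfold pairsIn degIn
  rw [Finset.card_filter, Finset.sum_product]
  refine Finset.sum_congr rfl fun x _ => ?_
  rw [Finset.card_filter]

lemma degIn_mono (G : SimpleGraph V) {S T : Finset V} (h : S ⊆ T) (x : V) :
    degIn G S x ≤ degIn G T x := by
  classical
  exact Finset.card_le_card (Finset.filter_subset_filter _ h)

lemma degIn_le_of (G G' : SimpleGraph V) {S T : Finset V} (x : V)
    (h : ∀ y ∈ S, G.Adj x y → y ∈ T ∧ G'.Adj x y) : degIn G S x ≤ degIn G' T x := by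
  classical
  apply Finset.card_le_card
  intro y hy
  rw [Finset.mem_filter] at hy ⊢
  exact h y hy.1 hy.2

lemma degIn_eq_card_filter (G : SimpleGraph V) (S : Finset V) (x : V)
    [DecidablePred (fun y => G.Adj x y)] :
    degIn G S x = (S.filter (fun y => G.Adj x y)).card := by
  unfold degIn
  congr

/-- every nonempty set has a vertex of small degree, if all sets are sparse -/
lemma exists_small_degree {G : SimpleGraph V} {d : ℕ} {S : Finset V} (hS : S.Nonempty)
    (h : pairsIn G S ≤ 2 * d * S.card) : ∃ x ∈ S, degIn G S x ≤ 2 * d := by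
  classical
  by_contra hcon
  push Not at hcon
  rw [pairsIn_eq_sum] at h
  have h2 : ∑ x ∈ S, (2 * d) < ∑ x ∈ S, degIn G S x := Finset.sum_lt_sum_of_nonempty hS hcon
  rw [Finset.sum_const, smul_eq_mul, mul_comm] at h2
  omega

section closure
variable [Fintype V]

/-- closed under attaching vertices with more than `k` neighbours -/
def IsClosedK (G : SimpleGraph V) (k : ℕ) (F : Finset V) : Prop := ∀ x, x ∉ F → degIn G F x ≤ k

open Classical in
/-- the closure of `U` -/
noncomputable def cl (G : SimpleGraph V) (k : ℕ) (U : Finset V) : Finset V :=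
  Finset.univ.filter (fun x => ∀ F : Finset V, U ⊆ F → IsClosedK G k F → x ∈ F)

lemma mem_cl {G : SimpleGraph V} {k : ℕ} {U : Finset V} {x : V} :
    x ∈ cl G k U ↔ ∀ F : Finset V, U ⊆ F → IsClosedK G k F → x ∈ F := by
  simp [cl]

lemma subset_cl (G : SimpleGraph V) (k : ℕ) (U : Finset V) : U ⊆ cl G k U :=
  fun _ hx => mem_cl.2 fun _ hU _ => hU hx

lemma cl_closed (G : SimpleGraph V) (k : ℕ) (U : Finset V) : IsClosedK G k (cl G k U) := by
  intro x hx
  rw [mem_cl] at hx
  push Not at hx
  obtain ⟨F, hU, hF, hxF⟩ := hx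
  refine (degIn_mono G ?_ x).trans (hF x hxF)
  intro y hy
  exact mem_cl.1 hy F hU hF

lemma cl_mono (G : SimpleGraph V) (k : ℕ) {U U' : Finset V} (h : U ⊆ U') :
    cl G k U ⊆ cl G k U' := by
  intro x hx
  rw [mem_cl] at hx ⊢
  exact fun F hF hc => hx F (h.trans hF) hc

lemma cl_min (G : SimpleGraph V) (k : ℕ) {U F : Finset V} (h : U ⊆ F) (hF : IsClosedK G k F) :
    cl G k U ⊆ F := fun _ hx => mem_cl.1 hx F h hF

open Classical in
/-- edges at `P` inside the closure -/
lemma closure_edges (G : SimpleGraph V) (k : ℕ) (U : Finset V) (T : Finset V) :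
    ∀ n : ℕ, ∀ P : Finset V, P.card = n → P ⊆ cl G k U → Disjoint P U → P ⊆ T →
      (∀ x ∈ P, ∀ y ∈ cl G k U, G.Adj x y → y ∈ T) →
      2 * (k + 1) * P.card ≤
        ((T ×ˢ T).filter (fun p => G.Adj p.1 p.2 ∧ (p.1 ∈ P ∨ p.2 ∈ P))).card := by
  intro n
  induction n with
  | zero =>
    intro P hP _ _ _ _
    rw [hP]; simp
  | succ n ih =>
    intro P hP hPcl hPU hPT hN
    have hPne : P.Nonempty := by rw [← Finset.card_pos]; omega
    -- `cl U \ P` is not closed
    have hU : U ⊆ cl G k U \ P := by
      intro x hx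
      rw [Finset.mem_sdiff]
      exact ⟨subset_cl G k U hx, fun hxP => (Finset.disjoint_left.1 hPU hxP) hx⟩
    have hnc : ¬ IsClosedK G k (cl G k U \ P) := by
      intro hc
      obtain ⟨x, hx⟩ := hPne
      have := cl_min G k hU hc (hPcl hx)
      rw [Finset.mem_sdiff] at this
      exact this.2 hx
    unfold IsClosedK at hnc
    push Not at hnc
    obtain ⟨x, hx, hdeg⟩ := hnc
    have hxP : x ∈ P := by
      by_contra hxP
      have hxcl : x ∉ cl G k U := fun h => hx (Finset.mem_sdiff.2 ⟨h, hxP⟩)
      have h1 := cl_closed G k U x hxcl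
      have h2 := degIn_mono G (Finset.sdiff_subset (s := cl G k U) (t := P)) x
      omega
    have hcard : (P.erase x).card = n := by rw [Finset.card_erase_of_mem hxP, hP]; rfl
    have h3 := ih (P.erase x) hcard ((Finset.erase_subset _ _).trans hPcl)
      (Finset.disjoint_of_subset_left (Finset.erase_subset _ _) hPU)
      ((Finset.erase_subset _ _).trans hPT)
      (fun y hy z hz h => hN y (Finset.mem_of_mem_erase hy) z hz h)
    set A := (T ×ˢ T).filter (fun p => G.Adj p.1 p.2 ∧ (p.1 ∈ P.erase x ∨ p.2 ∈ P.erase x))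
    set M := (cl G k U \ P).filter (fun y => G.Adj x y) with hM
    have hMcard : k + 1 ≤ M.card := hdeg
    set B1 := M.image (fun y => (x, y)) with hB1
    set B2 := M.image (fun y => (y, x)) with hB2
    have hB1c : B1.card = M.card := Finset.card_image_of_injective _ (fun a b h => by simpa using h)
    have hB2c : B2.card = M.card := Finset.card_image_of_injective _ (fun a b h => by simpa using h)
    have hMnP : ∀ y ∈ M, y ∉ P ∧ y ∈ cl G k U ∧ G.Adj x y := by
      intro y hy
      simp only [hM, Finset.mem_filter, Finset.mem_sdiff] at hy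
      exact ⟨hy.1.2, hy.1.1, hy.2⟩
    have hd1 : Disjoint A (B1 ∪ B2) := by
      rw [Finset.disjoint_left]
      intro p hp hpB
      simp only [A, Finset.mem_filter, Finset.mem_erase] at hp
      simp only [hB1, hB2, Finset.mem_union, Finset.mem_image] at hpB
      rcases hpB with ⟨y, hy, rfl⟩ | ⟨y, hy, rfl⟩
      · have := (hMnP y hy).1
        rcases hp.2.2 with h | h
        · exact h.1 rfl
        · exact this h.2
      · have := (hMnP y hy).1
        rcases hp.2.2 with h | h
        · exact this h.2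
        · exact h.1 rfl
    have hd2 : Disjoint B1 B2 := by
      rw [Finset.disjoint_left]
      intro p hp hp2
      simp only [hB1, hB2, Finset.mem_image] at hp hp2
      obtain ⟨y, hy, rfl⟩ := hp
      obtain ⟨z, hz, h⟩ := hp2
      have h1 : z = x := congrArg Prod.fst h
      subst h1
      exact G.irrefl (hMnP z hz).2.2
    have hsub : A ∪ (B1 ∪ B2) ⊆
        (T ×ˢ T).filter (fun p => G.Adj p.1 p.2 ∧ (p.1 ∈ P ∨ p.2 ∈ P)) := by
      intro p hp
      rw [Finset.mem_union, Finset.mem_union] at hp
      rw [Finset.mem_filter, Finset.mem_product]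
      rcases hp with hp | hp | hp
      · simp only [A, Finset.mem_filter, Finset.mem_product, Finset.mem_erase] at hp
        exact ⟨hp.1, hp.2.1, hp.2.2.imp (fun h => h.2) (fun h => h.2)⟩
      · simp only [hB1, Finset.mem_image] at hp
        obtain ⟨y, hy, rfl⟩ := hp
        have := hMnP y hy
        exact ⟨⟨hPT hxP, hN x hxP y this.2.1 this.2.2⟩, this.2.2, Or.inl hxP⟩
      · simp only [hB2, Finset.mem_image] at hp
        obtain ⟨y, hy, rfl⟩ := hp
        have := hMnP y hy
        exact ⟨⟨hN x hxP y this.2.1 this.2.2, hPT hxP⟩, this.2.2.symm, Or.inr hxP⟩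
    have h4 := Finset.card_le_card hsub
    rw [Finset.card_union_of_disjoint hd1, Finset.card_union_of_disjoint hd2, hB1c, hB2c] at h4
    rw [hcard] at h3
    rw [hP]
    have : 2 * (k + 1) * (n + 1) = 2 * (k + 1) * n + 2 * (k + 1) := by ring
    omega

lemma closure_growth (G : SimpleGraph V) (k d : ℕ) (U T P : Finset V) (hP : P ⊆ cl G k U)
    (hPU : Disjoint P U) (hPT : P ⊆ T) (hN : ∀ x ∈ P, ∀ y ∈ cl G k U, G.Adj x y → y ∈ T)
    (hd : pairsIn G T ≤ 2 * d * T.card) : (k + 1) * P.card ≤ d * T.card := by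
  classical
  have h1 := closure_edges G k U T P.card P rfl hP hPU hPT hN
  have h2 : ((T ×ˢ T).filter (fun p => G.Adj p.1 p.2 ∧ (p.1 ∈ P ∨ p.2 ∈ P))).card ≤
      pairsIn G T := by
    apply Finset.card_le_card
    intro p hp
    rw [Finset.mem_filter] at hp ⊢
    exact ⟨hp.1, hp.2.1⟩
  have h3 : 2 * ((k + 1) * P.card) ≤ 2 * (d * T.card) := by
    calc 2 * ((k + 1) * P.card) = 2 * (k + 1) * P.card := by ring
      _ ≤ 2 * d * T.card := h1.trans (h2.trans hd)
      _ = 2 * (d * T.card) := by ring
  omega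

end closure

/-- an order refining the levels, with bounded back degree -/
lemma exists_pos (G : SimpleGraph V) (ι : V → ℕ) (k : ℕ)
    (h : ∀ S : Finset V, S.Nonempty → ∃ x ∈ S, (∀ y ∈ S, ι y ≤ ι x) ∧ degIn G S x ≤ k) :
    ∀ n : ℕ, ∀ S : Finset V, S.card = n → ∃ pos : V → ℕ, Set.InjOn pos S ∧ (∀ x ∈ S, pos x < n) ∧
      (∀ x ∈ S, ∀ y ∈ S, ι x < ι y → pos x < pos y) ∧
      (∀ x ∈ S, degIn G (S.filter (fun y => pos y < pos x)) x ≤ k) := by
  classical
  intro n
  induction n with
  | zero =>
    intro S hS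
    rw [Finset.card_eq_zero] at hS
    subst hS
    exact ⟨fun _ => 0, by simp, by simp, by simp, by simp⟩
  | succ n ih =>
    intro S hS
    have hne : S.Nonempty := by rw [← Finset.card_pos]; omega
    obtain ⟨x, hx, hmax, hdeg⟩ := h S hne
    obtain ⟨pos, hinj, hlt, hmon, hback⟩ := ih (S.erase x) (by
      rw [Finset.card_erase_of_mem hx, hS]; rfl)
    refine ⟨fun y => if y = x then n else pos y, ?_, ?_, ?_, ?_⟩
    · intro y hy z hz hyz
      simp only at hyz
      split_ifs at hyz with h1 h2 h2
      · rw [h1, h2]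
      · have := hlt z (Finset.mem_erase.2 ⟨h2, hz⟩); omega
      · have := hlt y (Finset.mem_erase.2 ⟨h1, hy⟩); omega
      · exact hinj (Finset.mem_coe.2 (Finset.mem_erase.2 ⟨h1, hy⟩))
          (Finset.mem_coe.2 (Finset.mem_erase.2 ⟨h2, hz⟩)) hyz
    · intro y hy
      simp only
      split_ifs with h1
      · omega
      · have := hlt y (Finset.mem_erase.2 ⟨h1, hy⟩); omega
    · intro y hy z hz hyz
      simp only
      split_ifs with h1 h2 h2
      · subst h1; subst h2; omega
      · subst h1; have := hmax z hz; omega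
      · exact hlt y (Finset.mem_erase.2 ⟨h1, hy⟩)
      · exact hmon y (Finset.mem_erase.2 ⟨h1, hy⟩) z (Finset.mem_erase.2 ⟨h2, hz⟩) hyz
    · intro y hy
      by_cases h1 : y = x
      · subst h1
        refine le_trans (degIn_mono G (Finset.filter_subset _ _) y) hdeg
      · have h2 := hback y (Finset.mem_erase.2 ⟨h1, hy⟩)
        refine le_trans (degIn_mono G ?_ y) h2
        intro z hz
        rw [Finset.mem_filter] at hz ⊢
        obtain ⟨hz1, hz2⟩ := hz
        have hyl := hlt y (Finset.mem_erase.2 ⟨h1, hy⟩)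
        simp only at hz2
        rw [if_neg h1] at hz2
        by_cases h3 : z = x
        · rw [if_pos h3] at hz2; omega
        · rw [if_neg h3] at hz2
          exact ⟨Finset.mem_erase.2 ⟨h3, hz1⟩, hz2⟩

end Pool.Agent.BoxMinor
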