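import Mathlib
import Pool.Agent.BoxMinor.Defs

set_option autoImplicit false

namespace Pool.Agent.BoxMinor
open SimpleGraph

variable {V : Type*}

/-- a single coordinate of a box representation of a supergraph of `G` -/
structure IsCoord (G : SimpleGraph V) (l r : V → ℝ) : Prop where
  le : ∀ v, l v ≤ r v
  adj : ∀ u v, G.Adj u v → l u ≤ r v

/-- the coordinate separates `u` and `v` -/
def Sep (l r : V → ℝ) (u v : V) : Prop := r u < l v ∨ r v < l u

theorem hasBoxRep_of_family {G : SimpleGraph V} {ι : Type*} [Fintype ι] (l r : ι → V → ℝ)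
    (h : ∀ i, IsCoord G (l i) (r i))
    (hs : ∀ u v, u ≠ v → ¬ G.Adj u v → ∃ i, Sep (l i) (r i) u v) :
    HasBoxRep G (Fintype.card ι) := by
  classical
  set f := (Fintype.equivFin ι).symm
  refine ⟨fun v i => l (f i) v, fun v i => r (f i) v, fun v i => (h _).le v, fun u v huv => ?_⟩
  constructor
  · intro hadj i
    exact ⟨(h _).adj u v hadj, (h _).adj v u hadj.symm⟩
  · intro hall
    by_contra hn
    obtain ⟨i, hi⟩ := hs u v huv hn
    have := hall ((Fintype.equivFin ι) i)
    simp only [f, Equiv.symm_apply_apply] at this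
    rcases hi with hi | hi
    · exact absurd this.2 (not_le.2 hi)
    · exact absurd this.1 (not_le.2 hi)

theorem HasBoxRep.mono {G : SimpleGraph V} {d d' : ℕ} (h : HasBoxRep G d) (hd : d ≤ d') :
    HasBoxRep G d' := by
  obtain ⟨lo, hi, h1, h2⟩ := h
  have hco : ∀ i : Fin d, IsCoord G (fun v => lo v i) (fun v => hi v i) := by
    intro i
    refine ⟨fun v => h1 v i, fun u v huv => ?_⟩
    exact ((h2 u v huv.ne).1 huv i).1
  have htriv : IsCoord G (fun _ => (0 : ℝ)) (fun _ => (0 : ℝ)) := ⟨fun _ => le_refl _, fun _ _ _ => le_refl _⟩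
  have := hasBoxRep_of_family (G := G) (ι := Fin d ⊕ Fin (d' - d))
    (fun i => Sum.elim (fun i v => lo v i) (fun _ _ => 0) i)
    (fun i => Sum.elim (fun i v => hi v i) (fun _ _ => 0) i)
    (by rintro (i | i); exact hco i; exact htriv)
    (by
      intro u v huv hn
      by_contra hcon
      push Not at hcon
      apply hn
      rw [h2 u v huv]
      intro i
      have := hcon (Sum.inl i)
      simp only [Sep, Sum.elim_inl, not_or, not_lt] at this
      exact ⟨this.2, this.1⟩)
  simpa [Nat.add_sub_cancel' hd] using this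

theorem boxicity_le {G : SimpleGraph V} {d : ℕ} (h : HasBoxRep G d) : boxicity G ≤ d :=
  Nat.sInf_le h

end Pool.Agent.BoxMinor
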