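import Mathlib
import Pool.Agent.BoxMinor.Closure
import Pool.Agent.BoxMinor.Coord

set_option autoImplicit false

namespace Pool.Agent.BoxMinor
open SimpleGraph

open Classical in
lemma code_step (κ Δ m : ℕ) (hκ : 1 ≤ κ) (hΔ : 1 ≤ Δ) (hm : m = 4 * (κ * Δ)) (Z : Finset (Fin m))
    (hZ : Z.card ≤ κ * Δ) (𝓛 : Finset (Finset (Fin m))) (h𝓛 : 𝓛.card < 3 ^ κ)
    (hL : ∀ L ∈ 𝓛, L.card ≤ κ * Δ) :
    ∃ b : Finset (Fin m), b.card ≤ κ ∧ Disjoint b Z ∧ ∀ L ∈ 𝓛, ∃ c ∈ b, c ∉ L := by
  set A := Finset.univ \ Z with hA
  have hAc : 3 * (κ * Δ) ≤ A.card := by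
    rw [hA, Finset.card_sdiff_of_subset (Finset.subset_univ _), Finset.card_univ, Fintype.card_fin]
    omega
  by_contra hcon
  push Not at hcon
  have hsub : Fintype.piFinset (fun _ : Fin κ => A) ⊆
      𝓛.biUnion (fun L => Fintype.piFinset (fun _ : Fin κ => A ∩ L)) := by
    intro f hf
    rw [Fintype.mem_piFinset] at hf
    obtain ⟨L, hL, hcL⟩ := hcon (Finset.univ.image f)
      (Finset.card_image_le.trans (by simp)) (by
        rw [Finset.disjoint_left]
        intro x hx hxZ
        rw [Finset.mem_image] at hx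
        obtain ⟨i, _, rfl⟩ := hx
        have := hf i
        rw [hA, Finset.mem_sdiff] at this
        exact this.2 hxZ)
    rw [Finset.mem_biUnion]
    refine ⟨L, hL, ?_⟩
    rw [Fintype.mem_piFinset]
    intro i
    exact Finset.mem_inter.2 ⟨hf i, hcL _ (Finset.mem_image_of_mem _ (Finset.mem_univ _))⟩
  have h1 := Finset.card_le_card hsub
  have h2 : (𝓛.biUnion (fun L => Fintype.piFinset (fun _ : Fin κ => A ∩ L))).card ≤
      𝓛.card * (κ * Δ) ^ κ := by
    apply Finset.card_biUnion_le_card_mul
    intro L hLL
    rw [Fintype.card_piFinset_const]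
    exact Nat.pow_le_pow_left ((Finset.card_le_card Finset.inter_subset_right).trans (hL L hLL)) _
  rw [Fintype.card_piFinset_const] at h1
  have h3 : (3 * (κ * Δ)) ^ κ ≤ A.card ^ κ := Nat.pow_le_pow_left hAc _
  rw [Nat.mul_pow] at h3
  have hpos : 0 < (κ * Δ) ^ κ := by positivity
  have h4 : 𝓛.card * (κ * Δ) ^ κ < 3 ^ κ * (κ * Δ) ^ κ := Nat.mul_lt_mul_of_pos_right h𝓛 hpos
  omega

variable {V : Type*}

/-- the requirements on the code of `u` -/
def GoodCode {m : ℕ} (G : SimpleGraph V) (pos : V → ℕ) (κ : ℕ) (F : V → Finset (Finset V))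
    (b : V → Finset (Fin m)) (u : V) : Prop :=
  (b u).card ≤ κ ∧ (∀ w, G.Adj u w → pos w < pos u → Disjoint (b u) (b w)) ∧
    ∀ A ∈ F u, ∃ c ∈ b u, ∀ w ∈ A, c ∉ b w

open Classical in
theorem exists_codes [Fintype V] (G : SimpleGraph V) (pos : V → ℕ) (hinj : Function.Injective pos)
    (κ Δ m : ℕ) (hκ : 1 ≤ κ) (hΔ : 1 ≤ Δ) (hm : m = 4 * (κ * Δ))
    (hback : ∀ u, degIn G (Finset.univ.filter (fun w => pos w < pos u)) u ≤ Δ)
    (F : V → Finset (Finset V)) (hF : ∀ u, (F u).card < 3 ^ κ)
    (hFA : ∀ u, ∀ A ∈ F u, A.card ≤ Δ ∧ ∀ w ∈ A, pos w < pos u) :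
    ∃ b : V → Finset (Fin m), ∀ u, GoodCode G pos κ F b u := by
  have key : ∀ n, ∃ b : V → Finset (Fin m), ∀ u, pos u < n → GoodCode G pos κ F b u := by
    intro n
    induction n with
    | zero => exact ⟨fun _ => ∅, fun u hu => absurd hu (Nat.not_lt_zero _)⟩
    | succ n ih =>
      obtain ⟨b, hb⟩ := ih
      by_cases hex : ∃ u, pos u = n
      · obtain ⟨u, hu⟩ := hex
        set Nb := (Finset.univ.filter (fun w => pos w < pos u)).filter (fun w => G.Adj u w) with hNb
        have hNbc : Nb.card ≤ Δ := by
          have := hback u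
          rwa [degIn_eq_card_filter] at this
        obtain ⟨c, hc1, hc2, hc3⟩ := code_step κ Δ m hκ hΔ hm (Nb.biUnion b)
          (by
            have : (Nb.biUnion b).card ≤ Nb.card * κ := by
              apply Finset.card_biUnion_le_card_mul
              intro w hw
              simp only [hNb, Finset.mem_filter, Finset.mem_univ, true_and] at hw
              exact (hb w (by omega)).1
            calc _ ≤ Nb.card * κ := this
              _ ≤ Δ * κ := Nat.mul_le_mul_right _ hNbc
              _ = κ * Δ := Nat.mul_comm _ _)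
          ((F u).image (fun A => A.biUnion b))
          (lt_of_le_of_lt Finset.card_image_le (hF u))
          (by
            intro L hL
            rw [Finset.mem_image] at hL
            obtain ⟨A, hA, rfl⟩ := hL
            have : (A.biUnion b).card ≤ A.card * κ := by
              apply Finset.card_biUnion_le_card_mul
              intro w hw
              have := (hFA u A hA).2 w hw
              exact (hb w (by omega)).1
            calc _ ≤ A.card * κ := this
              _ ≤ Δ * κ := Nat.mul_le_mul_right _ (hFA u A hA).1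
              _ = κ * Δ := Nat.mul_comm _ _)
        have hupd : ∀ w, pos w < n → Function.update b u c w = b w := by
          intro w hw
          rw [Function.update_of_ne]
          rintro rfl
          omega
        refine ⟨Function.update b u c, fun v hv => ?_⟩
        rcases Nat.lt_succ_iff_lt_or_eq.1 hv with hv | hv
        · obtain ⟨h1, h2, h3⟩ := hb v hv
          refine ⟨?_, ?_, ?_⟩
          · rw [hupd v hv]; exact h1
          · intro w hw hwv
            rw [hupd v hv, hupd w (by omega)]
            exact h2 w hw hwv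
          · intro A hA
            obtain ⟨x, hx, hxw⟩ := h3 A hA
            refine ⟨x, by rw [hupd v hv]; exact hx, fun w hw => ?_⟩
            have := (hFA v A hA).2 w hw
            rw [hupd w (by omega)]
            exact hxw w hw
        · have hvu : v = u := hinj (by omega)
          subst hvu
          refine ⟨?_, ?_, ?_⟩
          · rw [Function.update_self]; exact hc1
          · intro w hw hwv
            rw [Function.update_self, hupd w (by omega)]
            refine Finset.disjoint_of_subset_right ?_ hc2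
            exact Finset.subset_biUnion_of_mem b (by simp [hNb, hw, hwv])
          · intro A hA
            obtain ⟨x, hx, hxw⟩ := hc3 (A.biUnion b) (Finset.mem_image_of_mem _ hA)
            refine ⟨x, by rw [Function.update_self]; exact hx, fun w hw hwx => ?_⟩
            have := (hFA v A hA).2 w hw
            rw [hupd w (by omega)] at hwx
            exact hxw (Finset.mem_biUnion.2 ⟨w, hw, hwx⟩)
      · refine ⟨b, fun u hu => hb u ?_⟩
        rcases Nat.lt_succ_iff_lt_or_eq.1 hu with hu | hu
        · exact hu
        · exact absurd ⟨u, hu⟩ hex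
  obtain ⟨b, hb⟩ := key ((Finset.univ.sup pos) + 1)
  exact ⟨b, fun u => hb u (Nat.lt_succ_of_le (Finset.le_sup (Finset.mem_univ u)))⟩

section coords
variable {m : ℕ} (G : SimpleGraph V) (pos : V → ℕ) (b : V → Finset (Fin m))

open Classical in
/-- left endpoints of the code coordinates -/
noncomputable def lC (c : Fin m) (v : V) : ℕ :=
  if c ∈ b v then pos v else sInf {n | n = pos v ∨ ∃ w, G.Adj v w ∧ c ∈ b w ∧ n = pos w}

open Classical in
/-- right endpoints of the code coordinates -/
noncomputable def rC (M : ℕ) (c : Fin m) (v : V) : ℕ := if c ∈ b v then pos v else M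

lemma lC_le (c : Fin m) (v : V) : lC G pos b c v ≤ pos v := by
  unfold lC
  split_ifs with h
  · exact le_rfl
  · exact Nat.sInf_le (Or.inl rfl)

lemma coordC (hadj : ∀ u v, G.Adj u v → Disjoint (b u) (b v)) (M : ℕ) (hM : ∀ v, pos v ≤ M)
    (c : Fin m) : IsCoord G (fun v => (lC G pos b c v : ℝ)) (fun v => (rC pos b M c v : ℝ)) := by
  refine ⟨fun v => ?_, fun u v huv => ?_⟩
  · have : lC G pos b c v ≤ rC pos b M c v := by
      have h1 := lC_le G pos b c v
      unfold rC
      split_ifs with h
      · exact h1
      · exact h1.trans (hM v)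
    exact_mod_cast this
  · have : lC G pos b c u ≤ rC pos b M c v := by
      by_cases hv : c ∈ b v
      · rw [rC, if_pos hv]
        have hu : c ∉ b u := fun hu => Finset.disjoint_left.1 (hadj u v huv) hu hv
        rw [lC, if_neg hu]
        exact Nat.sInf_le (Or.inr ⟨v, huv, hv, rfl⟩)
      · rw [rC, if_neg hv]
        exact (lC_le G pos b c u).trans (hM u)
    exact_mod_cast this

lemma sepC (M : ℕ) (c : Fin m) {u v : V} (huv : pos u < pos v)
    (hn : ¬ G.Adj u v) (hinj : Function.Injective pos) (hc : c ∈ b u)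
    (hw : ∀ w, G.Adj v w → pos w < pos u → c ∉ b w) :
    Sep (fun v => (lC G pos b c v : ℝ)) (fun v => (rC pos b M c v : ℝ)) u v := by
  left
  have : rC pos b M c u < lC G pos b c v := by
    rw [rC, if_pos hc]
    unfold lC
    split_ifs with hv
    · exact huv
    · rcases Nat.sInf_mem (s := {n | n = pos v ∨ ∃ w, G.Adj v w ∧ c ∈ b w ∧ n = pos w})
        ⟨_, Or.inl rfl⟩ with h | ⟨w, hvw, hcw, h⟩
      · rw [h]; exact huv
      · rw [h]
        rcases lt_trichotomy (pos u) (pos w) with h1 | h1 | h1
        · exact h1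
        · have := hinj h1
          subst this
          exact absurd hvw.symm hn
        · exact absurd hcw (hw w hvw h1)
  show (rC pos b M c u : ℝ) < (lC G pos b c v : ℝ)
  exact_mod_cast this

end coords

end Pool.Agent.BoxMinor
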