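import Mathlib
import Pool.Agent.BoxMinor.Restr

set_option autoImplicit false

namespace Pool.Agent.BoxMinor
open SimpleGraph

variable {V : Type*}

lemma hasCliqueMinor_of_family (G : SimpleGraph V) {ι : Type*} [Fintype ι] (B : ι → Set V)
    (hc : ∀ i, (G.induce (B i)).Connected) (hd : ∀ i j, i ≠ j → Disjoint (B i) (B j))
    (ha : ∀ i j, i ≠ j → AdjSets G (B i) (B j)) (t : ℕ) (ht : t ≤ Fintype.card ι) :
    HasCliqueMinor G t := by
  obtain ⟨f⟩ : Nonempty (Fin t ↪ ι) := Function.Embedding.nonempty_of_card_le (by simpa using ht)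
  exact ⟨fun i => B (f i), fun i => hc _, fun i j h => hd _ _ (fun h' => h (f.injective h')),
    fun i j h => ha _ _ (fun h' => h (f.injective h'))⟩

lemma dist_getVert {H : SimpleGraph V} {u v : V} (p : H.Walk u v) (hp : p.length = H.dist u v)
    {i : ℕ} (hi : i ≤ p.length) : H.dist u (p.getVert i) = i := by
  have h1 : H.dist u (p.getVert i) ≤ i := by
    have := dist_le (p.take i)
    rw [Walk.take_length] at this
    exact this.trans (min_le_left _ _)
  have h2 : H.dist (p.getVert i) v ≤ p.length - i := by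
    have := dist_le (p.drop i)
    rwa [Walk.drop_length] at this
  have h3 : H.dist u v ≤ H.dist u (p.getVert i) + H.dist (p.getVert i) v :=
    (p.take i).reachable.dist_triangle_left v
  omega

lemma geo_union [Finite V] (G : SimpleGraph V) (C : Set V) (r : V) (hr : r ∈ C)
    (hC : ∀ x ∈ C, (restr G C).Reachable r x) (T : Finset V) (hT : ∀ x ∈ T, x ∈ C) :
    ∃ V0 : Set V, V0 ⊆ C ∧ r ∈ V0 ∧ (∀ x ∈ T, x ∈ V0) ∧ (G.induce V0).Connected ∧
      ∀ k : ℕ, {x | x ∈ V0 ∧ (restr G C).dist r x = k}.ncard ≤ T.card + 1 := by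
  classical
  set H := restr G C with hH
  have hw : ∀ x : T, ∃ p : H.Walk r x.1, p.length = H.dist r x.1 := fun x =>
    (hC x.1 (hT x.1 x.2)).exists_walk_length_eq_dist
  choose p hp using hw
  refine ⟨{y | y = r ∨ ∃ x : T, y ∈ (p x).support}, ?_, Or.inl rfl, ?_, ?_, ?_⟩
  · rintro y (rfl | ⟨x, hy⟩)
    · exact hr
    · exact restr_walk_support G C (p x) hr y hy
  · intro x hx
    exact Or.inr ⟨⟨x, hx⟩, (p ⟨x, hx⟩).end_mem_support⟩
  · rw [induce_connected_iff]
    have key : ∀ y ∈ ({y | y = r ∨ ∃ x : T, y ∈ (p x).support} : Set V),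
        (restr G {y | y = r ∨ ∃ x : T, y ∈ (p x).support}).Reachable r y := by
      rintro y (rfl | ⟨x, hy⟩)
      · exact Reachable.refl _
      · -- follow the walk
        have aux : ∀ {a b : V} (q : H.Walk a b), (∀ z ∈ q.support, z ∈ (p x).support) →
            (restr G {y | y = r ∨ ∃ x : T, y ∈ (p x).support}).Reachable a b := by
          intro a b q
          induction q with
          | nil => intro _; exact Reachable.refl _
          | @cons a b c h q ih =>
            intro hs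
            have hb : b ∈ (Walk.cons h q).support := by
              simp [Walk.support_cons]
            have ha : a ∈ (Walk.cons h q).support := Walk.start_mem_support _
            have : (restr G {y | y = r ∨ ∃ x : T, y ∈ (p x).support}).Adj a b :=
              ⟨h.1, Or.inr ⟨x, hs a ha⟩, Or.inr ⟨x, hs b hb⟩⟩
            refine this.reachable.trans (ih ?_)
            intro z hz
            exact hs z (by simp [Walk.support_cons, hz])
        exact aux ((p x).takeUntil y hy) (fun z hz => (p x).support_takeUntil_subset_support hy hz)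
    exact ⟨⟨r, Or.inl rfl⟩, fun x hx y hy => (key x hx).symm.trans (key y hy)⟩
  · intro k
    have hsub : {x | x ∈ ({y | y = r ∨ ∃ x : T, y ∈ (p x).support} : Set V) ∧ H.dist r x = k} ⊆
        ((insert r (T.attach.image (fun x => (p x).getVert k)) : Finset V) : Set V) := by
      rintro y ⟨(rfl | ⟨x, hy⟩), hk⟩
      · simp
      · rw [Walk.mem_support_iff_exists_getVert] at hy
        obtain ⟨i, hi, hile⟩ := hy
        have := dist_getVert (p x) (hp x) hile
        rw [hi] at this
        have hik : i = k := by omega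
        subst hik
        simp only [Finset.coe_insert, Finset.coe_image, Set.mem_insert_iff, Set.mem_image,
          Finset.mem_coe]
        exact Or.inr ⟨x, Finset.mem_attach _ _, hi⟩
    calc {x | x ∈ ({y | y = r ∨ ∃ x : T, y ∈ (p x).support} : Set V) ∧ H.dist r x = k}.ncard
        ≤ ((insert r (T.attach.image (fun x => (p x).getVert k)) : Finset V) : Set V).ncard :=
          Set.ncard_le_ncard hsub (Set.toFinite _)
      _ = (insert r (T.attach.image (fun x => (p x).getVert k)) : Finset V).card :=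
          Set.ncard_coe_finset _
      _ ≤ (T.attach.image (fun x => (p x).getVert k)).card + 1 := Finset.card_insert_le _ _
      _ ≤ T.card + 1 := by
          have := Finset.card_image_le (s := T.attach) (f := fun x => (p x).getVert k)
          rw [Finset.card_attach] at this
          omega

/-- the tree-like ordered partition of a graph used for the upper bound -/
structure LayoutOn (G : SimpleGraph V) (c lam : ℕ) (U : Set V) (N : ℕ) (β : V → ℕ) (e : ℕ → ℕ)
    (φ : ℕ → Fin c) (D : ℕ → V → ℕ) : Prop where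
  lt : ∀ x ∈ U, β x < N
  e_lt : ∀ i, i < N → e i < N
  le_e : ∀ i, i < N → i ≤ e i
  laminar : ∀ i j, i < N → i ≤ j → j ≤ e i → e j ≤ e i
  adj_le : ∀ x ∈ U, ∀ y ∈ U, G.Adj x y → β x ≤ β y → β y ≤ e (β x)
  color : ∀ x ∈ U, ∀ y ∈ U, G.Adj x y → β x < β y → ∀ k, β x < k → k ≤ β y → β y ≤ e k →
    φ k ≠ φ (β x)
  lip : ∀ i, i < N → ∀ x ∈ U, ∀ y ∈ U, G.Adj x y → i ≤ β x → β x ≤ e i → i ≤ β y → β y ≤ e i →
    D i y ≤ D i x + 1
  width : ∀ i, ∀ k, {x | x ∈ U ∧ β x = i ∧ D i x = k}.ncard ≤ lam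

structure Ctx (G : SimpleGraph V) (c : ℕ) (U : Set V) {J : Type} (Q : J → Set V)
    (ψ : J → Fin c) : Prop where
  conn : ∀ j, (G.induce (Q j)).Connected
  disjU : ∀ j, Disjoint (Q j) U
  disj : ∀ i j, i ≠ j → Disjoint (Q i) (Q j)
  adj : ∀ K : Set V, K ⊆ U → (G.induce K).Connected → ∀ i j, i ≠ j → AdjSets G K (Q i) →
    AdjSets G K (Q j) → AdjSets G (Q i) (Q j) ∧ ψ i ≠ ψ j

theorem layout_aux [Finite V] (G : SimpleGraph V) (t : ℕ) (ht : 2 ≤ t)
    (hG : ¬ HasCliqueMinor G t) :
    ∀ n : ℕ, ∀ U : Set V, U.ncard = n → ∀ (J : Type) (Q : J → Set V) (ψ : J → Fin (t - 1)),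
      Ctx G (t - 1) U Q ψ →
      ∃ (N : ℕ) (β : V → ℕ) (e : ℕ → ℕ) (φ : ℕ → Fin (t - 1)) (D : ℕ → V → ℕ),
        LayoutOn G (t - 1) t U N β e φ D ∧
        ∀ j, ∀ x ∈ Q j, ∀ y ∈ U, G.Adj x y → ∀ k, k ≤ β y → β y ≤ e k → φ k ≠ ψ j := by
  classical
  intro n
  induction n using Nat.strong_induction_on with
  | _ n ih =>
  intro U hU J Q ψ hctx
  rcases Set.eq_empty_or_nonempty U with rfl | ⟨u, hu⟩
  · have hpos : 0 < t - 1 := by omega
    refine ⟨0, fun _ => 0, fun _ => 0, fun _ => ⟨0, hpos⟩, fun _ _ => 0, ?_, ?_⟩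
    · constructor <;> simp
    · simp
  -- the component
  set C := comp G U u with hCdef
  have hCU : C ⊆ U := comp_subset G U hu
  have huC : u ∈ C := mem_comp_self G U u
  have hCconn : (G.induce C).Connected := comp_connected G U u
  have hcl : ∀ x ∈ C, ∀ y ∈ U, G.Adj x y → y ∈ C := fun x hx y hy h => comp_closed G U hu hx hy h
  set JC : Set J := {j | AdjSets G C (Q j)} with hJC
  have hψinj : Set.InjOn ψ JC := by
    intro i hi j hj hij
    by_contra hne
    exact (hctx.adj C hCU hCconn i j hne hi hj).2 hij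
  have hJCfin : JC.Finite := Set.Finite.of_finite_image (Set.toFinite _) hψinj
  have : Fintype JC := hJCfin.fintype
  have hcard : Fintype.card JC < t - 1 := by
    by_contra hcon
    push Not at hcon
    apply hG
    refine hasCliqueMinor_of_family G (ι := Option JC)
      (fun o => match o with | none => C | some j => Q j.1) ?_ ?_ ?_ t ?_
    · rintro (_ | j)
      · exact hCconn
      · exact hctx.conn j.1
    · rintro (_ | i) (_ | j) hij
      · exact absurd rfl hij
      · exact ((hctx.disjU j.1).mono_right hCU).symm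
      · exact ((hctx.disjU i.1).mono_right hCU)
      · exact hctx.disj i.1 j.1 (fun h => hij (by rw [Subtype.ext h]))
    · rintro (_ | i) (_ | j) hij
      · exact absurd rfl hij
      · exact j.2
      · exact AdjSets.symm i.2
      · exact (hctx.adj C hCU hCconn i.1 j.1 (fun h => hij (by rw [Subtype.ext h])) i.2 j.2).1
    · rw [Fintype.card_option]; omega
  -- targets
  have hv : ∀ j : JC, ∃ x ∈ C, ∃ y ∈ Q j.1, G.Adj x y := fun j => j.2
  choose v hvC w hwQ hvw using hv
  set T : Finset V := Finset.univ.image v with hT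
  have hTcard : T.card ≤ Fintype.card JC := by
    refine Finset.card_image_le.trans ?_
    simp
  obtain ⟨V0, hV0C, huV0, hTV0, hV0conn, hV0w⟩ := geo_union G C u huC
    (fun x hx => restr_comp_reachable G U hx) T (by
      intro x hx
      rw [hT] at hx
      simp only [Finset.mem_image, Finset.mem_univ, true_and] at hx
      obtain ⟨j, rfl⟩ := hx
      exact hvC j)
  -- colour
  obtain ⟨c0, hc0⟩ : ∃ c0 : Fin (t - 1), ∀ j ∈ JC, ψ j ≠ c0 := by
    by_contra hcon
    push Not at hcon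
    have : (Finset.univ : Finset (Fin (t - 1))) ⊆ Finset.univ.image (fun j : JC => ψ j.1) := by
      intro c _
      obtain ⟨j, hj, hjc⟩ := hcon c
      simp only [Finset.mem_image, Finset.mem_univ, true_and]
      exact ⟨⟨j, hj⟩, hjc⟩
    have h1 := Finset.card_le_card this
    have h2 : (Finset.univ.image (fun j : JC => ψ j.1)).card ≤ Fintype.card JC :=
      Finset.card_image_le.trans (by simp)
    simp at h1
    omega
  -- recursion on U1 = C \ V0
  have hn1 : (C \ V0).ncard < n := by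
    rw [← hU]
    apply Set.ncard_lt_ncard _ (Set.toFinite _)
    refine ⟨fun x hx => hCU hx.1, fun h => ?_⟩
    exact (h hu).2 huV0
  have hctx1 : Ctx G (t - 1) (C \ V0) (J := Option J)
      (fun o => match o with | none => V0 | some j => Q j)
      (fun o => match o with | none => c0 | some j => ψ j) := by
    constructor
    · rintro (_ | j)
      · exact hV0conn
      · exact hctx.conn j
    · rintro (_ | j)
      · exact Set.disjoint_sdiff_right
      · exact (hctx.disjU j).mono_right (fun x hx => hCU hx.1)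
    · rintro (_ | i) (_ | j) hij
      · exact absurd rfl hij
      · exact ((hctx.disjU j).mono_right (hV0C.trans hCU)).symm
      · exact (hctx.disjU i).mono_right (hV0C.trans hCU)
      · exact hctx.disj i j (fun h => hij (by rw [h]))
    · intro K hK hKc i j hij hKi hKj
      have hKC : K ⊆ C := fun x hx => (hK hx).1
      have key : ∀ j : J, AdjSets G K (Q j) → AdjSets G V0 (Q j) ∧ c0 ≠ ψ j := by
        intro j hKj
        have hj : j ∈ JC := hKj.mono_left hKC
        refine ⟨⟨v ⟨j, hj⟩, hTV0 _ (by rw [hT]; simp), w ⟨j, hj⟩, hwQ ⟨j, hj⟩, hvw ⟨j, hj⟩⟩,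
          (hc0 j hj).symm⟩
      rcases i with (_ | i) <;> rcases j with (_ | j)
      · exact absurd rfl hij
      · exact key j hKj
      · exact ⟨(key i hKi).1.symm, (key i hKi).2.symm⟩
      · exact hctx.adj K (hKC.trans hCU) hKc i j (fun h => hij (by rw [h])) hKi hKj
  obtain ⟨N1, β1, e1, φ1, D1, L1, X1⟩ := ih _ hn1 (C \ V0) rfl _ _ _ hctx1
  -- recursion on U2 = U \ C
  have hn2 : (U \ C).ncard < n := by
    rw [← hU]
    apply Set.ncard_lt_ncard _ (Set.toFinite _)
    refine ⟨fun x hx => hx.1, fun h => ?_⟩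
    exact (h hu).2 huC
  have hctx2 : Ctx G (t - 1) (U \ C) Q ψ := by
    constructor
    · exact hctx.conn
    · exact fun j => (hctx.disjU j).mono_right Set.sdiff_subset
    · exact hctx.disj
    · exact fun K hK hKc => hctx.adj K (hK.trans Set.sdiff_subset) hKc
  obtain ⟨N2, β2, e2, φ2, D2, L2, X2⟩ := ih _ hn2 (U \ C) rfl _ _ _ hctx2
  -- combine
  set β : V → ℕ := fun x => if x ∈ V0 then 0 else if x ∈ C then β1 x + 1 else β2 x + 1 + N1
    with hβ
  set e : ℕ → ℕ := fun i => if i = 0 then N1 else if i ≤ N1 then e1 (i - 1) + 1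
    else e2 (i - 1 - N1) + 1 + N1 with he
  set φ : ℕ → Fin (t - 1) := fun i => if i = 0 then c0 else if i ≤ N1 then φ1 (i - 1)
    else φ2 (i - 1 - N1) with hφ
  set D : ℕ → V → ℕ := fun i => if i = 0 then fun x => (restr G C).dist u x
    else if i ≤ N1 then D1 (i - 1) else D2 (i - 1 - N1) with hD
  have hβ0 : ∀ x ∈ V0, β x = 0 := by intro x hx; simp [hβ, hx]
  have hβ1 : ∀ x ∈ C \ V0, β x = β1 x + 1 := by intro x hx; simp [hβ, hx.1, hx.2]
  have hβ2 : ∀ x ∈ U \ C, β x = β2 x + 1 + N1 := by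
    intro x hx
    have : x ∉ V0 := fun h => hx.2 (hV0C h)
    simp [hβ, hx.2, this]
  have he0 : e 0 = N1 := by simp [he]
  have he1 : ∀ k, k < N1 → e (k + 1) = e1 k + 1 := by
    intro k hk; simp [he]; omega
  have he2 : ∀ k, e (k + 1 + N1) = e2 k + 1 + N1 := by
    intro k
    have h1 : ¬ (k + 1 + N1 ≤ N1) := by omega
    have h2 : k + 1 + N1 - 1 - N1 = k := by omega
    simp only [he]
    rw [if_neg (by omega), if_neg h1, h2]
  have hφ0 : φ 0 = c0 := by simp [hφ]
  have hφ1 : ∀ k, k < N1 → φ (k + 1) = φ1 k := by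
    intro k hk; simp [hφ]; intro h; omega
  have hφ2 : ∀ k, φ (k + 1 + N1) = φ2 k := by
    intro k
    have h1 : ¬ (k + 1 + N1 ≤ N1) := by omega
    have h2 : k + 1 + N1 - 1 - N1 = k := by omega
    simp only [hφ]
    rw [if_neg (by omega), if_neg h1, h2]
  have hD0 : ∀ x, D 0 x = (restr G C).dist u x := by intro x; simp [hD]
  have hD1 : ∀ k, k < N1 → D (k + 1) = D1 k := by
    intro k hk
    simp only [hD]
    rw [if_neg (by omega), if_pos (by omega)]
    simp
  have hD2 : ∀ k, D (k + 1 + N1) = D2 k := by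
    intro k
    have h1 : ¬ (k + 1 + N1 ≤ N1) := by omega
    have h2 : k + 1 + N1 - 1 - N1 = k := by omega
    simp only [hD]
    rw [if_neg (by omega), if_neg h1, h2]
  clear_value β e φ D
  have htri : ∀ x ∈ U, x ∈ V0 ∨ x ∈ C \ V0 ∨ x ∈ U \ C := by
    intro x hx
    by_cases h1 : x ∈ V0
    · exact Or.inl h1
    · by_cases h2 : x ∈ C
      · exact Or.inr (Or.inl ⟨h2, h1⟩)
      · exact Or.inr (Or.inr ⟨hx, h2⟩)
  have hlt1 : ∀ x ∈ C \ V0, β1 x < N1 := L1.lt
  have hlt2 : ∀ x ∈ U \ C, β2 x < N2 := L2.lt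
  -- position of x from its index
  have hpos : ∀ x ∈ U, (β x = 0 ∧ x ∈ V0) ∨ (1 ≤ β x ∧ β x ≤ N1 ∧ x ∈ C \ V0) ∨
      (N1 < β x ∧ x ∈ U \ C) := by
    intro x hx
    rcases htri x hx with h | h | h
    · exact Or.inl ⟨hβ0 x h, h⟩
    · have := hβ1 x h; have := hlt1 x h
      exact Or.inr (Or.inl ⟨by omega, by omega, h⟩)
    · have := hβ2 x h
      exact Or.inr (Or.inr ⟨by omega, h⟩)
  -- index trichotomy
  have hidx : ∀ i, i = 0 ∨ (∃ k, k < N1 ∧ i = k + 1) ∨ (∃ k, i = k + 1 + N1) := by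
    intro i
    rcases Nat.eq_zero_or_pos i with h | h
    · exact Or.inl h
    · rcases Nat.lt_or_ge N1 i with h' | h'
      · exact Or.inr (Or.inr ⟨i - 1 - N1, by omega⟩)
      · exact Or.inr (Or.inl ⟨i - 1, by omega, by omega⟩)
  refine ⟨1 + N1 + N2, β, e, φ, D, ⟨?_, ?_, ?_, ?_, ?_, ?_, ?_, ?_⟩, ?_⟩
  · -- lt
    intro x hx
    rcases htri x hx with h | h | h
    · rw [hβ0 x h]; omega
    · rw [hβ1 x h]; have := hlt1 x h; omega
    · rw [hβ2 x h]; have := hlt2 x h; omega
  · -- e_lt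
    intro i hi
    rcases hidx i with rfl | ⟨k, hk, rfl⟩ | ⟨k, rfl⟩
    · rw [he0]; omega
    · rw [he1 k hk]; have := L1.e_lt k hk; omega
    · rw [he2 k]; have := L2.e_lt k (by omega); omega
  · -- le_e
    intro i hi
    rcases hidx i with rfl | ⟨k, hk, rfl⟩ | ⟨k, rfl⟩
    · omega
    · rw [he1 k hk]; have := L1.le_e k hk; omega
    · rw [he2 k]; have := L2.le_e k (by omega); omega
  · -- laminar
    intro i j hi hij hj
    rcases hidx i with rfl | ⟨k, hk, rfl⟩ | ⟨k, rfl⟩
    · rw [he0] at hj ⊢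
      rcases hidx j with rfl | ⟨l, hl, rfl⟩ | ⟨l, rfl⟩
      · rw [he0]
      · rw [he1 l hl]; have := L1.e_lt l hl; omega
      · omega
    · rw [he1 k hk] at hj ⊢
      have hek := L1.e_lt k hk
      rcases hidx j with rfl | ⟨l, hl, rfl⟩ | ⟨l, rfl⟩
      · omega
      · rw [he1 l hl]
        have := L1.laminar k l hk (by omega) (by omega)
        omega
      · omega
    · rw [he2 k] at hj ⊢
      rcases hidx j with rfl | ⟨l, hl, rfl⟩ | ⟨l, rfl⟩
      · omega
      · omega
      · rw [he2 l]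
        have := L2.laminar k l (by omega) (by omega) (by omega)
        omega
  · -- adj_le
    intro x hx y hy hxy hle
    rcases hpos x hx with ⟨h1, h2⟩ | ⟨h1, h1', h2⟩ | ⟨h1, h2⟩
    · rw [h1, he0]
      have hyC : y ∈ C := hcl x (hV0C h2) y hy hxy
      rcases hpos y hy with ⟨h3, h4⟩ | ⟨h3, h3', h4⟩ | ⟨h3, h4⟩
      · omega
      · exact h3'
      · exact absurd hyC h4.2
    · have hyC : y ∈ C := hcl x h2.1 y hy hxy
      rcases hpos y hy with ⟨h3, h4⟩ | ⟨h3, h3', h4⟩ | ⟨h3, h4⟩
      · omega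
      · rw [hβ1 x h2, hβ1 y h4] at hle
        rw [hβ1 x h2, he1 _ (hlt1 x h2), hβ1 y h4]
        have := L1.adj_le x h2 y h4 hxy (by omega)
        omega
      · exact absurd hyC h4.2
    · have hyC : y ∉ C := fun h => h2.2 (hcl y h x hx hxy.symm)
      have hy2 : y ∈ U \ C := ⟨hy, hyC⟩
      rw [hβ2 x h2, hβ2 y hy2] at hle
      rw [hβ2 x h2, he2, hβ2 y hy2]
      have := L2.adj_le x h2 y hy2 hxy (by omega)
      omega
  · -- color
    intro x hx y hy hxy hlt k hk1 hk2 hk3
    rcases hpos x hx with ⟨h1, h2⟩ | ⟨h1, h1', h2⟩ | ⟨h1, h2⟩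
    · rw [h1] at hlt hk1 ⊢
      have hyC : y ∈ C := hcl x (hV0C h2) y hy hxy
      rcases hpos y hy with ⟨h3, h4⟩ | ⟨h3, h3', h4⟩ | ⟨h3, h4⟩
      · omega
      · rcases hidx k with rfl | ⟨l, hl, rfl⟩ | ⟨l, rfl⟩
        · omega
        · rw [hφ0, hφ1 l hl]
          rw [he1 l hl, hβ1 y h4] at hk3
          rw [hβ1 y h4] at hk2
          exact X1 none x h2 y h4 hxy l (by omega) (by omega)
        · omega
      · exact absurd hyC h4.2
    · have hyC : y ∈ C := hcl x h2.1 y hy hxy
      rcases hpos y hy with ⟨h3, h4⟩ | ⟨h3, h3', h4⟩ | ⟨h3, h4⟩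
      · omega
      · rw [hβ1 x h2] at hlt hk1 ⊢
        rw [hβ1 y h4] at hlt hk2 hk3
        rcases hidx k with rfl | ⟨l, hl, rfl⟩ | ⟨l, rfl⟩
        · omega
        · rw [hφ1 l hl, hφ1 _ (hlt1 x h2)]
          rw [he1 l hl] at hk3
          exact L1.color x h2 y h4 hxy (by omega) l (by omega) (by omega) (by omega)
        · have := hlt1 y h4; omega
      · exact absurd hyC h4.2
    · have hyC : y ∉ C := fun h => h2.2 (hcl y h x hx hxy.symm)
      have hy2 : y ∈ U \ C := ⟨hy, hyC⟩
      rw [hβ2 x h2] at hlt hk1 ⊢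
      rw [hβ2 y hy2] at hlt hk2 hk3
      rcases hidx k with rfl | ⟨l, hl, rfl⟩ | ⟨l, rfl⟩
      · omega
      · omega
      · rw [hφ2 l, hφ2]
        rw [he2 l] at hk3
        exact L2.color x h2 y hy2 hxy (by omega) l (by omega) (by omega) (by omega)
  · -- lip
    intro i hi x hx y hy hxy hix hxi hiy hyi
    rcases hidx i with rfl | ⟨k, hk, rfl⟩ | ⟨k, rfl⟩
    · rw [he0] at hxi hyi
      have hxC : x ∈ C := by
        rcases hpos x hx with ⟨h1, h2⟩ | ⟨h1, h1', h2⟩ | ⟨h1, h2⟩
        · exact hV0C h2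
        · exact h2.1
        · omega
      have hyC : y ∈ C := hcl x hxC y hy hxy
      rw [hD0, hD0]
      have hadj : (restr G C).Adj x y := ⟨hxy, hxC, hyC⟩
      have h1 := (restr_comp_reachable G U hxC).dist_triangle_left y
      have h2 : (restr G C).dist x y = 1 := dist_eq_one_iff_adj.2 hadj
      rw [← hCdef] at h1
      omega
    · have hx1 : x ∈ C \ V0 := by
        rw [he1 k hk] at hxi
        have := L1.e_lt k hk
        rcases hpos x hx with ⟨h1, h2⟩ | ⟨h1, h1', h2⟩ | ⟨h1, h2⟩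
        · omega
        · exact h2
        · omega
      have hy1 : y ∈ C \ V0 := by
        rw [he1 k hk] at hyi
        have := L1.e_lt k hk
        rcases hpos y hy with ⟨h1, h2⟩ | ⟨h1, h1', h2⟩ | ⟨h1, h2⟩
        · omega
        · exact h2
        · omega
      rw [he1 k hk] at hxi hyi
      rw [hβ1 x hx1] at hxi hix
      rw [hβ1 y hy1] at hyi hiy
      rw [hD1 k hk]
      exact L1.lip k hk x hx1 y hy1 hxy (by omega) (by omega) (by omega) (by omega)
    · have hx2 : x ∈ U \ C := by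
        rcases hpos x hx with ⟨h1, h2⟩ | ⟨h1, h1', h2⟩ | ⟨h1, h2⟩
        · omega
        · omega
        · exact h2
      have hy2 : y ∈ U \ C := by
        rcases hpos y hy with ⟨h1, h2⟩ | ⟨h1, h1', h2⟩ | ⟨h1, h2⟩
        · omega
        · omega
        · exact h2
      rw [he2 k] at hxi hyi
      rw [hβ2 x hx2] at hxi hix
      rw [hβ2 y hy2] at hyi hiy
      rw [hD2 k]
      exact L2.lip k (by omega) x hx2 y hy2 hxy (by omega) (by omega) (by omega) (by omega)
  · -- width
    intro i k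
    rcases hidx i with rfl | ⟨l, hl, rfl⟩ | ⟨l, rfl⟩
    · refine (Set.ncard_le_ncard (t := {x | x ∈ V0 ∧ (restr G C).dist u x = k}) ?_
        (Set.toFinite _)).trans ((hV0w k).trans (by omega))
      rintro x ⟨hx, h1, h2⟩
      rw [hD0] at h2
      refine ⟨?_, h2⟩
      rcases hpos x hx with ⟨h3, h4⟩ | ⟨h3, h3', h4⟩ | ⟨h3, h4⟩
      · exact h4
      · omega
      · omega
    · refine (Set.ncard_le_ncard ?_ (Set.toFinite _)).trans (L1.width l k)
      rintro x ⟨hx, h1, h2⟩
      rw [hD1 l hl] at h2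
      rcases hpos x hx with ⟨h3, h4⟩ | ⟨h3, h3', h4⟩ | ⟨h3, h4⟩
      · omega
      · rw [hβ1 x h4] at h1
        exact ⟨h4, by omega, h2⟩
      · omega
    · refine (Set.ncard_le_ncard ?_ (Set.toFinite _)).trans (L2.width l k)
      rintro x ⟨hx, h1, h2⟩
      rw [hD2 l] at h2
      rcases hpos x hx with ⟨h3, h4⟩ | ⟨h3, h3', h4⟩ | ⟨h3, h4⟩
      · omega
      · omega
      · rw [hβ2 x h4] at h1
        exact ⟨h4, by omega, h2⟩
  · -- context colours
    intro j x hx y hy hxy k hk1 hk2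
    rcases hpos y hy with ⟨h3, h4⟩ | ⟨h3, h3', h4⟩ | ⟨h3, h4⟩
    · have hk0 : k = 0 := by omega
      subst hk0
      rw [hφ0]
      exact (hc0 j ⟨y, hV0C h4, x, hx, hxy.symm⟩).symm
    · rcases hidx k with rfl | ⟨l, hl, rfl⟩ | ⟨l, rfl⟩
      · rw [hφ0]
        exact (hc0 j ⟨y, h4.1, x, hx, hxy.symm⟩).symm
      · rw [hφ1 l hl]
        rw [he1 l hl, hβ1 y h4] at hk2
        rw [hβ1 y h4] at hk1
        exact X1 (some j) x hx y h4 hxy l (by omega) (by omega)
      · omega
    · rcases hidx k with rfl | ⟨l, hl, rfl⟩ | ⟨l, rfl⟩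
      · rw [he0] at hk2; omega
      · rw [he1 l hl] at hk2
        have := L1.e_lt l hl
        omega
      · rw [hφ2 l]
        rw [he2 l, hβ2 y h4] at hk2
        rw [hβ2 y h4] at hk1
        exact X2 j x hx y h4 hxy l (by omega) (by omega)

theorem exists_layout [Finite V] (G : SimpleGraph V) (t : ℕ) (ht : 2 ≤ t)
    (hG : ¬ HasCliqueMinor G t) :
    ∃ (N : ℕ) (β : V → ℕ) (e : ℕ → ℕ) (φ : ℕ → Fin (t - 1)) (D : ℕ → V → ℕ),
        LayoutOn G (t - 1) t Set.univ N β e φ D := by
  obtain ⟨N, β, e, φ, D, h, -⟩ := layout_aux G t ht hG _ Set.univ rfl Empty (fun j => j.elim)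
    (fun j => j.elim) ⟨fun j => j.elim, fun j => j.elim, fun j => j.elim,
      fun _ _ _ j => j.elim⟩
  exact ⟨N, β, e, φ, D, h⟩

end Pool.Agent.BoxMinor
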