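import Mathlib
import Pool.Agent.BoxMinor.Layout
import Pool.Agent.BoxMinor.Coord

set_option autoImplicit false

namespace Pool.Agent.BoxMinor
open SimpleGraph

variable {V : Type*}

/-- relation used for clusters: same part, same layer, adjacent or with a common later neighbour -/
def clGraph (G : SimpleGraph V) (β : V → ℕ) (D : ℕ → V → ℕ) : SimpleGraph V where
  Adj y y' := y ≠ y' ∧ β y = β y' ∧ D (β y) y = D (β y') y' ∧
    (G.Adj y y' ∨ ∃ z, β y ≤ β z ∧ G.Adj y z ∧ G.Adj z y')
  symm := ⟨fun y y' h => ⟨h.1.symm, h.2.1.symm, h.2.2.1.symm, by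
    rcases h.2.2.2 with h' | ⟨z, h1, h2, h3⟩
    · exact Or.inl h'.symm
    · exact Or.inr ⟨z, h.2.1 ▸ h1, h3.symm, h2.symm⟩⟩⟩
  loopless := ⟨fun _ h => h.1 rfl⟩

lemma cl_walk (G : SimpleGraph V) (β : V → ℕ) (D : ℕ → V → ℕ) (i : ℕ) {u v : V}
    (p : (clGraph G β D).Walk u v) : β u = i → 
    (∀ x ∈ p.support, β x = i ∧ D (β x) x = D (β u) u) ∧
    ∃ q : (restr G {x | i ≤ β x}).Walk u v, q.length ≤ 2 * p.length := by
  induction p with
  | nil => intro hi; exact ⟨fun x hx => by simp at hx; subst hx; exact ⟨hi, rfl⟩, Walk.nil, by simp⟩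
  | @cons a b c h p ih =>
    intro hi
    have hab : β a = β b := h.2.1
    have hDab : D (β a) a = D (β b) b := h.2.2.1
    obtain ⟨h1, q, hq⟩ := ih (by omega)
    have e1 : ∃ q' : (restr G {x | i ≤ β x}).Walk a b, q'.length ≤ 2 := by
      rcases h.2.2.2 with h' | ⟨z, hz1, hz2, hz3⟩
      · have : (restr G {x | i ≤ β x}).Adj a b := ⟨h', by simp [hi], by simp; omega⟩
        exact ⟨Walk.cons this Walk.nil, by simp⟩
      · have h4 : (restr G {x | i ≤ β x}).Adj a z := ⟨hz2, by simp [hi], by simp; omega⟩
        have h5 : (restr G {x | i ≤ β x}).Adj z b := ⟨hz3, by simp; omega, by simp; omega⟩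
        exact ⟨Walk.cons h4 (Walk.cons h5 Walk.nil), by simp⟩
    obtain ⟨q', hq'⟩ := e1
    refine ⟨?_, q'.append q, ?_⟩
    · intro x hx
      simp only [Walk.support_cons, List.mem_cons] at hx
      rcases hx with rfl | hx
      · exact ⟨hi, rfl⟩
      · obtain ⟨h2, h3⟩ := h1 x hx
        exact ⟨h2, by rw [h3, hDab]⟩
    · rw [Walk.length_append, Walk.length_cons]
      omega

variable {G : SimpleGraph V} {c lam N : ℕ} {β : V → ℕ} {e : ℕ → ℕ} {φ : ℕ → Fin c}
  {D : ℕ → V → ℕ}

lemma LayoutOn.le_e_of_adj (L : LayoutOn G c lam Set.univ N β e φ D) {u v : V}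
    (h : G.Adj u v) : β u ≤ e (β v) := by
  rcases le_or_gt (β v) (β u) with h1 | h1
  · exact L.adj_le v (Set.mem_univ _) u (Set.mem_univ _) h.symm h1
  · exact h1.le.trans (L.le_e _ (L.lt v (Set.mem_univ _)))

lemma coordA (L : LayoutOn G c lam Set.univ N β e φ D) :
    IsCoord G (fun x => (β x : ℝ)) (fun x => (e (β x) : ℝ)) := by
  refine ⟨fun v => ?_, fun u v h => ?_⟩
  · exact_mod_cast L.le_e _ (L.lt v (Set.mem_univ _))
  · exact_mod_cast L.le_e_of_adj h

/-- near: same class implies short walk -/
lemma cl_near [Finite V] (L : LayoutOn G c lam Set.univ N β e φ D) {u w : V}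
    (h : (clGraph G β D).Reachable u w) :
    β w = β u ∧ D (β w) w = D (β u) u ∧
    ∃ q : (restr G {x | β u ≤ β x}).Walk u w, q.length ≤ 2 * lam := by
  classical
  obtain ⟨p, hp⟩ := h.exists_isPath
  obtain ⟨h1, q, hq⟩ := cl_walk G β D (β u) p rfl
  obtain ⟨h2, h3⟩ := h1 w p.end_mem_support
  refine ⟨h2, h3, q, hq.trans ?_⟩
  have hs : (p.support.toFinset : Set V) ⊆
      {x | x ∈ Set.univ ∧ β x = β u ∧ D (β u) x = D (β u) u} := by
    intro x hx
    simp only [List.coe_toFinset, Set.mem_ofPred_eq] at hx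
    obtain ⟨h4, h5⟩ := h1 x hx
    refine ⟨Set.mem_univ _, h4, ?_⟩
    rw [← h5, h4]
  have h4 := Set.ncard_le_ncard hs (Set.toFinite _)
  rw [Set.ncard_coe_finset, List.toFinset_card_of_nodup hp.support_nodup,
    Walk.length_support] at h4
  have h5 := L.width (β u) (D (β u) u)
  omega

/-- the set of point vertices of the coordinate of colour `α` and residue `a` -/
def inS (β : V → ℕ) (φ : ℕ → Fin c) (D : ℕ → V → ℕ) (α : Fin c) (a : ℕ) (y : V) : Prop :=
  φ (β y) = α ∧ D (β y) y % 3 = a

open Classical in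
/-- left endpoints -/
noncomputable def lB (G : SimpleGraph V) (β : V → ℕ) (φ : ℕ → Fin c) (D : ℕ → V → ℕ)
    (α : Fin c) (a m : ℕ) (g : V → ℕ) (v : V) : ℕ :=
  if inS β φ D α a v then β v * (m + 1) + g v
  else sInf {n | n = β v * (m + 1) + m ∨
    ∃ w, G.Adj v w ∧ inS β φ D α a w ∧ β w ≤ β v ∧ n = β w * (m + 1) + g w}

open Classical in
/-- right endpoints -/
noncomputable def rB (β : V → ℕ) (e : ℕ → ℕ) (φ : ℕ → Fin c) (D : ℕ → V → ℕ)
    (α : Fin c) (a m : ℕ) (g : V → ℕ) (v : V) : ℕ :=
  if inS β φ D α a v then β v * (m + 1) + g v else e (β v) * (m + 1) + m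

lemma lB_mem (G : SimpleGraph V) (β : V → ℕ) (φ : ℕ → Fin c) (D : ℕ → V → ℕ)
    (α : Fin c) (a m : ℕ) (g : V → ℕ) {v : V} (hv : ¬ inS β φ D α a v) :
    lB G β φ D α a m g v = β v * (m + 1) + m ∨
    ∃ w, G.Adj v w ∧ inS β φ D α a w ∧ β w ≤ β v ∧
      lB G β φ D α a m g v = β w * (m + 1) + g w := by
  have := Nat.sInf_mem (s := {n | n = β v * (m + 1) + m ∨
    ∃ w, G.Adj v w ∧ inS β φ D α a w ∧ β w ≤ β v ∧ n = β w * (m + 1) + g w})
    ⟨_, Or.inl rfl⟩
  rw [lB, if_neg hv]
  exact this

lemma lB_le (G : SimpleGraph V) (β : V → ℕ) (φ : ℕ → Fin c) (D : ℕ → V → ℕ)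
    (α : Fin c) (a m : ℕ) (g : V → ℕ) {v : V} (hv : ¬ inS β φ D α a v) :
    lB G β φ D α a m g v ≤ β v * (m + 1) + m := by
  rw [lB, if_neg hv]
  exact Nat.sInf_le (Or.inl rfl)

lemma lB_le' (G : SimpleGraph V) (β : V → ℕ) (φ : ℕ → Fin c) (D : ℕ → V → ℕ)
    (α : Fin c) (a m : ℕ) (g : V → ℕ) {v w : V} (hv : ¬ inS β φ D α a v)
    (h : G.Adj v w) (hw : inS β φ D α a w) (hle : β w ≤ β v) :
    lB G β φ D α a m g v ≤ β w * (m + 1) + g w := by
  rw [lB, if_neg hv]
  exact Nat.sInf_le (Or.inr ⟨w, h, hw, hle, rfl⟩)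

lemma coordB (L : LayoutOn G c lam Set.univ N β e φ D) (α : Fin c) (a m : ℕ) (g : V → ℕ)
    (hg : ∀ y, g y < m) (hgK : ∀ y y', (clGraph G β D).Adj y y' → g y = g y') :
    IsCoord G (fun x => (lB G β φ D α a m g x : ℝ)) (fun x => (rB β e φ D α a m g x : ℝ)) := by
  classical
  refine ⟨fun v => ?_, fun u v h => ?_⟩
  · norm_cast
    by_cases hv : inS β φ D α a v
    · simp [lB, rB, hv]
    · refine (lB_le G β φ D α a m g hv).trans ?_
      rw [rB, if_neg hv]
      have := L.le_e _ (L.lt v (Set.mem_univ _))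
      have := Nat.mul_le_mul_right (m + 1) this
      omega
  · norm_cast
    have hue := L.le_e_of_adj h
    by_cases hu : inS β φ D α a u <;> by_cases hv : inS β φ D α a v
    · -- both points: same part, same layer
      have hβ : β u = β v := by
        by_contra hne
        rcases Nat.lt_or_gt_of_ne hne with h1 | h1
        · exact L.color u (Set.mem_univ _) v (Set.mem_univ _) h h1 (β v) h1 le_rfl
            (L.le_e _ (L.lt v (Set.mem_univ _))) (hv.1.trans hu.1.symm)
        · exact L.color v (Set.mem_univ _) u (Set.mem_univ _) h.symm h1 (β u) h1 le_rfl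
            (L.le_e _ (L.lt u (Set.mem_univ _))) (hu.1.trans hv.1.symm)
      have hee := L.le_e _ (L.lt v (Set.mem_univ _))
      have d1 := L.lip (β v) (L.lt v (Set.mem_univ _)) u (Set.mem_univ _) v (Set.mem_univ _) h
        hβ.ge (hβ ▸ hee) le_rfl hee
      have d2 := L.lip (β v) (L.lt v (Set.mem_univ _)) v (Set.mem_univ _) u (Set.mem_univ _) h.symm
        le_rfl hee hβ.ge (hβ ▸ hee)
      have hu2 := hu.2
      have hv2 := hv.2
      rw [hβ] at hu2
      have hD : D (β v) u = D (β v) v := by omega
      have hK : (clGraph G β D).Adj u v := ⟨h.ne, hβ, by rw [hβ]; exact hD, Or.inl h⟩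
      rw [lB, rB, if_pos hu, if_pos hv, hgK u v hK, hβ]
    · rw [lB, rB, if_pos hu, if_neg hv]
      have := Nat.mul_le_mul_right (m + 1) hue
      have := hg u
      omega
    · rcases le_or_gt (β v) (β u) with h1 | h1
      · rw [rB, if_pos hv]
        exact lB_le' G β φ D α a m g hu h hv h1
      · rw [rB, if_pos hv]
        refine (lB_le G β φ D α a m g hu).trans ?_
        have := Nat.mul_le_mul_right (m + 1) (Nat.succ_le_of_lt h1)
        rw [Nat.succ_mul] at this
        omega
    · refine (lB_le G β φ D α a m g hu).trans ?_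
      rw [rB, if_neg hv]
      have := Nat.mul_le_mul_right (m + 1) hue
      omega

/-- separation by a `B`-coordinate -/
lemma sepB (L : LayoutOn G c lam Set.univ N β e φ D) (α : Fin c) (a m : ℕ) (g : V → ℕ)
    (hg : ∀ y, g y < m) {u v : V} (hu : inS β φ D α a u) (hv : ¬ inS β φ D α a v)
    (h1 : β u ≤ β v) (h2 : β v ≤ e (β u))
    (h3 : ∀ w, G.Adj v w → inS β φ D α a w → β w = β u → g u < g w) :
    rB β e φ D α a m g u < lB G β φ D α a m g v := by
  rw [rB, if_pos hu]
  have hgu := hg u
  rcases lB_mem G β φ D α a m g hv with h | ⟨w, hw1, hw2, hw3, h⟩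
  · rw [h]
    have := Nat.mul_le_mul_right (m + 1) h1
    omega
  · rw [h]
    rcases lt_trichotomy (β w) (β u) with h4 | h4 | h4
    · exfalso
      have := L.color w (Set.mem_univ _) v (Set.mem_univ _) hw1.symm (by omega) (β u) h4 h1 h2
      exact this (hu.1.trans hw2.1.symm)
    · have := h3 w hw1 hw2 h4
      rw [h4]
      omega
    · have := Nat.mul_le_mul_right (m + 1) (Nat.succ_le_of_lt h4)
      rw [Nat.succ_mul] at this
      omega

lemma exists_class [Finite V] (K : SimpleGraph V) :
    ∃ (m : ℕ) (g : V → ℕ), (∀ y, g y < m) ∧ ∀ y y', g y = g y' ↔ K.Reachable y y' := by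
  classical
  have : Fintype V := Fintype.ofFinite V
  obtain ⟨n, ⟨f⟩⟩ := Finite.exists_equiv_fin K.ConnectedComponent
  refine ⟨n, fun y => (f (K.connectedComponentMk y)).1, fun y => (f _).2, fun y y' => ?_⟩
  rw [← Fin.ext_iff, f.apply_eq_iff_eq, ConnectedComponent.eq]

theorem far_coords [Finite V] (L : LayoutOn G c lam Set.univ N β e φ D) :
    ∃ l r : Option (Fin c × Fin 3 × Bool) → V → ℝ, (∀ i, IsCoord G (l i) (r i)) ∧
      ∀ u v, u ≠ v → ¬ G.Adj u v → (∃ i, Sep (l i) (r i) u v) ∨
        ∃ p : (restr G {x | min (β u) (β v) ≤ β x}).Walk u v, p.length ≤ 2 * lam + 1 := by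
  classical
  obtain ⟨m, g, hgm, hgK⟩ := exists_class (clGraph G β D)
  have hgm' : ∀ y, (m - 1 - g y) < m := by intro y; have := hgm y; omega
  have hadj : ∀ y y', (clGraph G β D).Adj y y' → g y = g y' := fun y y' h =>
    (hgK y y').2 h.reachable
  set gg : Bool → V → ℕ := fun s => if s then g else fun y => m - 1 - g y with hgg
  have hggm : ∀ s y, gg s y < m := by
    intro s y; cases s
    · simpa [hgg] using hgm' y
    · simpa [hgg] using hgm y
  have hggK : ∀ s y y', (clGraph G β D).Adj y y' → gg s y = gg s y' := by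
    intro s y y' h
    have := hadj y y' h
    cases s <;> simp [hgg, this]
  refine ⟨fun o => match o with
    | none => fun x => (β x : ℝ)
    | some (α, a, s) => fun x => (lB G β φ D α a m (gg s) x : ℝ),
    fun o => match o with
    | none => fun x => (e (β x) : ℝ)
    | some (α, a, s) => fun x => (rB β e φ D α a m (gg s) x : ℝ), ?_, ?_⟩
  · rintro (_ | ⟨α, a, s⟩)
    · exact coordA L
    · exact coordB L α a m (gg s) (hggm s) (hggK s)
  · -- main case: β u ≤ β v
    have main : ∀ u v, u ≠ v → ¬ G.Adj u v → β u ≤ β v →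
        (e (β u) < β v) ∨ (∃ (α : Fin c) (a : Fin 3) (s : Bool),
          rB β e φ D α a m (gg s) u < lB G β φ D α a m (gg s) v ∨
          rB β e φ D α a m (gg s) v < lB G β φ D α a m (gg s) u) ∨
        ∃ p : (restr G {x | β u ≤ β x}).Walk u v, p.length ≤ 2 * lam + 1 := by
      intro u v huv hn hle
      rcases Nat.lt_or_ge (e (β u)) (β v) with h1 | h1
      · exact Or.inl h1
      right
      set α := φ (β u) with hα
      set a : Fin 3 := ⟨D (β u) u % 3, Nat.mod_lt _ (by norm_num)⟩ with ha
      have huS : inS β φ D α a u := ⟨rfl, rfl⟩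
      by_cases hvS : inS β φ D α a v
      · rcases hle.lt_or_eq with h2 | h2
        · left
          refine ⟨α, a, true, Or.inl ?_⟩
          rw [rB, lB, if_pos huS, if_pos hvS]
          have := Nat.mul_le_mul_right (m + 1) (Nat.succ_le_of_lt h2)
          rw [Nat.succ_mul] at this
          have := hggm true u
          omega
        · by_cases hr : g u = g v
          · right
            obtain ⟨-, -, q, hq⟩ := cl_near L ((hgK u v).1 hr)
            exact ⟨q, by omega⟩
          · left
            refine ⟨α, a, true, ?_⟩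
            rw [rB, lB, if_pos huS, if_pos hvS, rB, lB, if_pos huS, if_pos hvS, h2]
            have : gg true = g := by simp [hgg]
            rw [this]
            omega
      · by_cases hex : ∃ w, G.Adj v w ∧ inS β φ D α a w ∧ β w = β u
        · obtain ⟨w, hw1, hw2, hw3⟩ := hex
          -- all such w have the same class
          have hsame : ∀ w', G.Adj v w' → inS β φ D α a w' → β w' = β u → g w' = g w := by
            intro w' hw1' hw2' hw3'
            by_cases hww : w' = w
            · rw [hww]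
            apply hadj
            have huN := L.lt u (Set.mem_univ _)
            have hue := L.le_e _ huN
            have d1 := L.lip (β u) huN v (Set.mem_univ _) w' (Set.mem_univ _) hw1' hle h1
              hw3'.ge (hw3'.symm ▸ hue)
            have d2 := L.lip (β u) huN w' (Set.mem_univ _) v (Set.mem_univ _) hw1'.symm
              hw3'.ge (hw3'.symm ▸ hue) hle h1
            have d3 := L.lip (β u) huN v (Set.mem_univ _) w (Set.mem_univ _) hw1 hle h1
              hw3.ge (hw3.symm ▸ hue)
            have d4 := L.lip (β u) huN w (Set.mem_univ _) v (Set.mem_univ _) hw1.symm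
              hw3.ge (hw3.symm ▸ hue) hle h1
            have m1 := hw2'.2
            have m2 := hw2.2
            rw [hw3'] at m1
            rw [hw3] at m2
            refine ⟨hww, by omega, ?_, Or.inr ⟨v, by omega, hw1'.symm, hw1⟩⟩
            rw [hw3', hw3]
            omega
          rcases lt_trichotomy (g u) (g w) with h4 | h4 | h4
          · left
            refine ⟨α, a, true, Or.inl (sepB L α a m (gg true) (hggm true) huS hvS hle h1 ?_)⟩
            intro w' hw1' hw2' hw3'
            have := hsame w' hw1' hw2' hw3'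
            simp only [hgg, if_true]
            omega
          · right
            obtain ⟨-, -, q, hq⟩ := cl_near L ((hgK u w).1 h4)
            have hadj' : (restr G {x | β u ≤ β x}).Adj w v :=
              ⟨hw1.symm, by simp [hw3], by simpa using hle⟩
            refine ⟨q.append (Walk.cons hadj' Walk.nil), ?_⟩
            rw [Walk.length_append]
            simp
            omega
          · left
            refine ⟨α, a, false, Or.inl (sepB L α a m (gg false) (hggm false) huS hvS hle h1 ?_)⟩
            intro w' hw1' hw2' hw3'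
            have := hsame w' hw1' hw2' hw3'
            have := hgm u
            simp only [hgg, Bool.false_eq_true, if_false]
            omega
        · left
          refine ⟨α, a, true, Or.inl (sepB L α a m (gg true) (hggm true) huS hvS hle h1 ?_)⟩
          intro w hw1 hw2 hw3
          exact absurd ⟨w, hw1, hw2, hw3⟩ hex
    intro u v huv hn
    rcases le_total (β u) (β v) with hle | hle
    · rcases main u v huv hn hle with h | ⟨α, a, s, h⟩ | ⟨p, hp⟩
      · left
        refine ⟨none, Or.inl ?_⟩
        show (e (β u) : ℝ) < (β v : ℝ)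
        exact_mod_cast h
      · left
        refine ⟨some (α, a, s), ?_⟩
        rcases h with h | h
        · left
          show (rB β e φ D α a m (gg s) u : ℝ) < (lB G β φ D α a m (gg s) v : ℝ)
          exact_mod_cast h
        · right
          show (rB β e φ D α a m (gg s) v : ℝ) < (lB G β φ D α a m (gg s) u : ℝ)
          exact_mod_cast h
      · right
        rw [min_eq_left hle]
        exact ⟨p, hp⟩
    · rcases main v u huv.symm (fun h => hn h.symm) hle with h | ⟨α, a, s, h⟩ | ⟨p, hp⟩
      · left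
        refine ⟨none, Or.inr ?_⟩
        show (e (β v) : ℝ) < (β u : ℝ)
        exact_mod_cast h
      · left
        refine ⟨some (α, a, s), ?_⟩
        rcases h with h | h
        · right
          show (rB β e φ D α a m (gg s) v : ℝ) < (lB G β φ D α a m (gg s) u : ℝ)
          exact_mod_cast h
        · left
          show (rB β e φ D α a m (gg s) u : ℝ) < (lB G β φ D α a m (gg s) v : ℝ)
          exact_mod_cast h
      · right
        rw [min_eq_right hle]
        exact ⟨p.reverse, by rw [Walk.length_reverse]; exact hp⟩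

end Pool.Agent.BoxMinor
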