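import Mathlib
import Pool.Agent.BoxMinor.Closure

set_option autoImplicit false

namespace Pool.Agent.BoxMinor
open SimpleGraph

/-- composition of minor models -/
theorem HasCliqueMinor.of_model {V W : Type*} {G : SimpleGraph V} {H : SimpleGraph W}
    (B : W → Set V) (hc : ∀ w, (G.induce (B w)).Connected)
    (hd : ∀ w w', w ≠ w' → Disjoint (B w) (B w'))
    (ha : ∀ w w', H.Adj w w' → AdjSets G (B w) (B w')) {t : ℕ} (h : HasCliqueMinor H t) :
    HasCliqueMinor G t := by
  obtain ⟨C, hCc, hCd, hCa⟩ := h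
  have hB : ∀ w, (B w).Nonempty ∧ ∀ x ∈ B w, ∀ y ∈ B w, (restr G (B w)).Reachable x y :=
    fun w => (induce_connected_iff G _).1 (hc w)
  have hC : ∀ i, (C i).Nonempty ∧ ∀ x ∈ C i, ∀ y ∈ C i, (restr H (C i)).Reachable x y :=
    fun i => (induce_connected_iff H _).1 (hCc i)
  refine ⟨fun i => ⋃ w ∈ C i, B w, fun i => ?_, fun i j hij => ?_, fun i j hij => ?_⟩
  · rw [induce_connected_iff]
    constructor
    · obtain ⟨w, hw⟩ := (hC i).1
      obtain ⟨x, hx⟩ := (hB w).1
      exact ⟨x, Set.mem_biUnion hw hx⟩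
    · have hsub : ∀ w ∈ C i, B w ⊆ ⋃ w ∈ C i, B w := fun w hw => Set.subset_biUnion_of_mem hw
      have key : ∀ {w w' : W} (p : (restr H (C i)).Walk w w'), w ∈ C i → ∀ x ∈ B w, ∀ y ∈ B w',
          (restr G (⋃ w ∈ C i, B w)).Reachable x y := by
        intro w w' p
        induction p with
        | nil =>
          intro hw x hx y hy
          exact ((hB _).2 x hx y hy).mono (restr_mono G (hsub _ hw))
        | @cons a b c' h p ih =>
          intro hw x hx y hy
          obtain ⟨x', hx', y', hy', hxy⟩ := ha a b h.1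
          have h1 := ((hB _).2 x hx x' hx').mono (restr_mono G (hsub _ hw))
          have h2 : (restr G (⋃ w ∈ C i, B w)).Adj x' y' :=
            ⟨hxy, hsub a hw hx', hsub b h.2.2 hy'⟩
          exact h1.trans (h2.reachable.trans (ih h.2.2 y' hy' y hy))
      intro x hx y hy
      rw [Set.mem_iUnion₂] at hx hy
      obtain ⟨w, hw, hx⟩ := hx
      obtain ⟨w', hw', hy⟩ := hy
      obtain ⟨p⟩ := (hC i).2 w hw w' hw'
      exact key p hw x hx y hy
  · rw [Set.disjoint_left]
    intro x hx hy
    rw [Set.mem_iUnion₂] at hx hy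
    obtain ⟨w, hw, hx⟩ := hx
    obtain ⟨w', hw', hy⟩ := hy
    have hne : w ≠ w' := by
      rintro rfl
      exact Set.disjoint_left.1 (hCd i j hij) hw hw'
    exact Set.disjoint_left.1 (hd w w' hne) hx hy
  · obtain ⟨w, hw, w', hw', h⟩ := hCa i j hij
    obtain ⟨x, hx, y, hy, hxy⟩ := ha w w' h
    exact ⟨x, Set.mem_biUnion hw hx, y, Set.mem_biUnion hw' hy, hxy⟩

/-- graphs without a clique minor of order `t` have at most `d` edges per vertex -/
def Sparse (t d : ℕ) : Prop := ∀ (W : Type) [Fintype W] (H : SimpleGraph W),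
  ¬ HasCliqueMinor H t → pairsIn H Finset.univ ≤ 2 * d * Fintype.card W

lemma pairsIn_induce {V : Type*} (R : SimpleGraph V) (S : Finset V) :
    pairsIn R S = pairsIn (R.induce (S : Set V)) (Finset.univ) := by
  classical
  unfold pairsIn
  symm
  apply Finset.card_bij (fun (p : ↥(S : Set V) × ↥(S : Set V)) _ => ((p.1 : V), (p.2 : V)))
  · rintro ⟨x, y⟩ h
    simp only [Finset.mem_filter, Finset.mem_product, Finset.mem_univ, true_and, and_true] at h ⊢
    exact ⟨⟨x.2, y.2⟩, h⟩
  · rintro ⟨x, y⟩ _ ⟨x', y'⟩ _ h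
    simp only [Prod.mk.injEq] at h
    exact Prod.ext (Subtype.ext h.1) (Subtype.ext h.2)
  · rintro ⟨x, y⟩ h
    simp only [Finset.mem_filter, Finset.mem_product] at h
    refine ⟨(⟨x, h.1.1⟩, ⟨y, h.1.2⟩), ?_, rfl⟩
    simp only [Finset.mem_filter, Finset.mem_product, Finset.mem_univ, true_and]
    exact h.2

/-- sparsity of graphs modelled inside `G` -/
lemma Sparse.pairsIn_le {t d : ℕ} (hsp : Sparse t d) {V : Type} {G R : SimpleGraph V}
    (hG : ¬ HasCliqueMinor G t) (S : Finset V) (B : V → Set V)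
    (hc : ∀ w ∈ S, (G.induce (B w)).Connected)
    (hd : ∀ w ∈ S, ∀ w' ∈ S, w ≠ w' → Disjoint (B w) (B w'))
    (ha : ∀ w ∈ S, ∀ w' ∈ S, R.Adj w w' → AdjSets G (B w) (B w')) :
    pairsIn R S ≤ 2 * d * S.card := by
  classical
  rw [pairsIn_induce]
  have h := hsp (S : Set V) (R.induce (S : Set V)) (fun hm => hG (HasCliqueMinor.of_model
    (fun w : (S : Set V) => B w) (fun w => hc w w.2)
    (fun w w' h => hd w w.2 w' w'.2 (fun h' => h (Subtype.ext h')))
    (fun w w' h => ha w w.2 w' w'.2 h) hm))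
  convert h using 2
  simp

lemma Sparse.pairsIn_self {t d : ℕ} (hsp : Sparse t d) {V : Type} {G : SimpleGraph V}
    (hG : ¬ HasCliqueMinor G t) (S : Finset V) : pairsIn G S ≤ 2 * d * S.card := by
  refine hsp.pairsIn_le hG S (fun w => {w}) (fun w _ => ?_) (fun w _ w' _ h => ?_)
    (fun w _ w' _ h => ⟨w, rfl, w', rfl, h⟩)
  · rw [induce_connected_iff]
    refine ⟨⟨w, rfl⟩, ?_⟩
    rintro x rfl y rfl
    exact Reachable.refl _
  · simpa using h

open Classical in
theorem few_types {V : Type} [Fintype V] (G : SimpleGraph V) {t d : ℕ} (hsp : Sparse t d)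
    (hG : ¬ HasCliqueMinor G t) (W VV : Finset V) (hdisj : Disjoint W VV) (Δ : ℕ)
    (hΔ : ∀ v ∈ VV, degIn G W v ≤ Δ) (h2d : 2 * d + 1 ≤ Δ) :
    ∃ F : Finset (Finset V), F.card ≤ W.card ^ 4 + W.card + 1 ∧ (∀ A ∈ F, A ⊆ W ∧ A.card ≤ Δ) ∧
      ∀ v ∈ VV, ∃ A ∈ F, W.filter (fun w => G.Adj v w) ⊆ A := by
  -- common neighbours
  set cn : V → V → Finset V := fun w w' => VV.filter (fun v => G.Adj v w ∧ G.Adj v w') with hcn
  have cn_comm : ∀ w w', cn w w' = cn w' w := by
    intro w w'; simp only [hcn]; congr 1; ext v; exact and_comm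
  set R : SimpleGraph V :=
    { Adj := fun w w' => w ≠ w' ∧ w ∈ W ∧ w' ∈ W ∧ W.card ^ 2 ≤ (cn w w').card
      symm := ⟨fun w w' h => ⟨h.1.symm, h.2.2.1, h.2.1, by rw [cn_comm]; exact h.2.2.2⟩⟩
      loopless := ⟨fun w h => h.1 rfl⟩ } with hR
  have hRadj : ∀ w w', R.Adj w w' ↔ w ≠ w' ∧ w ∈ W ∧ w' ∈ W ∧ W.card ^ 2 ≤ (cn w w').card :=
    fun w w' => Iff.rfl
  -- injective choice of connectors
  obtain ⟨z, hzinj, hz⟩ : ∃ z : {p : V × V // R.Adj p.1 p.2} → V, Function.Injective z ∧
      ∀ p, z p ∈ cn p.1.1 p.1.2 := by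
    rw [← Finset.all_card_le_biUnion_card_iff_exists_injective
      (fun p : {p : V × V // R.Adj p.1 p.2} => cn p.1.1 p.1.2)]
    intro s
    rcases s.eq_empty_or_nonempty with rfl | ⟨p, hp⟩
    · simp
    · have h1 : s.card ≤ W.card ^ 2 := by
        have : s.card ≤ (W ×ˢ W).card := by
          apply Finset.card_le_card_of_injOn (fun p => p.1)
          · intro p _
            rw [Finset.mem_coe, Finset.mem_product]
            exact ⟨p.2.2.1, p.2.2.2.1⟩
          · intro p _ q _ h
            exact Subtype.ext h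
        rwa [Finset.card_product, ← sq] at this
      have h2 : (cn p.1.1 p.1.2).card ≤
          (s.biUnion fun p : {p : V × V // R.Adj p.1 p.2} => cn p.1.1 p.1.2).card :=
        Finset.card_le_card (Finset.subset_biUnion_of_mem
          (fun p : {p : V × V // R.Adj p.1 p.2} => cn p.1.1 p.1.2) hp)
      exact h1.trans (p.2.2.2.2.trans h2)
  have hzV : ∀ p, z p ∈ VV := fun p => (Finset.mem_filter.1 (hz p)).1
  have hza : ∀ p, G.Adj (z p) p.1.1 ∧ G.Adj (z p) p.1.2 := fun p => (Finset.mem_filter.1 (hz p)).2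
  -- branch sets
  set B : V → Set V := fun w => {x | x = w ∨ ∃ p : {p : V × V // R.Adj p.1 p.2}, p.1.1 = w ∧ x = z p}
    with hB
  have hsparse : ∀ S ⊆ W, pairsIn R S ≤ 2 * d * S.card := by
    intro S hS
    refine hsp.pairsIn_le hG S B (fun w hw => ?_) (fun w hw w' hw' hne => ?_)
      (fun w hw w' hw' h => ?_)
    · rw [induce_connected_iff]
      refine ⟨⟨w, Or.inl rfl⟩, ?_⟩
      have h0 : ∀ x ∈ B w, (restr G (B w)).Reachable x w := by
        rintro x (rfl | ⟨p, hp, rfl⟩)
        · exact Reachable.refl _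
        · have : (restr G (B w)).Adj (z p) w :=
            ⟨hp ▸ (hza p).1, Or.inr ⟨p, hp, rfl⟩, Or.inl rfl⟩
          exact this.reachable
      intro x hx y hy
      exact (h0 x hx).trans (h0 y hy).symm
    · rw [Set.disjoint_left]
      rintro x (rfl | ⟨p, hp, rfl⟩) (h | ⟨q, hq, h⟩)
      · exact hne h
      · subst h
        exact Finset.disjoint_left.1 hdisj (hS hw) (hzV q)
      · rw [← h] at hw'
        exact Finset.disjoint_left.1 hdisj (hS hw') (hzV p)
      · have := hzinj h
        subst this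
        exact hne (hp.symm.trans hq)
    · refine ⟨z ⟨(w, w'), h⟩, Or.inr ⟨⟨(w, w'), h⟩, rfl, rfl⟩, w', Or.inl rfl, ?_⟩
      exact (hza ⟨(w, w'), h⟩).2
  -- degeneracy order of R
  obtain ⟨posR, hinj, -, -, hback⟩ := exists_pos R (fun _ => 0) (2 * d) (by
    intro S hS
    by_cases hne : (S ∩ W).Nonempty
    · obtain ⟨x, hx, hdeg⟩ := exists_small_degree hne (hsparse (S ∩ W) Finset.inter_subset_right)
      rw [Finset.mem_inter] at hx
      refine ⟨x, hx.1, fun _ _ => le_rfl, le_trans (degIn_le_of R R x ?_) hdeg⟩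
      intro y hy h
      exact ⟨Finset.mem_inter.2 ⟨hy, h.2.2.1⟩, h⟩
    · obtain ⟨x, hx⟩ := hS
      refine ⟨x, hx, fun _ _ => le_rfl, ?_⟩
      have : degIn R S x ≤ degIn R (∅ : Finset V) x := by
        apply degIn_le_of
        intro y hy h
        exact absurd ⟨y, Finset.mem_inter.2 ⟨hy, h.2.2.1⟩⟩ hne
      have h0 : degIn R (∅ : Finset V) x = 0 := by simp [degIn]
      omega) _ Finset.univ rfl
  -- poor vertices
  set PP := (W ×ˢ W).filter (fun p => p.1 ≠ p.2 ∧ ¬ R.Adj p.1 p.2) with hPP
  set Poor := PP.biUnion (fun p => cn p.1 p.2) with hPoor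
  have hPoorc : Poor.card ≤ W.card ^ 4 := by
    have h1 : Poor.card ≤ PP.card * W.card ^ 2 := by
      apply Finset.card_biUnion_le_card_mul
      intro p hp
      simp only [hPP, Finset.mem_filter, Finset.mem_product] at hp
      by_contra hcon
      push Not at hcon
      exact hp.2.2 ⟨hp.2.1, hp.1.1, hp.1.2, hcon.le⟩
    have h2 : PP.card ≤ W.card ^ 2 := by
      refine (Finset.card_filter_le _ _).trans ?_
      rw [Finset.card_product, ← sq]
    calc Poor.card ≤ PP.card * W.card ^ 2 := h1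
      _ ≤ W.card ^ 2 * W.card ^ 2 := Nat.mul_le_mul_right _ h2
      _ = W.card ^ 4 := by ring
  set F1 : Finset (Finset V) := Poor.image (fun v => W.filter (fun w => G.Adj v w)) with hF1
  set F2 : Finset (Finset V) := W.image (fun x => insert x
    ((W.filter (fun y => posR y < posR x)).filter (fun y => R.Adj x y))) with hF2
  refine ⟨F1 ∪ F2 ∪ {∅}, ?_, ?_, ?_⟩
  · refine (Finset.card_union_le _ _).trans ?_
    rw [Finset.card_singleton]
    have h1 : F1.card ≤ W.card ^ 4 := Finset.card_image_le.trans hPoorc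
    have h2 : F2.card ≤ W.card := Finset.card_image_le
    have := Finset.card_union_le F1 F2
    omega
  · intro A hA
    rw [Finset.mem_union, Finset.mem_union] at hA
    rcases hA with (hA | hA) | hA
    · rw [hF1, Finset.mem_image] at hA
      obtain ⟨v, hv, rfl⟩ := hA
      refine ⟨Finset.filter_subset _ _, hΔ v ?_⟩
      rw [hPoor, Finset.mem_biUnion] at hv
      obtain ⟨p, _, hp⟩ := hv
      exact (Finset.mem_filter.1 hp).1
    · rw [hF2, Finset.mem_image] at hA
      obtain ⟨x, hx, rfl⟩ := hA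
      constructor
      · intro y hy
        rw [Finset.mem_insert, Finset.mem_filter, Finset.mem_filter] at hy
        rcases hy with rfl | hy
        · exact hx
        · exact hy.1.1
      · refine (Finset.card_insert_le _ _).trans ?_
        have h1 := hback x (Finset.mem_univ _)
        have h2 : ((W.filter (fun y => posR y < posR x)).filter (fun y => R.Adj x y)).card ≤
            degIn R (Finset.univ.filter (fun y => posR y < posR x)) x := by
          rw [← degIn_eq_card_filter]
          exact degIn_mono R (Finset.filter_subset_filter _ (Finset.subset_univ _)) x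
        omega
    · rw [Finset.mem_singleton] at hA
      subst hA
      simp
  · intro v hv
    by_cases hpoor : ∃ w ∈ W, ∃ w' ∈ W, w ≠ w' ∧ G.Adj v w ∧ G.Adj v w' ∧ ¬ R.Adj w w'
    · obtain ⟨w, hw, w', hw', hne, h1, h2, h3⟩ := hpoor
      refine ⟨W.filter (fun w => G.Adj v w), ?_, subset_rfl⟩
      rw [Finset.mem_union, Finset.mem_union]
      left; left
      rw [hF1, Finset.mem_image]
      refine ⟨v, ?_, rfl⟩
      rw [hPoor, Finset.mem_biUnion]
      exact ⟨(w, w'), by simp [hPP, hw, hw', hne, h3], by simp [hcn, hv, h1, h2]⟩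
    · push Not at hpoor
      rcases (W.filter (fun w => G.Adj v w)).eq_empty_or_nonempty with h0 | h0
      · exact ⟨∅, by simp, by rw [h0]⟩
      · obtain ⟨x, hx, hmax⟩ := Finset.exists_max_image _ posR h0
        rw [Finset.mem_filter] at hx
        refine ⟨insert x ((W.filter (fun y => posR y < posR x)).filter (fun y => R.Adj x y)),
          ?_, ?_⟩
        · rw [Finset.mem_union, Finset.mem_union]
          left; right
          rw [hF2, Finset.mem_image]
          exact ⟨x, hx.1, rfl⟩
        · intro y hy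
          have hy2 := Finset.mem_filter.1 hy
          rw [Finset.mem_insert]
          by_cases hyx : y = x
          · exact Or.inl hyx
          · right
            rw [Finset.mem_filter, Finset.mem_filter]
            refine ⟨⟨hy2.1, ?_⟩, hpoor x hx.1 y hy2.1 (Ne.symm hyx) hx.2 hy2.2⟩
            have h1 := hmax y hy
            rcases h1.lt_or_eq with h | h
            · exact h
            · exact absurd (hinj (by simp) (by simp) h) hyx

end Pool.Agent.BoxMinor
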