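import Mathlib
import Pool.Agent.BoxMinor.Defs

set_option autoImplicit false

namespace Pool.Agent.BoxMinor.KT

open Finset
open scoped Classical

/-! ### Part A: connected supersets of bounded size -/

lemma dist_small {W : Type*} [Fintype W] (H : SimpleGraph W) (hc : H.Connected) (δ : ℕ)
    (hδ : ∀ v, δ ≤ (univ.filter (fun u => H.Adj v u)).card) (hcard : Fintype.card W < 4 * (δ + 1))
    (x y : W) : H.dist x y ≤ 8 := by
  by_contra hcon
  push Not at hcon
  obtain ⟨p, hp⟩ := hc.exists_walk_length_eq_dist x y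
  have hv : ∀ k, k ≤ 9 → H.dist x (p.getVert k) = k := by
    intro k hk
    have h1 : H.dist x (p.getVert k) ≤ k := by
      refine (SimpleGraph.dist_le (p.take k)).trans ?_
      rw [SimpleGraph.Walk.take_length]
      exact min_le_left _ _
    have h2 : H.dist (p.getVert k) y ≤ p.length - k := by
      refine (SimpleGraph.dist_le (p.drop k)).trans ?_
      rw [SimpleGraph.Walk.drop_length]
    have h3 := hc.dist_triangle (u := x) (v := p.getVert k) (w := y)
    omega
  set S : ℕ → Finset W := fun a =>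
    insert (p.getVert (3 * a)) (univ.filter (fun u => H.Adj (p.getVert (3 * a)) u)) with hS
  have hSd : ∀ a, a < 4 → ∀ z ∈ S a, 3 * a ≤ H.dist x z + 1 ∧ H.dist x z ≤ 3 * a + 1 := by
    intro a ha z hz
    have h0 := hv (3 * a) (by omega)
    rw [hS] at hz
    simp only [mem_insert, mem_filter, mem_univ, true_and] at hz
    rcases hz with rfl | hz
    · omega
    · have h1 : H.dist (p.getVert (3 * a)) z = 1 := SimpleGraph.dist_eq_one_iff_adj.mpr hz
      have h2 := hc.dist_triangle (u := x) (v := p.getVert (3 * a)) (w := z)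
      have h3 := hc.dist_triangle (u := x) (v := z) (w := p.getVert (3 * a))
      rw [SimpleGraph.dist_comm (u := z)] at h3
      omega
  have hScard : ∀ a, δ + 1 ≤ (S a).card := by
    intro a
    rw [hS]
    simp only
    rw [card_insert_of_notMem (by simp)]
    have := hδ (p.getVert (3 * a))
    omega
  have hdisj : ∀ a ∈ range 4, ∀ b ∈ range 4, a ≠ b → Disjoint (S a) (S b) := by
    intro a ha b hb hab
    rw [mem_range] at ha hb
    rw [disjoint_left]
    intro z hza hzb
    have h1 := hSd a ha z hza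
    have h2 := hSd b hb z hzb
    omega
  have hun := card_biUnion hdisj
  have h1 : ((range 4).biUnion S).card ≤ Fintype.card W := card_le_univ _
  have h2 : ∑ a ∈ range 4, (δ + 1) ≤ ∑ a ∈ range 4, (S a).card := sum_le_sum fun a _ => hScard a
  simp only [sum_const, card_range, smul_eq_mul] at h2
  omega

lemma walk_lift {V : Type*} (G : SimpleGraph V) (U : Set V) {a b : U}
    (p : (G.induce U).Walk a b) :
    ∃ q : G.Walk a.1 b.1, q.length = p.length ∧ ∀ z ∈ q.support, z ∈ U := by
  induction p with
  | nil => exact ⟨SimpleGraph.Walk.nil, rfl, by simp⟩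
  | @cons u v w h p ih =>
    obtain ⟨q, hq1, hq2⟩ := ih
    have h' : G.Adj u.1 v.1 := by simpa using h
    refine ⟨SimpleGraph.Walk.cons h' q, by simp [hq1], ?_⟩
    intro z hz
    rw [SimpleGraph.Walk.support_cons, List.mem_cons] at hz
    rcases hz with rfl | hz
    · exact u.2
    · exact hq2 z hz

lemma conn_superset {V : Type*} [Fintype V] [DecidableEq V] (G : SimpleGraph V) (U : Finset V)
    (hU : (G.induce (U : Set V)).Preconnected) (δ : ℕ)
    (hδ : ∀ u ∈ U, δ ≤ (U.filter (fun v => G.Adj u v)).card) (hcard : U.card < 4 * (δ + 1))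
    (B : Finset V) (hB : B.Nonempty) (hBU : B ⊆ U) :
    ∃ P : Finset V, B ⊆ P ∧ P ⊆ U ∧ (G.induce (P : Set V)).Connected ∧ P.card ≤ 9 * B.card := by
  obtain ⟨x0, hx0⟩ := hB
  have hx0U := hBU hx0
  have hne : Nonempty (U : Set V) := ⟨⟨x0, hx0U⟩⟩
  have hc : (G.induce (U : Set V)).Connected := ⟨hU⟩
  have hdeg : ∀ v : (U : Set V), δ ≤ (univ.filter (fun u => (G.induce (U : Set V)).Adj v u)).card := by
    intro v
    refine (hδ v.1 v.2).trans ?_
    have : U.filter (fun z => G.Adj v.1 z) ⊆
        (univ.filter (fun u => (G.induce (U : Set V)).Adj v u)).image Subtype.val := by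
      intro z hz
      rw [mem_filter] at hz
      rw [mem_image]
      exact ⟨⟨z, hz.1⟩, by simpa using hz.2, rfl⟩
    exact (card_le_card this).trans card_image_le
  have hcard' : Fintype.card (U : Set V) < 4 * (δ + 1) := by
    simpa using hcard
  have hpath : ∀ y ∈ B, ∃ P : Finset V, x0 ∈ P ∧ y ∈ P ∧ P ⊆ U ∧ (G.induce (P : Set V)).Connected ∧
      P.card ≤ 9 := by
    intro y hy
    have hyU := hBU hy
    obtain ⟨p, hp⟩ := hc.exists_walk_length_eq_dist ⟨x0, hx0U⟩ ⟨y, hyU⟩
    have hlen : p.length ≤ 8 := by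
      rw [hp]; exact dist_small _ hc δ hdeg hcard' _ _
    obtain ⟨q, hq1, hq2⟩ := walk_lift G (U : Set V) p
    have hcoe : (q.support.toFinset : Set V) = {v | v ∈ q.support} := by
      ext z; simp
    refine ⟨q.support.toFinset, ?_, ?_, ?_, ?_, ?_⟩
    · simp
    · simp
    · intro z hz
      rw [List.mem_toFinset] at hz
      exact hq2 z hz
    · rw [hcoe]
      exact q.connected_induce_support
    · refine (List.toFinset_card_le _).trans ?_
      rw [SimpleGraph.Walk.length_support, hq1]
      omega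
  choose! P hP using hpath
  refine ⟨B.biUnion P, ?_, ?_, ?_, ?_⟩
  · intro y hy
    rw [mem_biUnion]
    exact ⟨y, hy, (hP y hy).2.1⟩
  · intro z hz
    rw [mem_biUnion] at hz
    obtain ⟨y, hy, hz⟩ := hz
    exact (hP y hy).2.2.1 hz
  · apply SimpleGraph.induce_connected_of_patches x0
    · simp only [coe_biUnion, Set.mem_iUnion]
      exact ⟨x0, hx0, (hP x0 hx0).1⟩
    · intro v hv
      simp only [coe_biUnion, Set.mem_iUnion] at hv
      obtain ⟨y, hy, hv⟩ := hv
      refine ⟨(P y : Set V), ?_, (hP y hy).1, hv, (hP y hy).2.2.2.1.preconnected _ _⟩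
      intro z hz
      simp only [coe_biUnion, Set.mem_iUnion]
      exact ⟨y, hy, hz⟩
  · refine card_biUnion_le.trans ?_
    refine (sum_le_sum fun y hy => (hP y hy).2.2.2.2).trans ?_
    simp [mul_comm]

end Pool.Agent.BoxMinor.KT
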