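import Mathlib
import Pool.Agent.BoxMinor.Defs

set_option autoImplicit false

namespace Pool.Agent.BoxMinor.KT

open Finset
open scoped Classical

/-! ### Part B: a random small set dominates almost everything and meets prescribed sets -/

lemma exists_good {V : Type*} [Fintype V] [DecidableEq V] (G : SimpleGraph V) (A U : Finset V)
    (b t i : ℕ) (hi : i < t)
    (hU1 : ∀ v ∈ A, U.card ≤ 4 * (U.filter (fun u => G.Adj v u)).card)
    (hU2 : 2 * A.card ≤ 3 * U.card) (hUpos : 0 < U.card)
    (hApos : 0 < A.card)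
    (hnum : 2 * (t : ℝ) * (3 * (3 / 4 : ℝ) ^ b) ^ b < 1)
    (S : ℕ → Finset V) (hS : ∀ j < i, ((S j).card : ℝ) ≤ 2 * (3 / 4 : ℝ) ^ b * A.card) :
    ∃ f : Fin b → V, (∀ k, f k ∈ U) ∧
      ((A.filter (fun v => ∀ k, ¬ G.Adj v (f k))).card : ℝ) ≤ 2 * (3 / 4 : ℝ) ^ b * A.card ∧
      ∀ j < i, ∃ k, f k ∉ S j := by
  by_contra hcon
  push Not at hcon
  set M : ℝ := 2 * (3 / 4 : ℝ) ^ b * A.card with hM
  have hMpos : 0 < M := by
    have : (0 : ℝ) < A.card := by exact_mod_cast hApos
    positivity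
  set F : Finset (Fin b → V) := Fintype.piFinset (fun _ : Fin b => U) with hF
  have hFcard : F.card = U.card ^ b := by
    rw [hF, Fintype.card_piFinset_const]
  set nd : (Fin b → V) → Finset V := fun f => A.filter (fun v => ∀ k, ¬ G.Adj v (f k)) with hnd
  have hUr : (0 : ℝ) < U.card := by exact_mod_cast hUpos
  have hcover : F ⊆ (F.filter (fun f => M < ((nd f).card : ℝ))) ∪
      (range i).biUnion (fun j => Fintype.piFinset (fun _ : Fin b => S j)) := by
    intro f hf
    rw [mem_union]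
    by_cases h : M < ((nd f).card : ℝ)
    · left; rw [mem_filter]; exact ⟨hf, h⟩
    · right
      rw [hF, Fintype.mem_piFinset] at hf
      obtain ⟨j, hj, hk⟩ := hcon f hf (not_lt.mp h)
      rw [mem_biUnion]
      exact ⟨j, mem_range.mpr hj, Fintype.mem_piFinset.mpr hk⟩
  -- first part
  have hsum : ∑ f ∈ F, ((nd f).card : ℝ) ≤ A.card * ((3 / 4 : ℝ) * U.card) ^ b := by
    have h1 : ∑ f ∈ F, (nd f).card =
        ∑ v ∈ A, (F.filter (fun f => ∀ k, ¬ G.Adj v (f k))).card := by
      simp only [hnd]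
      simp_rw [card_filter]
      rw [sum_comm]
    have h2 : ∀ v ∈ A, ((F.filter (fun f => ∀ k, ¬ G.Adj v (f k))).card : ℝ) ≤
        ((3 / 4 : ℝ) * U.card) ^ b := by
      intro v hv
      have h3 : F.filter (fun f => ∀ k, ¬ G.Adj v (f k)) ⊆
          Fintype.piFinset (fun _ : Fin b => U.filter (fun u => ¬ G.Adj v u)) := by
        intro f hf
        rw [mem_filter, hF, Fintype.mem_piFinset] at hf
        rw [Fintype.mem_piFinset]
        intro k
        rw [mem_filter]
        exact ⟨hf.1 k, hf.2 k⟩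
      have h4 := card_le_card h3
      rw [Fintype.card_piFinset_const] at h4
      have h5 : ((U.filter (fun u => ¬ G.Adj v u)).card : ℝ) ≤ 3 / 4 * U.card := by
        have h6 := card_filter_add_card_filter_not (s := U) (fun u => G.Adj v u)
        have h7 := hU1 v hv
        have h8 : 4 * (U.filter (fun u => ¬ G.Adj v u)).card ≤ 3 * U.card := by omega
        have h9 : (4 : ℝ) * (U.filter (fun u => ¬ G.Adj v u)).card ≤ 3 * U.card := by
          exact_mod_cast h8
        linarith
      calc ((F.filter (fun f => ∀ k, ¬ G.Adj v (f k))).card : ℝ)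
          ≤ (((U.filter (fun u => ¬ G.Adj v u)).card ^ b : ℕ) : ℝ) := by exact_mod_cast h4
        _ = ((U.filter (fun u => ¬ G.Adj v u)).card : ℝ) ^ b := by push_cast; ring
        _ ≤ _ := by gcongr
    calc ∑ f ∈ F, ((nd f).card : ℝ) = ((∑ f ∈ F, (nd f).card : ℕ) : ℝ) := by push_cast; rfl
      _ = ∑ v ∈ A, ((F.filter (fun f => ∀ k, ¬ G.Adj v (f k))).card : ℝ) := by
          rw [h1]; push_cast; rfl
      _ ≤ ∑ v ∈ A, ((3 / 4 : ℝ) * U.card) ^ b := sum_le_sum h2
      _ = _ := by rw [sum_const, nsmul_eq_mul]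
  have hbad1 : ((F.filter (fun f => M < ((nd f).card : ℝ))).card : ℝ) ≤ (U.card : ℝ) ^ b / 2 := by
    have h1 : ((F.filter (fun f => M < ((nd f).card : ℝ))).card : ℝ) * M ≤
        ∑ f ∈ F, ((nd f).card : ℝ) := by
      calc ((F.filter (fun f => M < ((nd f).card : ℝ))).card : ℝ) * M
          = ∑ f ∈ F.filter (fun f => M < ((nd f).card : ℝ)), M := by
            rw [sum_const, nsmul_eq_mul]
        _ ≤ ∑ f ∈ F.filter (fun f => M < ((nd f).card : ℝ)), ((nd f).card : ℝ) := by
            apply sum_le_sum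
            intro f hf
            rw [mem_filter] at hf
            exact hf.2.le
        _ ≤ ∑ f ∈ F, ((nd f).card : ℝ) := by
            apply sum_le_sum_of_subset_of_nonneg (filter_subset _ _)
            intros; positivity
    have h2 := h1.trans hsum
    have h3 : (A.card : ℝ) * ((3 / 4 : ℝ) * U.card) ^ b = M * ((U.card : ℝ) ^ b / 2) := by
      rw [hM, mul_pow]; ring
    rw [h3, mul_comm] at h2
    exact le_of_mul_le_mul_left h2 hMpos
  have hbad2 : (((range i).biUnion (fun j => Fintype.piFinset (fun _ : Fin b => S j))).card : ℝ) <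
      (U.card : ℝ) ^ b / 2 := by
    have h1 : (((range i).biUnion (fun j => Fintype.piFinset (fun _ : Fin b => S j))).card : ℝ) ≤
        ∑ j ∈ range i, ((S j).card : ℝ) ^ b := by
      have := card_biUnion_le (s := range i) (t := fun j => Fintype.piFinset (fun _ : Fin b => S j))
      simp_rw [Fintype.card_piFinset_const] at this
      exact_mod_cast this
    have hM3 : M ≤ 3 * (3 / 4 : ℝ) ^ b * U.card := by
      have h2 : (2 : ℝ) * A.card ≤ 3 * U.card := by exact_mod_cast hU2
      have h3 : (0 : ℝ) < (3 / 4 : ℝ) ^ b := by positivity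
      rw [hM]
      nlinarith
    have h2 : ∑ j ∈ range i, ((S j).card : ℝ) ^ b ≤ ∑ j ∈ range i,
        (3 * (3 / 4 : ℝ) ^ b * U.card) ^ b := by
      apply sum_le_sum
      intro j hj
      rw [mem_range] at hj
      exact pow_le_pow_left₀ (by positivity) ((hS j hj).trans hM3) b
    rw [sum_const, card_range, nsmul_eq_mul, mul_pow] at h2
    have h3 : (i : ℝ) ≤ t := by exact_mod_cast hi.le
    have h4 : (0 : ℝ) < (U.card : ℝ) ^ b := by positivity
    have h5 : (0 : ℝ) ≤ (3 * (3 / 4 : ℝ) ^ b) ^ b := by positivity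
    calc _ ≤ (i : ℝ) * ((3 * (3 / 4 : ℝ) ^ b) ^ b * (U.card : ℝ) ^ b) := h1.trans h2
      _ ≤ t * ((3 * (3 / 4 : ℝ) ^ b) ^ b * (U.card : ℝ) ^ b) := by gcongr
      _ = (2 * (t : ℝ) * (3 * (3 / 4 : ℝ) ^ b) ^ b) * ((U.card : ℝ) ^ b / 2) := by ring
      _ < 1 * ((U.card : ℝ) ^ b / 2) := by
          apply mul_lt_mul_of_pos_right hnum
          positivity
      _ = _ := by ring
  have htot : (U.card : ℝ) ^ b ≤ ((F.filter (fun f => M < ((nd f).card : ℝ))).card : ℝ) +
      (((range i).biUnion (fun j => Fintype.piFinset (fun _ : Fin b => S j))).card : ℝ) := by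
    have h1 := (card_le_card hcover).trans (card_union_le _ _)
    rw [hFcard] at h1
    exact_mod_cast h1
  linarith

end Pool.Agent.BoxMinor.KT
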