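import Mathlib
import Pool.Agent.BoxMinor.Defs
import Pool.Agent.BoxMinor.KTa
import Pool.Agent.BoxMinor.KTb

set_option autoImplicit false

namespace Pool.Agent.BoxMinor.KT

open Finset
open scoped Classical

/-! ### Part C: greedy construction of the branch sets in a robust graph -/

/-- A vertex set inducing a dense, robustly connected graph. -/
structure Robust {V : Type*} [DecidableEq V] (G : SimpleGraph V) (A : Finset V) (w : ℕ) : Prop where
  ne : A.Nonempty
  card_le : A.card ≤ 8 * w
  deg : ∀ u ∈ A, 3 * w ≤ (A.filter (fun v => G.Adj u v)).card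
  conn : ∀ W : Finset V, W.card ≤ w → (G.induce (↑(A \ W) : Set V)).Preconnected

lemma greedy {V : Type*} [Fintype V] [DecidableEq V] (G : SimpleGraph V) (A : Finset V)
    (w b t : ℕ) (hR : Robust G A w) (hb : 1 ≤ b) (hw : 9 * b * t ≤ w)
    (hnum : 2 * (t : ℝ) * (3 * (3 / 4 : ℝ) ^ b) ^ b < 1) : HasCliqueMinor G t := by
  have key : ∀ i ≤ t, ∃ B : ℕ → Finset V,
      (∀ j < i, B j ⊆ A ∧ (G.induce (B j : Set V)).Connected ∧ (B j).card ≤ 9 * b ∧
        ((A.filter (fun v => ∀ y ∈ B j, ¬ G.Adj v y)).card : ℝ) ≤ 2 * (3 / 4 : ℝ) ^ b * A.card) ∧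
      (∀ j < i, ∀ k < j, Disjoint (B j) (B k) ∧ ∃ x ∈ B j, ∃ y ∈ B k, G.Adj x y) := by
    intro i
    induction i with
    | zero =>
      intro _
      exact ⟨fun _ => ∅, fun j hj => absurd hj (Nat.not_lt_zero j),
        fun j hj => absurd hj (Nat.not_lt_zero j)⟩
    | succ i ih =>
      intro hit
      obtain ⟨B, hB1, hB2⟩ := ih (by omega)
      have hit' : i < t := by omega
      set W : Finset V := (range i).biUnion B with hW
      have hWcard : W.card ≤ w := by
        have h1 : W.card ≤ ∑ j ∈ range i, 9 * b := by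
          refine card_biUnion_le.trans (sum_le_sum ?_)
          intro j hj
          exact (hB1 j (mem_range.mp hj)).2.2.1
        rw [sum_const, card_range, smul_eq_mul] at h1
        have h2 : i * (9 * b) ≤ 9 * b * t := by
          rw [mul_comm]; exact Nat.mul_le_mul_left _ hit'.le
        omega
      set U : Finset V := A \ W with hU
      have hdeg : ∀ v ∈ A, 2 * w ≤ (U.filter (fun u => G.Adj v u)).card := by
        intro v hv
        have h1 := hR.deg v hv
        have h2 : A.filter (fun u => G.Adj v u) ⊆ (U.filter (fun u => G.Adj v u)) ∪ W := by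
          intro z hz
          rw [mem_filter] at hz
          rw [mem_union, mem_filter, hU, mem_sdiff]
          by_cases h : z ∈ W
          · right; exact h
          · left; exact ⟨⟨hz.1, h⟩, hz.2⟩
        have h3 := (card_le_card h2).trans (card_union_le _ _)
        omega
      have hwpos : 0 < w := by
        have : 1 ≤ t := by omega
        have : 9 * b * 1 ≤ 9 * b * t := Nat.mul_le_mul_left _ this
        omega
      have hUA : U ⊆ A := sdiff_subset
      have hUcard : U.card ≤ 8 * w := (card_le_card hUA).trans hR.card_le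
      obtain ⟨a0, ha0⟩ := hR.ne
      have hAcard : 3 * w ≤ A.card := (hR.deg a0 ha0).trans (card_filter_le _ _)
      have hAU : A.card ≤ U.card + W.card := by
        have h1 : A ⊆ U ∪ W := by
          intro z hz
          rw [mem_union, hU, mem_sdiff]
          by_cases h : z ∈ W
          · right; exact h
          · left; exact ⟨hz, h⟩
        exact (card_le_card h1).trans (card_union_le _ _)
      obtain ⟨f, hfU, hf1, hf2⟩ := exists_good G A U b t i hit'
        (fun v hv => by have := hdeg v hv; omega) (by omega) (by omega) (by omega) hnum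
        (fun j => A.filter (fun v => ∀ y ∈ B j, ¬ G.Adj v y)) (fun j hj => (hB1 j hj).2.2.2)
      have hne : (univ.image f : Finset V).Nonempty := ⟨f ⟨0, by omega⟩, mem_image_of_mem _ (mem_univ _)⟩
      obtain ⟨P, hP1, hP2, hP3, hP4⟩ := conn_superset G U (hR.conn W hWcard) (2 * w)
        (fun u hu => hdeg u (hUA hu)) (by omega) (univ.image f) hne
        (by
          intro z hz
          rw [mem_image] at hz
          obtain ⟨k, -, rfl⟩ := hz
          exact hfU k)
      have hPcard : P.card ≤ 9 * b := by
        have : (univ.image f : Finset V).card ≤ b := by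
          refine card_image_le.trans ?_
          simp
        omega
      obtain ⟨B', hB'i, hB'⟩ : ∃ B' : ℕ → Finset V, B' i = P ∧ ∀ j, j ≠ i → B' j = B j :=
        ⟨fun j => if j = i then P else B j, by simp, fun j h => by simp [h]⟩
      refine ⟨B', ?_, ?_⟩
      · intro j hj
        by_cases hji : j = i
        · subst hji
          rw [hB'i]
          refine ⟨hP2.trans hUA, hP3, hPcard, ?_⟩
          refine le_trans ?_ hf1
          have : A.filter (fun v => ∀ y ∈ P, ¬ G.Adj v y) ⊆
              A.filter (fun v => ∀ k, ¬ G.Adj v (f k)) := by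
            intro z hz
            rw [mem_filter] at hz ⊢
            exact ⟨hz.1, fun k => hz.2 _ (hP1 (mem_image_of_mem _ (mem_univ _)))⟩
          exact_mod_cast card_le_card this
        · rw [hB' j hji]
          exact hB1 j (by omega)
      · intro j hj k hk
        have hki : k ≠ i := by omega
        rw [hB' k hki]
        by_cases hji : j = i
        · subst hji
          rw [hB'i]
          constructor
          · rw [disjoint_left]
            intro z hz hzk
            have h1 := hP2 hz
            rw [hU, mem_sdiff] at h1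
            exact h1.2 (mem_biUnion.mpr ⟨k, mem_range.mpr hk, hzk⟩)
          · obtain ⟨l, hl⟩ := hf2 k hk
            rw [mem_filter] at hl
            push Not at hl
            obtain ⟨y, hy, hadj⟩ := hl (hUA (hfU l))
            exact ⟨f l, hP1 (mem_image_of_mem _ (mem_univ _)), y, hy, hadj⟩
        · rw [hB' j hji]
          exact hB2 j (by omega) k hk
  obtain ⟨B, hB1, hB2⟩ := key t le_rfl
  refine ⟨fun j => (B j : Set V), fun j => (hB1 j j.2).2.1, ?_, ?_⟩
  · intro i j hij
    have hij' : (i : ℕ) ≠ j := fun h => hij (Fin.ext h)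
    rcases lt_or_gt_of_ne hij' with h | h
    · exact (disjoint_coe.mpr (hB2 j j.2 i h).1).symm
    · exact disjoint_coe.mpr (hB2 i i.2 j h).1
  · intro i j hij
    have hij' : (i : ℕ) ≠ j := fun h => hij (Fin.ext h)
    rcases lt_or_gt_of_ne hij' with h | h
    · obtain ⟨x, hx, y, hy, hxy⟩ := (hB2 j j.2 i h).2
      exact ⟨y, hy, x, hx, hxy.symm⟩
    · obtain ⟨x, hx, y, hy, hxy⟩ := (hB2 i i.2 j h).2
      exact ⟨x, hx, y, hy, hxy⟩

/-! ### Part D: a dense vertex set contains a robust one -/

lemma exists_robust {V : Type*} [Fintype V] [DecidableEq V] (G : SimpleGraph V) (A : Finset V)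
    (w : ℕ) (hw : 0 < w) (hne : A.Nonempty) (hcard : A.card ≤ 8 * w)
    (hdeg : ∀ u ∈ A, 4 * w ≤ (A.filter (fun v => G.Adj u v)).card) :
    ∃ A', Robust G A' w := by
  by_cases hconn : ∀ W : Finset V, W.card ≤ w → (G.induce (↑(A \ W) : Set V)).Preconnected
  · exact ⟨A, hne, hcard, fun u hu => by have := hdeg u hu; omega, hconn⟩
  · push Not at hconn
    obtain ⟨W, hWcard, hWc⟩ := hconn
    -- a nonempty small closed set `Z`
    have hZ : ∃ Z : Finset V, Z.Nonempty ∧ Z ⊆ A \ W ∧ Z.card ≤ 4 * w ∧
        ∀ z ∈ Z, ∀ v ∈ A, G.Adj z v → v ∈ Z ∨ v ∈ W := by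
      unfold SimpleGraph.Preconnected at hWc
      push Not at hWc
      obtain ⟨u, v, huv⟩ := hWc
      set X : Finset V := (A \ W).filter (fun z => ∃ hz : z ∈ (↑(A \ W) : Set V),
        (G.induce (↑(A \ W) : Set V)).Reachable u ⟨z, hz⟩) with hX
      set Y : Finset V := (A \ W).filter (fun z => ¬ ∃ hz : z ∈ (↑(A \ W) : Set V),
        (G.induce (↑(A \ W) : Set V)).Reachable u ⟨z, hz⟩) with hY
      have hXY : X.card + Y.card = (A \ W).card := card_filter_add_card_filter_not _
      have hAW : (A \ W).card ≤ 8 * w := (card_le_card sdiff_subset).trans hcard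
      have huX : u.1 ∈ X := by
        rw [hX, mem_filter]
        exact ⟨u.2, u.2, SimpleGraph.Reachable.refl _⟩
      have hvY : v.1 ∈ Y := by
        rw [hY, mem_filter]
        refine ⟨v.2, ?_⟩
        rintro ⟨hz, h⟩
        exact huv h
      have hXcl : ∀ z ∈ X, ∀ v ∈ A, G.Adj z v → v ∈ X ∨ v ∈ W := by
        intro z hz x hx hadj
        by_cases hxW : x ∈ W
        · right; exact hxW
        · left
          rw [hX, mem_filter] at hz ⊢
          obtain ⟨hz1, hz2, hz3⟩ := hz
          have hxm : x ∈ A \ W := mem_sdiff.mpr ⟨hx, hxW⟩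
          refine ⟨hxm, hxm, hz3.trans (SimpleGraph.Adj.reachable ?_)⟩
          simpa using hadj
      have hYcl : ∀ z ∈ Y, ∀ v ∈ A, G.Adj z v → v ∈ Y ∨ v ∈ W := by
        intro z hz x hx hadj
        by_cases hxW : x ∈ W
        · right; exact hxW
        · left
          have hxm : x ∈ A \ W := mem_sdiff.mpr ⟨hx, hxW⟩
          by_contra hxY
          have hxX : x ∈ X := by
            rw [hX, mem_filter]
            refine ⟨hxm, ?_⟩
            by_contra h
            exact hxY (by rw [hY, mem_filter]; exact ⟨hxm, h⟩)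
          rw [hY, mem_filter] at hz
          have hzA : z ∈ A := (mem_sdiff.mp hz.1).1
          rcases hXcl x hxX z hzA hadj.symm with h | h
          · rw [hX, mem_filter] at h
            exact hz.2 h.2
          · exact (mem_sdiff.mp hz.1).2 h
      rcases le_total X.card Y.card with h | h
      · exact ⟨X, ⟨_, huX⟩, filter_subset _ _, by omega, hXcl⟩
      · exact ⟨Y, ⟨_, hvY⟩, filter_subset _ _, by omega, hYcl⟩
    obtain ⟨Z, hZne, hZsub, hZcard, hZcl⟩ := hZ
    have hZdeg : ∀ u ∈ Z, 3 * w ≤ (Z.filter (fun v => G.Adj u v)).card := by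
      intro u hu
      have hu' := (mem_sdiff.mp (hZsub hu)).1
      have h1 := hdeg u hu'
      have h2 : A.filter (fun v => G.Adj u v) ⊆ Z.filter (fun v => G.Adj u v) ∪ W := by
        intro z hz
        rw [mem_filter] at hz
        rw [mem_union, mem_filter]
        rcases hZcl u hu z hz.1 hz.2 with h | h
        · left; exact ⟨h, hz.2⟩
        · right; exact h
      have h3 := (card_le_card h2).trans (card_union_le _ _)
      omega
    refine ⟨Z, hZne, by omega, hZdeg, ?_⟩
    intro W' hW' u v
    have hu : u.1 ∈ Z := (mem_sdiff.mp u.2).1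
    have hv : v.1 ∈ Z := (mem_sdiff.mp v.2).1
    have h1 := hZdeg _ hu
    have h2 := hZdeg _ hv
    have h3 := card_union_add_card_inter (Z.filter (fun x => G.Adj u.1 x))
      (Z.filter (fun x => G.Adj v.1 x))
    have h4 : (Z.filter (fun x => G.Adj u.1 x) ∪ Z.filter (fun x => G.Adj v.1 x)).card ≤ 4 * w :=
      (card_le_card (union_subset (filter_subset _ _) (filter_subset _ _))).trans hZcard
    have h5 : W'.card < (Z.filter (fun x => G.Adj u.1 x) ∩ Z.filter (fun x => G.Adj v.1 x)).card := by
      omega
    obtain ⟨z, hz, hzW⟩ := exists_mem_notMem_of_card_lt_card h5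
    rw [mem_inter, mem_filter, mem_filter] at hz
    have hzm : z ∈ (↑(Z \ W') : Set V) := by
      simpa using ⟨hz.1.1, hzW⟩
    have e1 : (G.induce (↑(Z \ W') : Set V)).Adj u ⟨z, hzm⟩ := by simpa using hz.1.2
    have e2 : (G.induce (↑(Z \ W') : Set V)).Adj v ⟨z, hzm⟩ := by simpa using hz.2.2
    exact e1.reachable.trans e2.reachable.symm

end Pool.Agent.BoxMinor.KT
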