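import Mathlib
import Pool.Agent.BoxMinor.Defs
import Pool.Agent.BoxMinor.KTc

set_option autoImplicit false

namespace Pool.Agent.BoxMinor.KT

open Finset
open scoped Classical

/-! ### Part E: clique minors under subgraphs and contractions -/

lemma HasCliqueMinor.mono {V : Type*} {G H : SimpleGraph V} (h : G ≤ H) {t : ℕ}
    (hG : HasCliqueMinor G t) : HasCliqueMinor H t := by
  obtain ⟨B, hB1, hB2, hB3⟩ := hG
  refine ⟨B, fun i => (hB1 i).mono ?_, hB2, ?_⟩
  · intro a b hab
    exact h hab
  · intro i j hij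
    obtain ⟨x, hx, y, hy, hxy⟩ := hB3 i j hij
    exact ⟨x, hx, y, hy, h hxy⟩

/-- Contraction of the pair `x y` on the same vertex type: `y` becomes isolated. -/
def contract {V : Type*} (G : SimpleGraph V) (x y : V) : SimpleGraph V where
  Adj a b := a ≠ b ∧ a ≠ y ∧ b ≠ y ∧ (G.Adj a b ∨ (a = x ∧ G.Adj y b) ∨ (b = x ∧ G.Adj y a))
  symm := ⟨by
    rintro a b ⟨h1, h2, h3, h4⟩
    refine ⟨h1.symm, h3, h2, ?_⟩
    rcases h4 with h | h | h
    · exact Or.inl h.symm
    · exact Or.inr (Or.inr h)
    · exact Or.inr (Or.inl h)⟩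
  loopless := ⟨fun a h => h.1 rfl⟩

lemma reach_of_step {V : Type*} {G H : SimpleGraph V} {s T : Set V} (hsT : s ⊆ T)
    (hstep : ∀ a (ha : a ∈ s) b (hb : b ∈ s), H.Adj a b →
      (G.induce T).Reachable ⟨a, hsT ha⟩ ⟨b, hsT hb⟩)
    {a b : s} (h : (H.induce s).Reachable a b) :
    (G.induce T).Reachable ⟨a, hsT a.2⟩ ⟨b, hsT b.2⟩ := by
  obtain ⟨p⟩ := h
  induction p with
  | nil => exact SimpleGraph.Reachable.refl _
  | @cons u v w h p ih =>
    exact (hstep u.1 u.2 v.1 v.2 (by simpa using h)).trans ih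

lemma lift_contract {V : Type*} {G : SimpleGraph V} {x y : V} (hxy : G.Adj x y) {t : ℕ}
    (ht : 2 ≤ t) (h : HasCliqueMinor (contract G x y) t) : HasCliqueMinor G t := by
  obtain ⟨B, hB1, hB2, hB3⟩ := h
  have hy : ∀ i, y ∉ B i := by
    intro i hyi
    obtain ⟨j, hj⟩ : ∃ j : Fin t, i ≠ j := by
      by_cases h0 : i = ⟨0, by omega⟩
      · refine ⟨⟨1, by omega⟩, ?_⟩
        rw [h0]
        intro hh
        simpa using congrArg Fin.val hh
      · exact ⟨⟨0, by omega⟩, h0⟩
    obtain ⟨a, ha, b, hb, hab⟩ := hB3 i j hj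
    have hay : a ≠ y := hab.2.1
    obtain ⟨p⟩ := (hB1 i).preconnected ⟨y, hyi⟩ ⟨a, ha⟩
    cases p with
    | nil => exact hay rfl
    | cons h _ => exact h.2.1 rfl
  set B' : Fin t → Set V := fun i => {z | z ∈ B i ∨ (z = y ∧ x ∈ B i)} with hB'
  have hsub : ∀ i, B i ⊆ B' i := fun i z hz => Or.inl hz
  have hxB : ∀ i, x ∈ B i → y ∈ B' i := fun i hx => Or.inr ⟨rfl, hx⟩
  refine ⟨B', ?_, ?_, ?_⟩
  · intro i
    have hstep : ∀ a (ha : a ∈ B i) b (hb : b ∈ B i), (contract G x y).Adj a b →
        (G.induce (B' i)).Reachable ⟨a, hsub i ha⟩ ⟨b, hsub i hb⟩ := by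
      intro a ha b hb hab
      rcases hab.2.2.2 with h | ⟨rfl, h⟩ | ⟨rfl, h⟩
      · exact SimpleGraph.Adj.reachable (by simpa using h)
      · have h1 : (G.induce (B' i)).Adj ⟨a, hsub i ha⟩ ⟨y, hxB i ha⟩ := by simpa using hxy
        have h2 : (G.induce (B' i)).Adj ⟨y, hxB i ha⟩ ⟨b, hsub i hb⟩ := by simpa using h
        exact h1.reachable.trans h2.reachable
      · have h1 : (G.induce (B' i)).Adj ⟨b, hsub i hb⟩ ⟨y, hxB i hb⟩ := by simpa using hxy
        have h2 : (G.induce (B' i)).Adj ⟨y, hxB i hb⟩ ⟨a, hsub i ha⟩ := by simpa using h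
        exact (h1.reachable.trans h2.reachable).symm
    obtain ⟨⟨c, hc⟩⟩ := (hB1 i).nonempty
    rw [SimpleGraph.connected_iff_exists_forall_reachable]
    by_cases hx : x ∈ B i
    · refine ⟨⟨x, hsub i hx⟩, ?_⟩
      rintro ⟨v, hv⟩
      rcases hv with hv | ⟨rfl, -⟩
      · exact reach_of_step (hsub i) hstep ((hB1 i).preconnected ⟨x, hx⟩ ⟨v, hv⟩)
      · exact SimpleGraph.Adj.reachable (by simpa using hxy)
    · refine ⟨⟨c, hsub i hc⟩, ?_⟩
      rintro ⟨v, hv⟩
      rcases hv with hv | ⟨rfl, hx'⟩
      · exact reach_of_step (hsub i) hstep ((hB1 i).preconnected ⟨c, hc⟩ ⟨v, hv⟩)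
      · exact absurd hx' hx
  · intro i j hij
    have hd := hB2 i j hij
    rw [Set.disjoint_left] at hd ⊢
    rintro z (hz | ⟨rfl, hz⟩) (hz' | ⟨h2, hz'⟩)
    · exact hd hz hz'
    · rw [h2] at hz
      exact hy i hz
    · exact hy j hz'
    · exact hd hz hz'
  · intro i j hij
    obtain ⟨a, ha, b, hb, hab⟩ := hB3 i j hij
    rcases hab.2.2.2 with h | ⟨rfl, h⟩ | ⟨rfl, h⟩
    · exact ⟨a, hsub i ha, b, hsub j hb, h⟩
    · exact ⟨y, hxB i ha, b, hsub j hb, h⟩
    · exact ⟨a, hsub i ha, y, hxB j hb, h.symm⟩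

lemma card_contract {V : Type*} [Fintype V] [DecidableEq V] (G : SimpleGraph V) {x y : V}
    (hxy : G.Adj x y) :
    G.edgeFinset.card ≤ (contract G x y).edgeFinset.card + 1 +
      (univ.filter (fun z => G.Adj x z ∧ G.Adj y z)).card := by
  set R : Finset V := univ.filter (fun z => G.Adj y z ∧ z ≠ x ∧ ¬ G.Adj x z) with hR
  have h1 : (G.deleteIncidenceSet y).edgeFinset ∪ R.image (fun z => s(x, z)) ⊆
      (contract G x y).edgeFinset := by
    intro e he
    rw [mem_union] at he
    rcases he with he | he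
    · induction e using Sym2.ind with
      | _ a b =>
        rw [SimpleGraph.mem_edgeFinset, SimpleGraph.mem_edgeSet,
          SimpleGraph.deleteIncidenceSet_adj] at he
        rw [SimpleGraph.mem_edgeFinset, SimpleGraph.mem_edgeSet]
        exact ⟨he.1.ne, he.2.1, he.2.2, Or.inl he.1⟩
    · rw [mem_image] at he
      obtain ⟨z, hz, rfl⟩ := he
      rw [hR, mem_filter] at hz
      rw [SimpleGraph.mem_edgeFinset, SimpleGraph.mem_edgeSet]
      exact ⟨hz.2.2.1.symm, hxy.ne, hz.2.1.ne', Or.inr (Or.inl ⟨rfl, hz.2.1⟩)⟩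
  have h2 : Disjoint (G.deleteIncidenceSet y).edgeFinset (R.image (fun z => s(x, z))) := by
    rw [disjoint_left]
    intro e he he'
    rw [mem_image] at he'
    obtain ⟨z, hz, rfl⟩ := he'
    rw [hR, mem_filter] at hz
    rw [SimpleGraph.mem_edgeFinset, SimpleGraph.mem_edgeSet,
      SimpleGraph.deleteIncidenceSet_adj] at he
    exact hz.2.2.2 he.1
  have h3 : (R.image (fun z => s(x, z))).card = R.card := by
    apply card_image_of_injective
    intro a b hab
    exact Sym2.congr_right.mp hab
  have h4 := card_le_card h1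
  rw [card_union_of_disjoint h2, h3] at h4
  have h5 : (G.deleteIncidenceSet y).edgeFinset.card = G.edgeFinset.card - G.degree y := by
    have := G.card_edgeFinset_deleteIncidenceSet y
    convert this
  have h6 : G.degree y ≤ G.edgeFinset.card := by
    rw [← SimpleGraph.card_incidenceFinset_eq_degree]
    exact card_le_card (G.incidenceFinset_subset y)
  have h7 : G.degree y ≤ R.card + 1 + (univ.filter (fun z => G.Adj x z ∧ G.Adj y z)).card := by
    have h8 : G.degree y = (univ.filter (fun z => G.Adj y z)).card := by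
      rw [← SimpleGraph.card_neighborFinset_eq_degree, SimpleGraph.neighborFinset_eq_filter]
    rw [h8]
    have h9 : univ.filter (fun z => G.Adj y z) ⊆
        (R ∪ {x}) ∪ univ.filter (fun z => G.Adj x z ∧ G.Adj y z) := by
      intro z hz
      rw [mem_filter] at hz
      rw [mem_union, mem_union, mem_singleton, hR, mem_filter, mem_filter]
      by_cases hzx : z = x
      · left; right; exact hzx
      · by_cases hxz : G.Adj x z
        · right; exact ⟨mem_univ _, hxz, hz.2⟩
        · left; left; exact ⟨mem_univ _, hz.2, hzx, hxz⟩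
    refine (card_le_card h9).trans ?_
    refine (card_union_le _ _).trans ?_
    have := card_union_le R {x}
    rw [card_singleton] at this
    omega
  omega

/-! ### Part F: the main induction -/

lemma coreBound {V : Type*} [Fintype V] [DecidableEq V] (w b t : ℕ) (hb : 1 ≤ b) (ht : 2 ≤ t)
    (hw : 9 * b * t ≤ w) (hnum : 2 * (t : ℝ) * (3 * (3 / 4 : ℝ) ^ b) ^ b < 1) :
    ∀ (n : ℕ) (G : SimpleGraph V) (S : Finset V), S.card = n → S.Nonempty →
      (∀ x y, G.Adj x y → x ∈ S ∧ y ∈ S) → 4 * w * S.card ≤ G.edgeFinset.card →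
      HasCliqueMinor G t := by
  have hwpos : 0 < w := by
    have h1 : 9 * 1 * 2 ≤ 9 * b * t := Nat.mul_le_mul (Nat.mul_le_mul_left _ hb) ht
    omega
  intro n
  induction n using Nat.strong_induction_on with
  | _ n ih =>
    intro G S hSn hSne hsupp hE
    -- pass to a subgraph with exactly `4 w |S|` edges
    obtain ⟨T, hTsub, hTcard⟩ := exists_subset_card_eq hE
    obtain ⟨G', hG'⟩ : ∃ G' : SimpleGraph V, G' = SimpleGraph.fromEdgeSet (T : Set (Sym2 V)) :=
      ⟨_, rfl⟩
    have hle : G' ≤ G := by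
      intro a b hab
      rw [hG', SimpleGraph.fromEdgeSet_adj] at hab
      have := hTsub hab.1
      rwa [SimpleGraph.mem_edgeFinset, SimpleGraph.mem_edgeSet] at this
    have hE' : G'.edgeFinset.card = 4 * w * S.card := by
      rw [← hTcard]
      congr 1
      ext e
      rw [SimpleGraph.mem_edgeFinset, hG', SimpleGraph.edgeSet_fromEdgeSet]
      constructor
      · intro h; exact h.1
      · intro h
        refine ⟨h, ?_⟩
        have h1 := hTsub h
        rw [SimpleGraph.mem_edgeFinset] at h1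
        exact G.not_isDiag_of_mem_edgeSet h1
    refine HasCliqueMinor.mono hle ?_
    have hsupp' : ∀ x y, G'.Adj x y → x ∈ S ∧ y ∈ S := fun x y h => hsupp x y (hle h)
    have hScard : 2 ≤ S.card := by
      have h1 : 1 ≤ S.card := hSne.card_pos
      have h2 : 0 < G'.edgeFinset.card := by rw [hE']; positivity
      obtain ⟨e, he⟩ := card_pos.mp h2
      induction e using Sym2.ind with
      | _ a b =>
        rw [SimpleGraph.mem_edgeFinset, SimpleGraph.mem_edgeSet] at he
        obtain ⟨ha, hb⟩ := hsupp' a b he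
        exact one_lt_card.mpr ⟨a, ha, b, hb, he.ne⟩
    by_cases hcase1 : ∃ v ∈ S, G'.degree v ≤ 4 * w
    · obtain ⟨v, hv, hdeg⟩ := hcase1
      have hSe : (S.erase v).card = S.card - 1 := card_erase_of_mem hv
      refine HasCliqueMinor.mono (G'.deleteIncidenceSet_le v) ?_
      refine ih (S.erase v).card (by omega) (G'.deleteIncidenceSet v) (S.erase v) rfl ?_ ?_ ?_
      · rw [← card_pos]; omega
      · intro x y hxy
        rw [SimpleGraph.deleteIncidenceSet_adj] at hxy
        rw [mem_erase, mem_erase]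
        exact ⟨⟨hxy.2.1, (hsupp' x y hxy.1).1⟩, ⟨hxy.2.2, (hsupp' x y hxy.1).2⟩⟩
      · have h6 : 4 * w * (S.erase v).card ≤ G'.edgeFinset.card - G'.degree v := by
          rw [hE', hSe, Nat.mul_sub, mul_one]
          omega
        refine h6.trans (le_of_eq ?_)
        rw [eq_comm]
        have hinst : ∀ (i1 i2 : Fintype (G'.deleteIncidenceSet v).edgeSet),
            (@SimpleGraph.edgeFinset V (G'.deleteIncidenceSet v) i1) =
              (@SimpleGraph.edgeFinset V (G'.deleteIncidenceSet v) i2) := by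
          intro i1 i2
          rw [Subsingleton.elim i1 i2]
        exact (congrArg Finset.card (hinst _ _)).trans (G'.card_edgeFinset_deleteIncidenceSet v)
    by_cases hcase2 : ∃ x y, G'.Adj x y ∧
        (univ.filter (fun z => G'.Adj x z ∧ G'.Adj y z)).card + 1 ≤ 4 * w
    · obtain ⟨x, y, hxy, hcom⟩ := hcase2
      have hyS : y ∈ S := (hsupp' x y hxy).2
      have hSe : (S.erase y).card = S.card - 1 := card_erase_of_mem hyS
      refine lift_contract hxy ht ?_
      refine ih (S.erase y).card (by omega) (contract G' x y) (S.erase y) rfl ?_ ?_ ?_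
      · rw [← card_pos]; omega
      · intro a c hac
        rw [mem_erase, mem_erase]
        refine ⟨⟨hac.2.1, ?_⟩, ⟨hac.2.2.1, ?_⟩⟩
        · rcases hac.2.2.2 with h | ⟨rfl, h⟩ | ⟨rfl, h⟩
          · exact (hsupp' _ _ h).1
          · exact (hsupp' _ _ hxy).1
          · exact (hsupp' _ _ h).2
        · rcases hac.2.2.2 with h | ⟨rfl, h⟩ | ⟨rfl, h⟩
          · exact (hsupp' _ _ h).2
          · exact (hsupp' _ _ h).2
          · exact (hsupp' _ _ hxy).1
      · have h5 := card_contract G' hxy
        rw [hE'] at h5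
        rw [hSe, Nat.mul_sub, mul_one]
        omega
    · push Not at hcase1 hcase2
      -- a vertex of small degree
      have hsum : ∑ v ∈ S, G'.degree v = 8 * w * S.card := by
        have h1 := G'.sum_degrees_eq_twice_card_edges
        rw [hE'] at h1
        have h2 : ∑ v ∈ S, G'.degree v = ∑ v, G'.degree v := by
          apply sum_subset (subset_univ _)
          intro v _ hv
          rw [← SimpleGraph.card_neighborFinset_eq_degree, card_eq_zero,
            SimpleGraph.neighborFinset_eq_filter, filter_eq_empty_iff]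
          intro u _ hu
          exact hv (hsupp' v u hu).1
        rw [h2, h1]; ring
      obtain ⟨v, hv, hdeg⟩ : ∃ v ∈ S, G'.degree v ≤ 8 * w := by
        apply exists_le_of_sum_le hSne
        rw [hsum, sum_const, smul_eq_mul, mul_comm]
      have hdeg1 := hcase1 v hv
      have h8 : G'.degree v = (univ.filter (fun z => G'.Adj v z)).card := by
        rw [← SimpleGraph.card_neighborFinset_eq_degree, SimpleGraph.neighborFinset_eq_filter]
      obtain ⟨A', hA'⟩ := exists_robust G' (univ.filter (fun z => G'.Adj v z)) w hwpos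
        (by rw [← card_pos]; omega) (by omega) (by
          intro u hu
          rw [mem_filter] at hu
          have := hcase2 v u hu.2
          have h9 : (univ.filter (fun z => G'.Adj v z)).filter (fun z => G'.Adj u z) =
              univ.filter (fun z => G'.Adj v z ∧ G'.Adj u z) := by
            rw [filter_filter]
          rw [h9]
          omega)
      exact greedy G' A' w b t hA' hb hw hnum

end Pool.Agent.BoxMinor.KT
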