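import Mathlib
import Pool.Agent.BoxMinor.Defs
import Pool.Agent.BoxMinor.KTd

set_option autoImplicit false

/-!
The Kostochka–Thomason density theorem (order of magnitude): graphs without a `K_t` minor have
at most `C t sqrt(log t) |V|` edges.
-/

namespace Pool.Agent.BoxMinor

open Finset
open scoped Classical

lemma KT.num (t : ℕ) (ht : 2 ≤ t) (b : ℕ) (hb : b = ⌈10 * Real.sqrt (Real.log t)⌉₊) :
    9 ≤ b ∧ 2 * (t : ℝ) * (3 * (3 / 4 : ℝ) ^ b) ^ b < 1 := by
  have ht' : (2 : ℝ) ≤ t := by exact_mod_cast ht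
  have htpos : (0 : ℝ) < t := by linarith
  have hL : 0.69 < Real.log t := by
    have h1 := Real.log_two_gt_d9
    have h2 : Real.log 2 ≤ Real.log t := Real.log_le_log (by norm_num) ht'
    linarith
  have hsq : 0.8 < Real.sqrt (Real.log t) := by
    apply Real.lt_sqrt_of_sq_lt
    norm_num
    linarith
  have hbge : 10 * Real.sqrt (Real.log t) ≤ b := by rw [hb]; exact Nat.le_ceil _
  have hb9 : 9 ≤ b := by
    have : (8 : ℝ) < b := by linarith
    have : 8 < b := by exact_mod_cast this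
    omega
  refine ⟨hb9, ?_⟩
  have hb2 : 100 * Real.log t ≤ ((b ^ 2 : ℕ) : ℝ) := by
    have h1 : (10 * Real.sqrt (Real.log t)) ^ 2 ≤ (b : ℝ) ^ 2 :=
      pow_le_pow_left₀ (by positivity) hbge 2
    rw [mul_pow, Real.sq_sqrt (by linarith)] at h1
    push_cast
    linarith
  have hexp : Real.exp (1 / 50) ≤ 1.03 := by
    have h1 := Real.add_one_le_exp (-(1 / 50 : ℝ))
    rw [Real.exp_neg] at h1
    have h2 : 0 < Real.exp (1 / 50) := Real.exp_pos _
    have h3 : Real.exp (1 / 50) * (Real.exp (1 / 50))⁻¹ = 1 := mul_inv_cancel₀ h2.ne'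
    nlinarith
  have h2t : 2 * (t : ℝ) ≤ (1.03 : ℝ) ^ (b ^ 2) := by
    calc 2 * (t : ℝ) ≤ t * t := by nlinarith
      _ = Real.exp (Real.log t + Real.log t) := by rw [Real.exp_add, Real.exp_log htpos]
      _ ≤ Real.exp (((b ^ 2 : ℕ) : ℝ) * (1 / 50)) := by
          apply Real.exp_le_exp.mpr
          linarith
      _ = Real.exp (1 / 50) ^ (b ^ 2) := by rw [Real.exp_nat_mul]
      _ ≤ _ := pow_le_pow_left₀ (Real.exp_pos _).le hexp _
  have h3 : (3 : ℝ) ^ b ≤ (6 / 5 : ℝ) ^ (b ^ 2) := by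
    have h4 : (3 : ℝ) ≤ (6 / 5 : ℝ) ^ b := by
      calc (3 : ℝ) ≤ (6 / 5 : ℝ) ^ 9 := by norm_num
        _ ≤ (6 / 5 : ℝ) ^ b := pow_le_pow_right₀ (by norm_num) hb9
    calc (3 : ℝ) ^ b ≤ ((6 / 5 : ℝ) ^ b) ^ b := pow_le_pow_left₀ (by norm_num) h4 b
      _ = (6 / 5 : ℝ) ^ (b ^ 2) := by rw [← pow_mul, sq]
  calc 2 * (t : ℝ) * (3 * (3 / 4 : ℝ) ^ b) ^ b
      = 2 * (t : ℝ) * ((3 : ℝ) ^ b * (3 / 4 : ℝ) ^ (b ^ 2)) := by
        rw [mul_pow, ← pow_mul, sq]
    _ ≤ (1.03 : ℝ) ^ (b ^ 2) * ((6 / 5 : ℝ) ^ (b ^ 2) * (3 / 4 : ℝ) ^ (b ^ 2)) := by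
        gcongr
    _ = (1.03 * (6 / 5 * (3 / 4)) : ℝ) ^ (b ^ 2) := by rw [mul_pow, mul_pow]
    _ < 1 := by
        apply pow_lt_one₀ (by norm_num) (by norm_num)
        positivity

/-- **Kostochka–Thomason**: a graph with no `K_t` minor has at most
`C t sqrt(log t) |V|` edges. -/
theorem kt_density : ∃ C : ℝ, 0 < C ∧ ∀ t : ℕ, 2 ≤ t → ∀ {V : Type} [Fintype V] [DecidableEq V]
      (G : SimpleGraph V) [DecidableRel G.Adj], ¬ HasCliqueMinor G t →
      (G.edgeFinset.card : ℝ) ≤ C * t * Real.sqrt (Real.log t) * Fintype.card V := by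
  refine ⟨432, by norm_num, ?_⟩
  intro t ht V _ _ G _ hG
  obtain ⟨b, hb⟩ : ∃ b : ℕ, b = ⌈10 * Real.sqrt (Real.log t)⌉₊ := ⟨_, rfl⟩
  obtain ⟨hb9, hnum⟩ := KT.num t ht b hb
  have ht' : (2 : ℝ) ≤ t := by exact_mod_cast ht
  have hL : 0.69 < Real.log t := by
    have h1 := Real.log_two_gt_d9
    have h2 : Real.log 2 ≤ Real.log t := Real.log_le_log (by norm_num) ht'
    linarith
  have hsq : 0.8 < Real.sqrt (Real.log t) := by
    apply Real.lt_sqrt_of_sq_lt
    norm_num
    linarith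
  rcases (univ : Finset V).eq_empty_or_nonempty with hV | hV
  · have h0 : G.edgeFinset.card = 0 := by
      rw [card_eq_zero]
      ext e
      induction e using Sym2.ind with
      | _ a b => exact absurd (mem_univ a) (by rw [hV]; exact notMem_empty a)
    rw [h0]
    push_cast
    positivity
  · have hlt : G.edgeFinset.card < 4 * (9 * b * t) * Fintype.card V := by
      by_contra hcon
      push Not at hcon
      apply hG
      refine KT.coreBound (9 * b * t) b t (by omega) ht le_rfl hnum (univ : Finset V).card G univ rfl hV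
        (fun x y _ => ⟨mem_univ _, mem_univ _⟩) ?_
      rw [card_univ]
      have hinst : ∀ (i1 i2 : Fintype G.edgeSet),
          (@SimpleGraph.edgeFinset V G i1) = (@SimpleGraph.edgeFinset V G i2) := by
        intro i1 i2
        rw [Subsingleton.elim i1 i2]
      exact hcon.trans (le_of_eq (congrArg Finset.card (hinst _ _)))
    have hlt' : (G.edgeFinset.card : ℝ) ≤ 36 * b * t * Fintype.card V := by
      have h1 : G.edgeFinset.card ≤ 36 * b * t * Fintype.card V := by
        have : 4 * (9 * b * t) * Fintype.card V = 36 * b * t * Fintype.card V := by ring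
        omega
      exact_mod_cast h1
    have hbub : (b : ℝ) ≤ 10 * Real.sqrt (Real.log t) + 1 := by
      rw [hb]
      exact (Nat.ceil_lt_add_one (by positivity)).le
    have hb' : 36 * (b : ℝ) ≤ 432 * Real.sqrt (Real.log t) := by linarith
    have htn : (0 : ℝ) ≤ t * Fintype.card V := by positivity
    calc (G.edgeFinset.card : ℝ) ≤ 36 * b * t * Fintype.card V := hlt'
      _ = (36 * (b : ℝ)) * (t * Fintype.card V) := by ring
      _ ≤ (432 * Real.sqrt (Real.log t)) * (t * Fintype.card V) :=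
          mul_le_mul_of_nonneg_right hb' htn
      _ = _ := by ring

end Pool.Agent.BoxMinor
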