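import Mathlib

set_option autoImplicit false
set_option linter.unusedSectionVars false

/-!
Elementary finite probability on the space `I → Fin q` with the uniform measure.
-/

namespace Pool.Agent.BoxMinor.Low

open Finset
open scoped Classical

variable {I : Type*} [Fintype I] [DecidableEq I] {q : ℕ} [NeZero q]

/-- Probability of an event on the uniform space `I → Fin q`. -/
noncomputable def pr (E : (I → Fin q) → Prop) : ℝ :=
  ((univ.filter E).card : ℝ) / (Fintype.card (I → Fin q) : ℝ)

lemma pr_def (E : (I → Fin q) → Prop) [inst : DecidablePred E] :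
    pr E = ((univ.filter E).card : ℝ) / (Fintype.card (I → Fin q) : ℝ) := by
  unfold pr
  have h : ∀ (i1 i2 : DecidablePred E), (@Finset.filter _ E i1 univ).card =
      (@Finset.filter _ E i2 univ).card := by
    intro i1 i2
    rw [Subsingleton.elim i1 i2]
  rw [h _ inst]

/-- The event `E` is determined by the coordinates in `S`. -/
def DetBy (E : (I → Fin q) → Prop) (S : Finset I) : Prop :=
  ∀ ω ω' : I → Fin q, (∀ i ∈ S, ω i = ω' i) → (E ω ↔ E ω')

lemma card_pos' : (0 : ℝ) < (Fintype.card (I → Fin q) : ℝ) := by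
  have : 0 < Fintype.card (I → Fin q) := Fintype.card_pos_iff.mpr ⟨fun _ => 0⟩
  exact_mod_cast this

lemma pr_nonneg (E : (I → Fin q) → Prop) : 0 ≤ pr E := by
  unfold pr; positivity

lemma pr_mono {E F : (I → Fin q) → Prop} (h : ∀ ω, E ω → F ω) : pr E ≤ pr F := by
  unfold pr
  apply div_le_div_of_nonneg_right _ card_pos'.le
  exact_mod_cast card_le_card (fun ω hω => by
    rw [mem_filter] at hω ⊢
    exact ⟨hω.1, h ω hω.2⟩)

lemma pr_congr {E F : (I → Fin q) → Prop} (h : ∀ ω, E ω ↔ F ω) : pr E = pr F := by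
  have : E = F := by ext ω; exact h ω
  rw [this]

lemma pr_true : pr (fun _ : I → Fin q => True) = 1 := by
  unfold pr
  rw [filter_true, card_univ, div_self card_pos'.ne']

lemma pr_le_one (E : (I → Fin q) → Prop) : pr E ≤ 1 := by
  rw [← pr_true (I := I) (q := q)]
  exact pr_mono (fun _ _ => trivial)

lemma pr_not (E : (I → Fin q) → Prop) : pr (fun ω => ¬ E ω) = 1 - pr E := by
  rw [pr_def (fun ω => ¬ E ω), pr_def E]
  rw [eq_sub_iff_add_eq, ← add_div, div_eq_one_iff_eq card_pos'.ne']
  have := card_filter_add_card_filter_not (s := (univ : Finset (I → Fin q))) E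
  rw [card_univ] at this
  have h2 : (univ.filter (fun ω => ¬ E ω)).card + (univ.filter E).card =
    Fintype.card (I → Fin q) := by omega
  exact_mod_cast h2

lemma exists_of_pr_pos {E : (I → Fin q) → Prop} (h : 0 < pr E) : ∃ ω, E ω := by
  by_contra hcon
  push Not at hcon
  unfold pr at h
  rw [filter_false_of_mem (fun ω _ => hcon ω)] at h
  simp at h

lemma pr_or (E F : (I → Fin q) → Prop) : pr (fun ω => E ω ∨ F ω) ≤ pr E + pr F := by
  rw [pr_def (fun ω => E ω ∨ F ω), pr_def E, pr_def F]
  rw [← add_div]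
  apply div_le_div_of_nonneg_right _ card_pos'.le
  rw [filter_or]
  exact_mod_cast card_union_le _ _

lemma pr_exists {κ : Type*} (s : Finset κ) (E : κ → (I → Fin q) → Prop) :
    pr (fun ω => ∃ i ∈ s, E i ω) ≤ ∑ i ∈ s, pr (E i) := by
  induction s using Finset.induction_on with
  | empty =>
    simp only [notMem_empty, false_and, exists_false, sum_empty]
    unfold pr
    simp
  | insert a s ha ih =>
    rw [sum_insert ha]
    refine le_trans (pr_mono (F := fun ω => E a ω ∨ ∃ i ∈ s, E i ω) ?_) ((pr_or _ _).trans ?_)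
    · rintro ω ⟨i, hi, h⟩
      rw [mem_insert] at hi
      rcases hi with rfl | hi
      · exact Or.inl h
      · exact Or.inr ⟨i, hi, h⟩
    · gcongr

lemma pr_exists_le {κ : Type*} [Fintype κ] (E : κ → (I → Fin q) → Prop) (c : ℝ)
    (h : ∀ i, pr (E i) ≤ c) :
    pr (fun ω => ∃ i, E i ω) ≤ Fintype.card κ * c := by
  refine (pr_mono (F := fun ω => ∃ i ∈ (univ : Finset κ), E i ω) ?_).trans ?_
  · rintro ω ⟨i, hi⟩
    exact ⟨i, mem_univ _, hi⟩
  · refine (pr_exists _ _).trans ?_
    refine (sum_le_sum fun i _ => h i).trans ?_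
    rw [sum_const, nsmul_eq_mul, card_univ]

lemma DetBy.mono {E : (I → Fin q) → Prop} {S T : Finset I} (h : DetBy E S) (hST : S ⊆ T) :
    DetBy E T := fun ω ω' hω => h ω ω' fun i hi => hω i (hST hi)

lemma DetBy.and {E F : (I → Fin q) → Prop} {S T : Finset I} (hE : DetBy E S) (hF : DetBy F T) :
    DetBy (fun ω => E ω ∧ F ω) (S ∪ T) := fun ω ω' hω =>
  and_congr (hE ω ω' fun i hi => hω i (mem_union_left _ hi))
    (hF ω ω' fun i hi => hω i (mem_union_right _ hi))

lemma DetBy.not {E : (I → Fin q) → Prop} {S : Finset I} (hE : DetBy E S) :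
    DetBy (fun ω => ¬ E ω) S := fun ω ω' hω => not_congr (hE ω ω' hω)

lemma DetBy.forall_mem {κ : Type*} {E : κ → (I → Fin q) → Prop} {s : Finset κ}
    {S : κ → Finset I} (h : ∀ i ∈ s, DetBy (E i) (S i)) :
    DetBy (fun ω => ∀ i ∈ s, E i ω) (s.biUnion S) := fun ω ω' hω =>
  forall₂_congr fun i hi => h i hi ω ω' fun j hj => hω j (mem_biUnion.mpr ⟨i, hi, hj⟩)

/-- Independence of two events determined by disjoint sets of coordinates. -/
lemma indep2 {E F : (I → Fin q) → Prop} {S T : Finset I} (hE : DetBy E S) (hF : DetBy F T)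
    (hST : Disjoint S T) : pr (fun ω => E ω ∧ F ω) = pr E * pr F := by
  rw [pr_def (fun ω => E ω ∧ F ω), pr_def E, pr_def F]
  rw [div_mul_div_comm, div_eq_div_iff card_pos'.ne' (mul_pos card_pos' card_pos').ne']
  have key : (univ.filter (fun ω => E ω ∧ F ω)).card * Fintype.card (I → Fin q) =
      (univ.filter E).card * (univ.filter F).card := by
    rw [← card_univ, ← card_product, ← card_product]
    have agS : ∀ (a b : I → Fin q) (i : I), i ∈ S → S.piecewise a b i = a i :=
      fun a b i hi => piecewise_eq_of_mem _ _ _ hi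
    have agT : ∀ (a b : I → Fin q) (i : I), i ∈ T → S.piecewise a b i = b i :=
      fun a b i hi => piecewise_eq_of_notMem _ _ _ (fun h => disjoint_left.mp hST h hi)
    have inv : ∀ a b : I → Fin q, S.piecewise (S.piecewise a b) (S.piecewise b a) = a := by
      intro a b
      ext i
      by_cases hi : i ∈ S <;> simp [hi]
    refine card_nbij' (fun p => (S.piecewise p.1 p.2, S.piecewise p.2 p.1))
      (fun p => (S.piecewise p.1 p.2, S.piecewise p.2 p.1)) ?_ ?_ ?_ ?_
    · rintro ⟨a, b⟩ hab
      simp only [coe_product, Set.mem_prod, mem_coe, mem_filter, mem_univ, true_and,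
        and_true] at hab ⊢
      constructor
      · exact (hE _ _ fun i hi => agS a b i hi).mpr hab.1
      · exact (hF _ _ fun i hi => agT b a i hi).mpr hab.2
    · rintro ⟨a, b⟩ hab
      simp only [coe_product, Set.mem_prod, mem_coe, mem_filter, mem_univ, true_and,
        and_true] at hab ⊢
      constructor
      · exact (hE _ _ fun i hi => agS a b i hi).mpr hab.1
      · exact (hF _ _ fun i hi => agT a b i hi).mpr hab.2
    · rintro ⟨a, b⟩ _
      simp only [inv]
    · rintro ⟨a, b⟩ _
      simp only [inv]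
  have key' : ((univ.filter (fun ω => E ω ∧ F ω)).card : ℝ) * (Fintype.card (I → Fin q) : ℝ) =
      ((univ.filter E).card : ℝ) * ((univ.filter F).card : ℝ) := by exact_mod_cast key
  rw [← mul_assoc, key']

/-- Independence of a family of events determined by pairwise disjoint sets of coordinates. -/
lemma indepFam {κ : Type*} (s : Finset κ) (E : κ → (I → Fin q) → Prop) (S : κ → Finset I)
    (hE : ∀ i ∈ s, DetBy (E i) (S i))
    (hS : ∀ i ∈ s, ∀ j ∈ s, i ≠ j → Disjoint (S i) (S j)) :
    pr (fun ω => ∀ i ∈ s, E i ω) = ∏ i ∈ s, pr (E i) := by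
  induction s using Finset.induction_on with
  | empty =>
    simp only [notMem_empty, false_imp_iff, implies_true, prod_empty]
    exact pr_true
  | insert a s ha ih =>
    rw [prod_insert ha]
    have ih' := ih (fun i hi => hE i (mem_insert_of_mem hi))
      (fun i hi j hj => hS i (mem_insert_of_mem hi) j (mem_insert_of_mem hj))
    rw [← ih']
    rw [← indep2 (hE a (mem_insert_self _ _))
      (DetBy.forall_mem fun i hi => hE i (mem_insert_of_mem hi))]
    · apply pr_congr
      intro ω
      exact forall_mem_insert _ _ _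
    · rw [disjoint_biUnion_right]
      intro i hi
      exact hS a (mem_insert_self _ _) i (mem_insert_of_mem hi) (fun h => ha (h ▸ hi))

/-- A decreasing event (zero cells favour it). -/
def Down (E : (I → Fin q) → Prop) : Prop := ∀ ω ω' : I → Fin q, ω ≤ ω' → E ω' → E ω

/-- Harris inequality. -/
lemma harris {E F : (I → Fin q) → Prop} (hE : Down E) (hF : Down F) :
    pr E * pr F ≤ pr (fun ω => E ω ∧ F ω) := by
  have h := fkg (α := (I → Fin q)ᵒᵈ) (β := ℝ) (μ := fun _ => 1)
    (f := fun ω => if E (OrderDual.ofDual ω) then 1 else 0)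
    (g := fun ω => if F (OrderDual.ofDual ω) then 1 else 0)
    (fun _ => zero_le_one) (fun _ => by positivity) (fun _ => by positivity)
    (by
      intro a b hab
      simp only
      by_cases h : E (OrderDual.ofDual a)
      · have : E (OrderDual.ofDual b) := hE _ _ (OrderDual.ofDual_le_ofDual.mpr hab) h
        simp [h, this]
      · rw [if_neg h]; positivity)
    (by
      intro a b hab
      simp only
      by_cases h : F (OrderDual.ofDual a)
      · have : F (OrderDual.ofDual b) := hF _ _ (OrderDual.ofDual_le_ofDual.mpr hab) h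
        simp [h, this]
      · rw [if_neg h]; positivity)
    (fun _ _ => by simp)
  have hsum : ∀ (G : (I → Fin q) → Prop) [DecidablePred G],
      (∑ a : (I → Fin q)ᵒᵈ, (if G (OrderDual.ofDual a) then (1 : ℝ) else 0)) =
      ((univ.filter G).card : ℝ) := by
    intro G _
    rw [card_filter]
    push_cast
    exact (Equiv.sum_comp (OrderDual.ofDual (α := I → Fin q)) (fun ω => if G ω then (1 : ℝ) else 0))
  simp only [one_mul] at h
  rw [hsum, hsum] at h
  have h2 : ∀ a : (I → Fin q)ᵒᵈ, ((if E (OrderDual.ofDual a) then (1 : ℝ) else 0) *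
      (if F (OrderDual.ofDual a) then (1 : ℝ) else 0)) =
      if (E (OrderDual.ofDual a) ∧ F (OrderDual.ofDual a)) then (1 : ℝ) else 0 := by
    intro a
    by_cases h1 : E (OrderDual.ofDual a) <;> by_cases h2 : F (OrderDual.ofDual a) <;> simp [h1, h2]
  simp_rw [h2] at h
  rw [hsum (fun ω => E ω ∧ F ω)] at h
  have h3 : (∑ _a : (I → Fin q)ᵒᵈ, (1 : ℝ)) = (Fintype.card (I → Fin q) : ℝ) := by
    rw [sum_const, nsmul_eq_mul, mul_one, card_univ]
    rfl
  rw [h3] at h
  rw [pr_def (fun ω => E ω ∧ F ω), pr_def E, pr_def F]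
  rw [div_mul_div_comm, div_le_div_iff₀ (mul_pos card_pos' card_pos') card_pos']
  have hc := card_pos' (I := I) (q := q)
  nlinarith

lemma Down.forall_mem {κ : Type*} {E : κ → (I → Fin q) → Prop} {s : Finset κ}
    (h : ∀ i ∈ s, Down (E i)) : Down (fun ω => ∀ i ∈ s, E i ω) :=
  fun ω ω' hω hE i hi => h i hi ω ω' hω (hE i hi)

lemma harrisFam {κ : Type*} (s : Finset κ) (E : κ → (I → Fin q) → Prop)
    (hE : ∀ i ∈ s, Down (E i)) :
    ∏ i ∈ s, pr (E i) ≤ pr (fun ω => ∀ i ∈ s, E i ω) := by
  induction s using Finset.induction_on with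
  | empty =>
    simp only [notMem_empty, false_imp_iff, implies_true, prod_empty]
    exact pr_true.symm.le
  | insert a s ha ih =>
    rw [prod_insert ha]
    have ih' := ih (fun i hi => hE i (mem_insert_of_mem hi))
    calc pr (E a) * ∏ i ∈ s, pr (E i) ≤ pr (E a) * pr (fun ω => ∀ i ∈ s, E i ω) :=
          mul_le_mul_of_nonneg_left ih' (pr_nonneg _)
      _ ≤ pr (fun ω => E a ω ∧ ∀ i ∈ s, E i ω) :=
          harris (hE a (mem_insert_self _ _))
            (Down.forall_mem fun i hi => hE i (mem_insert_of_mem hi))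
      _ = _ := by
          apply pr_congr
          intro ω
          exact (forall_mem_insert a s (fun i => E i ω)).symm

/-- probability that a given coordinate is zero -/
lemma pr_zero (i : I) : pr (fun ω : I → Fin q => ω i = 0) = 1 / q := by
  rw [pr_def (fun ω : I → Fin q => ω i = 0)]
  have hq : (0 : ℝ) < q := by exact_mod_cast Nat.pos_of_ne_zero (NeZero.ne q)
  rw [div_eq_div_iff card_pos'.ne' hq.ne', one_mul]
  have h1 : ∀ c : Fin q, (univ.filter (fun ω : I → Fin q => ω i = c)).card =
      (univ.filter (fun ω : I → Fin q => ω i = 0)).card := by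
    intro c
    refine card_nbij' (fun ω => Function.update ω i 0) (fun ω => Function.update ω i c)
      ?_ ?_ ?_ ?_
    · intro ω _; simp
    · intro ω _; simp
    · intro ω hω
      simp only [coe_filter, mem_univ, true_and, Set.mem_ofPred_eq] at hω
      simp only [Function.update_idem]
      rw [← hω, Function.update_eq_self]
    · intro ω hω
      simp only [coe_filter, mem_univ, true_and, Set.mem_ofPred_eq] at hω
      simp only [Function.update_idem]
      rw [← hω, Function.update_eq_self]
  have h2 : Fintype.card (I → Fin q) = ∑ c : Fin q,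
      (univ.filter (fun ω : I → Fin q => ω i = c)).card := by
    rw [← card_univ]
    exact card_eq_sum_card_fiberwise (f := fun ω : I → Fin q => ω i) (t := univ)
      (fun ω _ => by simp)
  simp_rw [h1] at h2
  rw [sum_const, card_univ, Fintype.card_fin, smul_eq_mul] at h2
  rw [h2]
  push_cast
  ring

lemma pr_ne_zero (i : I) : pr (fun ω : I → Fin q => ω i ≠ 0) = 1 - 1 / q := by
  rw [← pr_zero i, ← pr_not]

/-- probability that all coordinates in `T` are nonzero -/
lemma pr_all_ne (T : Finset I) :
    pr (fun ω : I → Fin q => ∀ i ∈ T, ω i ≠ 0) = (1 - 1 / (q : ℝ)) ^ T.card := by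
  rw [indepFam T (fun i ω => ω i ≠ 0) (fun i => {i})]
  · simp_rw [pr_ne_zero]
    rw [prod_const]
  · intro i _ ω ω' h
    show ω i ≠ 0 ↔ ω' i ≠ 0
    rw [h i (mem_singleton_self i)]
  · intro i _ j _ hij
    rw [disjoint_singleton]
    exact hij

lemma pr_exists_zero (T : Finset I) :
    pr (fun ω : I → Fin q => ∃ i ∈ T, ω i = 0) = 1 - (1 - 1 / (q : ℝ)) ^ T.card := by
  rw [← pr_all_ne T, ← pr_not]
  apply pr_congr
  intro ω
  push Not
  rfl

lemma down_exists_zero (T : Finset I) : Down (fun ω : I → Fin q => ∃ i ∈ T, ω i = 0) := by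
  rintro ω ω' h ⟨i, hi, h0⟩
  refine ⟨i, hi, ?_⟩
  have h1 := h i
  rw [h0] at h1
  exact le_antisymm h1 (Fin.zero_le _)

lemma det_exists_zero (T : Finset I) : DetBy (fun ω : I → Fin q => ∃ i ∈ T, ω i = 0) T := by
  intro ω ω' h
  constructor
  · rintro ⟨i, hi, h0⟩; exact ⟨i, hi, by rw [← h i hi]; exact h0⟩
  · rintro ⟨i, hi, h0⟩; exact ⟨i, hi, by rw [h i hi]; exact h0⟩

lemma det_ne (i : I) : DetBy (fun ω : I → Fin q => ω i ≠ 0) {i} := by
  intro ω ω' h
  show ω i ≠ 0 ↔ ω' i ≠ 0
  rw [h i (mem_singleton_self i)]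

end Pool.Agent.BoxMinor.Low
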