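import Mathlib

set_option autoImplicit false

/-!
The weight function `w q k = -log (1 - (1 - 1/q)^k)` and the bound on its sum.
-/

namespace Pool.Agent.BoxMinor.Low

open Finset

/-- minus the logarithm of the probability that one of `k` cells is a one -/
noncomputable def w (q k : ℕ) : ℝ := -Real.log (1 - (1 - 1 / (q : ℝ)) ^ k)

lemma w_zero (q : ℕ) : w q 0 = 0 := by simp [w]

lemma phi_pos {q k : ℕ} (hq : 2 ≤ q) (hk : 1 ≤ k) : 0 < 1 - (1 - 1 / (q : ℝ)) ^ k := by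
  have hq' : (2 : ℝ) ≤ q := by exact_mod_cast hq
  have h1 : (0 : ℝ) < 1 / q := by positivity
  have h2 : 1 / (q : ℝ) ≤ 1 / 2 := by
    apply one_div_le_one_div_of_le (by norm_num) hq'
  have h3 : (1 - 1 / (q : ℝ)) ^ k < 1 := pow_lt_one₀ (by linarith) (by linarith) (by omega)
  linarith

lemma w_nonneg {q : ℕ} (hq : 2 ≤ q) (k : ℕ) : 0 ≤ w q k := by
  rcases Nat.eq_zero_or_pos k with rfl | hk
  · rw [w_zero]
  · unfold w
    have hq' : (2 : ℝ) ≤ q := by exact_mod_cast hq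
    have h2 : 1 / (q : ℝ) ≤ 1 / 2 := one_div_le_one_div_of_le (by norm_num) hq'
    have h1 := phi_pos hq hk
    have h3 : (0 : ℝ) ≤ (1 - 1 / (q : ℝ)) ^ k := by
      apply pow_nonneg; linarith
    have := Real.log_nonpos h1.le (by linarith)
    linarith

lemma exp_neg_w {q k : ℕ} (hq : 2 ≤ q) (hk : 1 ≤ k) :
    Real.exp (-(w q k)) = 1 - (1 - 1 / (q : ℝ)) ^ k := by
  unfold w
  rw [neg_neg, Real.exp_log (phi_pos hq hk)]

lemma pow_q_le_half {q : ℕ} (hq : 2 ≤ q) : (1 - 1 / (q : ℝ)) ^ q ≤ 1 / 2 := by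
  have hq' : (2 : ℝ) ≤ q := by exact_mod_cast hq
  have hqpos : (0 : ℝ) < q := by linarith
  have h2 : 1 / (q : ℝ) ≤ 1 / 2 := one_div_le_one_div_of_le (by norm_num) hq'
  have h3 : (1 - 1 / (q : ℝ)) * (1 + 1 / q) ≤ 1 := by
    have : (0 : ℝ) ≤ (1 / q) ^ 2 := by positivity
    nlinarith
  have h4 : (2 : ℝ) ≤ (1 + 1 / (q : ℝ)) ^ q := by
    have := one_add_mul_le_pow (a := 1 / (q : ℝ)) (by linarith [show (0:ℝ) < 1 / q by positivity]) q
    have h5 : (q : ℝ) * (1 / q) = 1 := by field_simp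
    linarith
  have h5 : (1 - 1 / (q : ℝ)) ^ q * (1 + 1 / (q : ℝ)) ^ q ≤ 1 := by
    rw [← mul_pow]
    exact pow_le_one₀ (mul_nonneg (by linarith) (by positivity)) h3
  have h6 : (0 : ℝ) ≤ (1 - 1 / (q : ℝ)) ^ q := pow_nonneg (by linarith) _
  nlinarith

lemma quarter_le_pow {q : ℕ} (hq : 2 ≤ q) (r : ℕ) (hr : q = 2 * r) :
    1 / 4 ≤ (1 - 1 / (q : ℝ)) ^ q := by
  have hq' : (2 : ℝ) ≤ q := by exact_mod_cast hq
  have h2 : 1 / (q : ℝ) ≤ 1 / 2 := one_div_le_one_div_of_le (by norm_num) hq'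
  have h1 : 1 + (r : ℝ) * (-(1 / (q : ℝ))) ≤ (1 + -(1 / (q : ℝ))) ^ r :=
    one_add_mul_le_pow (by linarith) r
  have h3 : (r : ℝ) * (1 / (q : ℝ)) = 1 / 2 := by
    have hrpos : (0 : ℝ) < r := by
      have : 0 < r := by omega
      exact_mod_cast this
    rw [hr]; push_cast; field_simp
  have h4 : (1 : ℝ) / 2 ≤ (1 - 1 / (q : ℝ)) ^ r := by
    have : 1 + -(1 / (q : ℝ)) = 1 - 1 / q := by ring
    rw [this] at h1
    linarith
  have h5 : (1 - 1 / (q : ℝ)) ^ q = ((1 - 1 / (q : ℝ)) ^ r) ^ 2 := by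
    rw [← pow_mul]; congr 1; omega
  rw [h5]
  nlinarith

lemma w_le_small {q k : ℕ} (hq : 2 ≤ q) (hk : 1 ≤ k) (hkq : k ≤ q) :
    w q k ≤ Real.log (2 * q / k) := by
  have hq' : (2 : ℝ) ≤ q := by exact_mod_cast hq
  have hk' : (1 : ℝ) ≤ k := by exact_mod_cast hk
  have hkq' : (k : ℝ) ≤ q := by exact_mod_cast hkq
  have hqpos : (0 : ℝ) < q := by linarith
  have h2 : 1 / (q : ℝ) ≤ 1 / 2 := one_div_le_one_div_of_le (by norm_num) hq'
  have h2' : (0 : ℝ) < 1 / q := by positivity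
  have h3 : (1 - 1 / (q : ℝ)) * (1 + 1 / q) ≤ 1 := by nlinarith
  have h4 : 1 + (k : ℝ) * (1 / q) ≤ (1 + 1 / (q : ℝ)) ^ k :=
    one_add_mul_le_pow (by linarith) k
  have h5 : (1 - 1 / (q : ℝ)) ^ k * (1 + 1 / (q : ℝ)) ^ k ≤ 1 := by
    rw [← mul_pow]
    exact pow_le_one₀ (mul_nonneg (by linarith) (by positivity)) h3
  have h6 : (0 : ℝ) ≤ (1 - 1 / (q : ℝ)) ^ k := pow_nonneg (by linarith) _
  set x : ℝ := (k : ℝ) * (1 / q) with hx
  have hx0 : 0 < x := by positivity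
  have hx1 : x ≤ 1 := by
    rw [hx, mul_one_div, div_le_one hqpos]; exact hkq'
  have h7 : (1 - 1 / (q : ℝ)) ^ k * (1 + x) ≤ 1 :=
    (mul_le_mul_of_nonneg_left h4 h6).trans h5
  have h8 : x / 2 ≤ 1 - (1 - 1 / (q : ℝ)) ^ k := by
    have h9 : (1 : ℝ) ≤ (1 - x / 2) * (1 + x) := by nlinarith
    have h10 : (1 - 1 / (q : ℝ)) ^ k * (1 + x) ≤ (1 - x / 2) * (1 + x) := h7.trans h9
    have := le_of_mul_le_mul_right h10 (by linarith)
    linarith
  unfold w
  have h11 : Real.log (x / 2) ≤ Real.log (1 - (1 - 1 / (q : ℝ)) ^ k) :=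
    Real.log_le_log (by positivity) h8
  have h12 : (2 * q / k : ℝ) = (x / 2)⁻¹ := by
    rw [hx]; field_simp
  rw [h12, Real.log_inv]
  linarith

lemma w_le_large {q k : ℕ} (hq : 2 ≤ q) (hkq : q ≤ k) :
    w q k ≤ 2 * (1 - 1 / (q : ℝ)) ^ k := by
  have hq' : (2 : ℝ) ≤ q := by exact_mod_cast hq
  have h2 : 1 / (q : ℝ) ≤ 1 / 2 := one_div_le_one_div_of_le (by norm_num) hq'
  have h2' : (0 : ℝ) < 1 / q := by positivity
  have hu : (1 - 1 / (q : ℝ)) ^ k ≤ 1 / 2 := by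
    refine le_trans ?_ (pow_q_le_half hq)
    exact pow_le_pow_of_le_one (by linarith) (by linarith) hkq
  have hu0 : (0 : ℝ) ≤ (1 - 1 / (q : ℝ)) ^ k := pow_nonneg (by linarith) _
  set u := (1 - 1 / (q : ℝ)) ^ k with hudef
  have h3 : (0 : ℝ) < 1 - u := by linarith
  have h4 := Real.one_sub_inv_le_log_of_pos h3
  have h5 : (1 - u)⁻¹ ≤ 1 + 2 * u := by
    rw [inv_le_iff_one_le_mul₀ h3]
    nlinarith
  unfold w
  rw [← hudef]
  linarith

lemma sum_w_le {q : ℕ} (hq : 2 ≤ q) (K : ℕ) : ∑ k ∈ range K, w q k ≤ 4 * q := by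
  have hq' : (2 : ℝ) ≤ q := by exact_mod_cast hq
  have hqpos : (0 : ℝ) < q := by linarith
  have h2 : 1 / (q : ℝ) ≤ 1 / 2 := one_div_le_one_div_of_le (by norm_num) hq'
  have h2' : (0 : ℝ) < 1 / q := by positivity
  set g : ℕ → ℝ := fun k => if 1 ≤ k ∧ k ≤ q then Real.log (2 * q / k) else 0 with hg
  have hlog : ∀ k : ℕ, 1 ≤ k → k ≤ q → 0 ≤ Real.log (2 * q / k) := by
    intro k hk hkq
    apply Real.log_nonneg
    have hk' : (1 : ℝ) ≤ k := by exact_mod_cast hk
    have hkq' : (k : ℝ) ≤ q := by exact_mod_cast hkq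
    rw [one_le_div (by linarith)]
    linarith
  have hg0 : ∀ k, 0 ≤ g k := by
    intro k
    simp only [hg]
    split_ifs with h
    · exact hlog k h.1 h.2
    · exact le_rfl
  have hpow : ∀ k : ℕ, (0 : ℝ) ≤ (1 - 1 / (q : ℝ)) ^ k := fun k => pow_nonneg (by linarith) _
  have hbound : ∀ k, w q k ≤ g k + 2 * (1 - 1 / (q : ℝ)) ^ k := by
    intro k
    rcases Nat.eq_zero_or_pos k with rfl | hk
    · rw [w_zero]
      have := hg0 0
      have := hpow 0
      positivity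
    · by_cases hkq : k ≤ q
      · have h1 := w_le_small hq hk hkq
        have h3 : g k = Real.log (2 * q / k) := by
          simp only [hg]; rw [if_pos ⟨hk, hkq⟩]
        have := hpow k
        rw [h3]; linarith
      · have h1 := w_le_large hq (by omega : q ≤ k)
        have := hg0 k
        linarith
  have hsum1 : ∑ k ∈ range K, 2 * (1 - 1 / (q : ℝ)) ^ k ≤ 2 * q := by
    rw [← mul_sum]
    have h3 : (1 - 1 / (q : ℝ)) ≠ 1 := by linarith
    rw [geom_sum_eq h3]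
    have h4 : ((1 - 1 / (q : ℝ)) ^ K - 1) / (1 - 1 / (q : ℝ) - 1) =
        q * (1 - (1 - 1 / (q : ℝ)) ^ K) := by
      have : (1 - 1 / (q : ℝ) - 1) = - (1 / q) := by ring
      rw [this]
      field_simp
      ring
    rw [h4]
    have := hpow K
    nlinarith
  have hsum2 : ∑ k ∈ range K, g k ≤ 2 * q := by
    have h3 : ∑ k ∈ range K, g k ≤ ∑ k ∈ range (q + 1), g k := by
      calc ∑ k ∈ range K, g k = ∑ k ∈ (range K).filter (fun k => k ≤ q), g k := by
            rw [sum_filter]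
            apply sum_congr rfl
            intro k _
            split_ifs with h
            · rfl
            · simp only [hg]; rw [if_neg (fun h' => h h'.2)]
        _ ≤ ∑ k ∈ range (q + 1), g k := by
            apply sum_le_sum_of_subset_of_nonneg
            · intro k hk
              rw [mem_filter] at hk
              rw [mem_range]; omega
            · intros; exact hg0 _
    refine h3.trans ?_
    rw [sum_range_succ']
    have h4 : g 0 = 0 := by simp [hg]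
    rw [h4, add_zero]
    have h5 : ∀ k ∈ range q, g (k + 1) = Real.log (2 * q / ((k : ℝ) + 1)) := by
      intro k hk
      rw [mem_range] at hk
      simp only [hg]
      rw [if_pos ⟨by omega, by omega⟩]
      push_cast; rfl
    rw [sum_congr rfl h5, ← Real.log_prod]
    · have h6 : ∏ k ∈ range q, (2 * q / ((k : ℝ) + 1)) = (2 * (q : ℝ)) ^ q / (q.factorial : ℝ) := by
        rw [prod_div_distrib, prod_const, card_range]
        congr 1
        rw [← prod_range_add_one_eq_factorial]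
        push_cast; rfl
      rw [h6]
      have h7 := Real.pow_div_factorial_le_exp (x := 2 * (q : ℝ)) (by positivity) q
      have h8 : (0 : ℝ) < (2 * (q : ℝ)) ^ q / (q.factorial : ℝ) := by positivity
      calc Real.log ((2 * (q : ℝ)) ^ q / (q.factorial : ℝ)) ≤ Real.log (Real.exp (2 * q)) :=
            Real.log_le_log h8 h7
        _ = 2 * q := Real.log_exp _
    · intro k _
      positivity
  calc ∑ k ∈ range K, w q k ≤ ∑ k ∈ range K, (g k + 2 * (1 - 1 / (q : ℝ)) ^ k) :=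
        sum_le_sum fun k _ => hbound k
    _ = ∑ k ∈ range K, g k + ∑ k ∈ range K, 2 * (1 - 1 / (q : ℝ)) ^ k := sum_add_distrib
    _ ≤ 2 * q + 2 * q := add_le_add hsum2 hsum1
    _ = _ := by ring

end Pool.Agent.BoxMinor.Low
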