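import Mathlib
import Pool.Agent.BoxMinor.LowerW

set_option autoImplicit false

/-!
Selection of many rows with disjoint supports.
-/

namespace Pool.Agent.BoxMinor.Low

open Finset
open scoped Classical

/-- Greedy independent set for a symmetric relation of bounded degree. -/
lemma exists_indep {α : Type*} [Fintype α] (R : Finset α) (conf : α → α → Prop)
    (hsymm : ∀ a b, conf a b → conf b a) (D : ℕ)
    (hD : ∀ a ∈ R, (univ.filter (fun b => conf a b)).card ≤ D) :
    ∃ A ⊆ R, (∀ a ∈ A, ∀ b ∈ A, a ≠ b → ¬ conf a b) ∧ R.card ≤ (D + 1) * A.card := by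
  obtain ⟨A, hA, hmax⟩ := exists_max_image
    (R.powerset.filter (fun A => ∀ a ∈ A, ∀ b ∈ A, a ≠ b → ¬ conf a b)) card
    ⟨∅, by simp⟩
  rw [mem_filter, mem_powerset] at hA
  refine ⟨A, hA.1, hA.2, ?_⟩
  have hcov : R ⊆ A.biUnion (fun a => insert a (univ.filter (fun b => conf a b))) := by
    intro r hr
    rw [mem_biUnion]
    by_contra hcon
    push Not at hcon
    have hrA : r ∉ A := fun h => hcon r h (mem_insert_self _ _)
    have hrc : ∀ a ∈ A, ¬ conf a r := by
      intro a ha h
      exact hcon a ha (mem_insert_of_mem (by rw [mem_filter]; exact ⟨mem_univ _, h⟩))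
    have h1 : insert r A ∈ R.powerset.filter (fun A => ∀ a ∈ A, ∀ b ∈ A, a ≠ b → ¬ conf a b) := by
      rw [mem_filter, mem_powerset]
      refine ⟨insert_subset hr hA.1, ?_⟩
      intro a ha b hb hab
      rw [mem_insert] at ha hb
      rcases ha with rfl | ha <;> rcases hb with rfl | hb
      · exact absurd rfl hab
      · exact fun h => hrc b hb (hsymm _ _ h)
      · exact hrc a ha
      · exact hA.2 a ha b hb hab
    have h2 := hmax _ h1
    rw [card_insert_of_notMem hrA] at h2
    omega
  calc R.card ≤ (A.biUnion (fun a => insert a (univ.filter (fun b => conf a b)))).card :=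
        card_le_card hcov
    _ ≤ ∑ a ∈ A, (insert a (univ.filter (fun b => conf a b))).card := card_biUnion_le
    _ ≤ ∑ a ∈ A, (D + 1) := by
        apply sum_le_sum
        intro a ha
        exact (card_insert_le _ _).trans (Nat.succ_le_succ (hD a (hA.1 ha)))
    _ = (D + 1) * A.card := by rw [sum_const, smul_eq_mul, mul_comm]

theorem select (q n K : ℕ) (hq : 2 ≤ q) {J : Type*} [Fintype J] (x : J → Fin K → Fin n)
    (hx : ∀ j, Function.Injective (x j)) (hm : 84 * Fintype.card J ≤ n) :
    ∃ (A : Finset (Fin n)) (P : J × Fin K → Finset (Fin n)) (S : Fin n → Finset (Fin n)),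
      n ≤ 2 * (3 * K ^ 4 + 1) * A.card ∧
      (∀ p, ∀ c ∈ P p, ∃ k' < p.2, x p.1 k' = c) ∧
      (∀ a ∈ A, ∀ p : J × Fin K, x p.1 p.2 = a → P p ⊆ S a ∧ 1 ≤ (P p).card) ∧
      (∀ a ∈ A, a ∉ S a) ∧
      (∀ a ∈ A, ∀ b ∈ A, a ≠ b → Disjoint (S a) (S b) ∧ a ∉ S b) ∧
      (∀ a ∈ A, ∑ p ∈ univ.filter (fun p : J × Fin K => x p.1 p.2 = a),
        w q (P p).card ≤ q / 10) := by
  -- incidences
  set I : Fin n → Finset (J × Fin K) := fun a => univ.filter (fun p => x p.1 p.2 = a) with hI
  have hmemI : ∀ a p, p ∈ I a ↔ x p.1 p.2 = a := fun a p => by simp [hI]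
  set light : Fin n → Prop := fun a => (I a).card ≤ K with hlight
  set Q : J × Fin K → Finset (Fin K) :=
    fun p => univ.filter (fun k' => k' < p.2 ∧ light (x p.1 k')) with hQ
  have hmemQ : ∀ p k', k' ∈ Q p ↔ k' < p.2 ∧ light (x p.1 k') := fun p k' => by simp [hQ]
  set P : J × Fin K → Finset (Fin n) := fun p => (Q p).image (x p.1) with hP
  have hmemP : ∀ p c, c ∈ P p ↔ ∃ k', (k' < p.2 ∧ light (x p.1 k')) ∧ x p.1 k' = c := by
    intro p c
    simp only [hP, mem_image, hmemQ]
  have hPcard : ∀ p, (P p).card = (Q p).card := fun p => card_image_of_injective _ (hx p.1)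
  set S : Fin n → Finset (Fin n) := fun a => (I a).biUnion P with hS
  have hmemS : ∀ a c, c ∈ S a ↔ ∃ p, x p.1 p.2 = a ∧ c ∈ P p := by
    intro a c
    simp only [hS, mem_biUnion, hmemI]
  have hQlt : ∀ p, (Q p).card ≤ K := fun p => by
    refine (card_le_univ _).trans ?_
    rw [Fintype.card_fin]
  -- size bounds
  have hF2 : ∀ a, light a → (S a).card ≤ K * K := by
    intro a ha
    calc (S a).card ≤ ∑ p ∈ I a, (P p).card := card_biUnion_le
      _ ≤ ∑ p ∈ I a, K := sum_le_sum fun p _ => by rw [hPcard]; exact hQlt p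
      _ = (I a).card * K := by rw [sum_const, smul_eq_mul]
      _ ≤ K * K := Nat.mul_le_mul_right _ ha
  have hF3 : ∀ c, (univ.filter (fun a => c ∈ S a)).card ≤ K * K := by
    intro c
    by_cases hc : light c
    · have hsub : univ.filter (fun a => c ∈ S a) ⊆
          ((I c) ×ˢ (univ : Finset (Fin K))).image (fun r => x r.1.1 r.2) := by
        intro a ha
        rw [mem_filter] at ha
        obtain ⟨p, hp, hcp⟩ := (hmemS a c).mp ha.2
        obtain ⟨k', hk', hck⟩ := (hmemP p c).mp hcp
        rw [mem_image]
        exact ⟨((p.1, k'), p.2), by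
          rw [mem_product]
          exact ⟨(hmemI c (p.1, k')).mpr hck, mem_univ _⟩, hp⟩
      calc (univ.filter (fun a => c ∈ S a)).card ≤ _ := card_le_card hsub
        _ ≤ ((I c) ×ˢ (univ : Finset (Fin K))).card := card_image_le
        _ = (I c).card * K := by rw [card_product, card_univ, Fintype.card_fin]
        _ ≤ K * K := Nat.mul_le_mul_right _ hc
    · have : univ.filter (fun a => c ∈ S a) = ∅ := by
        rw [filter_eq_empty_iff]
        intro a _ h
        obtain ⟨p, hp, hcp⟩ := (hmemS a c).mp h
        obtain ⟨k', hk', hck⟩ := (hmemP p c).mp hcp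
        exact hc (hck ▸ hk'.2)
      rw [this]
      simp
  -- the conflict relation
  set conf : Fin n → Fin n → Prop := fun a b => ¬ Disjoint (S a) (S b) ∨ a ∈ S b ∨ b ∈ S a
    with hconf
  have hsymm : ∀ a b, conf a b → conf b a := by
    rintro a b (h | h | h)
    · exact Or.inl (fun h' => h h'.symm)
    · exact Or.inr (Or.inr h)
    · exact Or.inr (Or.inl h)
  have hdeg : ∀ a, light a → (univ.filter (fun b => conf a b)).card ≤ 3 * K ^ 4 := by
    intro a ha
    have hsub : univ.filter (fun b => conf a b) ⊆
        ((S a).biUnion (fun c => univ.filter (fun b => c ∈ S b)) ∪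
          univ.filter (fun b => a ∈ S b)) ∪ S a := by
      intro b hb
      rw [mem_filter] at hb
      rw [mem_union, mem_union, mem_biUnion, mem_filter]
      rcases hb.2 with h | h | h
      · rw [not_disjoint_iff] at h
        obtain ⟨c, hc1, hc2⟩ := h
        exact Or.inl (Or.inl ⟨c, hc1, by rw [mem_filter]; exact ⟨mem_univ _, hc2⟩⟩)
      · exact Or.inl (Or.inr ⟨mem_univ _, h⟩)
      · exact Or.inr h
    have h1 : ((S a).biUnion (fun c => univ.filter (fun b => c ∈ S b))).card ≤ (K * K) * (K * K) := by
      calc _ ≤ ∑ c ∈ S a, (univ.filter (fun b => c ∈ S b)).card := card_biUnion_le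
        _ ≤ ∑ c ∈ S a, K * K := sum_le_sum fun c _ => hF3 c
        _ = (S a).card * (K * K) := by rw [sum_const, smul_eq_mul]
        _ ≤ _ := Nat.mul_le_mul_right _ (hF2 a ha)
    have h2 := hF3 a
    have h3 := hF2 a ha
    have h4 : K * K ≤ K ^ 4 := by
      rcases Nat.eq_zero_or_pos K with rfl | hK
      · simp
      · calc K * K = K ^ 2 := by ring
          _ ≤ K ^ 4 := Nat.pow_le_pow_right hK (by norm_num)
    have h5 : (K * K) * (K * K) = K ^ 4 := by ring
    calc _ ≤ _ := card_le_card hsub
      _ ≤ _ := card_union_le _ _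
      _ ≤ _ := Nat.add_le_add_right (card_union_le _ _) _
      _ ≤ 3 * K ^ 4 := by omega
  -- good rows
  set Wt : Fin n → ℝ := fun a => ∑ p ∈ I a, w q (P p).card with hWt
  have hWt0 : ∀ a, 0 ≤ Wt a := fun a => sum_nonneg fun p _ => w_nonneg hq _
  set R : Finset (Fin n) := univ.filter (fun a => light a ∧ (∀ p ∈ I a, 1 ≤ (P p).card) ∧
    Wt a ≤ q / 10) with hR
  set m := Fintype.card J with hmdef
  have hB1 : (univ.filter (fun a => ¬ light a)).card ≤ m := by
    have h1 : ∑ a, (I a).card = m * K := by
      have h2 : (univ : Finset (J × Fin K)).card = ∑ a : Fin n, (I a).card :=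
        card_eq_sum_card_fiberwise (f := fun p : J × Fin K => x p.1 p.2) (t := univ)
          (fun _ _ => by simp)
      rw [← h2, card_univ, Fintype.card_prod, Fintype.card_fin]
    have h2 : (univ.filter (fun a => ¬ light a)).card * (K + 1) ≤ m * K := by
      rw [← h1]
      calc (univ.filter (fun a => ¬ light a)).card * (K + 1)
          = ∑ a ∈ univ.filter (fun a => ¬ light a), (K + 1) := by rw [sum_const, smul_eq_mul]
        _ ≤ ∑ a ∈ univ.filter (fun a => ¬ light a), (I a).card := by
            apply sum_le_sum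
            intro a ha
            rw [mem_filter] at ha
            have := ha.2
            simp only [hlight] at this
            omega
        _ ≤ ∑ a, (I a).card := sum_le_sum_of_subset (subset_univ _)
    by_contra hcon
    push Not at hcon
    have h3 : (m + 1) * (K + 1) ≤ m * K :=
      (Nat.mul_le_mul_right _ hcon).trans h2
    nlinarith
  have hinj : ∀ j k1 k2, light (x j k1) → light (x j k2) → (P (j, k1)).card = (P (j, k2)).card →
      k1 = k2 := by
    intro j k1 k2 h1 h2 h
    rw [hPcard, hPcard] at h
    by_contra hne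
    have aux : ∀ a b : Fin K, a < b → light (x j a) → (Q (j, a)).card < (Q (j, b)).card := by
      intro a b hab ha
      apply card_lt_card
      rw [ssubset_iff_of_subset]
      · exact ⟨a, (hmemQ _ _).mpr ⟨hab, ha⟩, fun h => lt_irrefl _ ((hmemQ _ _).mp h).1⟩
      · intro k' hk'
        have := (hmemQ _ _).mp hk'
        exact (hmemQ _ _).mpr ⟨this.1.trans hab, this.2⟩
    rcases lt_or_gt_of_ne hne with h' | h'
    · have := aux k1 k2 h' h1; omega
    · have := aux k2 k1 h' h2; omega
  have hB2 : (univ.filter (fun a => light a ∧ ∃ p ∈ I a, (P p).card = 0)).card ≤ m := by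
    have hex : ∀ a ∈ univ.filter (fun a => light a ∧ ∃ p ∈ I a, (P p).card = 0),
        ∃ j : J, ∃ k, x j k = a ∧ (P (j, k)).card = 0 := by
      intro a ha
      rw [mem_filter] at ha
      obtain ⟨p, hp, hp0⟩ := ha.2.2
      exact ⟨p.1, p.2, (hmemI _ _).mp hp, hp0⟩
    rcases isEmpty_or_nonempty J with hJ | hJ
    · have : univ.filter (fun a => light a ∧ ∃ p ∈ I a, (P p).card = 0) = ∅ := by
        rw [filter_eq_empty_iff]
        rintro a _ ⟨_, p, _⟩
        exact hJ.elim p.1
      rw [this]
      simp
    choose! f hf using hex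
    rw [hmdef, ← card_univ]
    apply card_le_card_of_injOn f (fun _ _ => by simp)
    intro a ha b hb hab
    obtain ⟨k1, h1, h1'⟩ := hf a ha
    obtain ⟨k2, h2, h2'⟩ := hf b hb
    rw [coe_filter, Set.mem_ofPred_eq] at ha hb
    rw [← hab] at h2 h2'
    have := hinj (f a) k1 k2 (h1.symm ▸ ha.2.1) (h2.symm ▸ hb.2.1) (h1'.trans h2'.symm)
    rw [← h1, ← h2, this]
  have hB3 : (univ.filter (fun a => light a ∧ ¬ Wt a ≤ q / 10)).card ≤ 40 * m := by
    have hq' : (2 : ℝ) ≤ q := by exact_mod_cast hq
    have h1 : ∑ a ∈ univ.filter light, Wt a ≤ m * (4 * q) := by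
      have h2 : ∑ a ∈ univ.filter light, Wt a =
          ∑ j : J, ∑ k ∈ univ.filter (fun k => light (x j k)), w q (P (j, k)).card := by
        have e1 : ∑ a ∈ univ.filter light, Wt a =
            ∑ p ∈ univ.filter (fun p : J × Fin K => light (x p.1 p.2)), w q (P p).card := by
          simp only [hWt, hI]
          rw [← sum_biUnion]
          · apply sum_congr _ (fun _ _ => rfl)
            ext p
            simp only [mem_biUnion, mem_filter, mem_univ, true_and]
            constructor
            · rintro ⟨a, ha, h⟩; rw [h]; exact ha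
            · intro h; exact ⟨_, h, rfl⟩
          · intro a _ b _ hab
            rw [Function.onFun, disjoint_left]
            intro p hp1 hp2
            rw [mem_filter] at hp1 hp2
            exact hab (hp1.2.symm.trans hp2.2)
        rw [e1, sum_filter, Fintype.sum_prod_type]
        apply sum_congr rfl
        intro j _
        rw [sum_filter]
      rw [h2]
      calc _ ≤ ∑ j : J, (4 * (q : ℝ)) := by
            apply sum_le_sum
            intro j _
            have h3 : ∑ k ∈ univ.filter (fun k => light (x j k)), w q (P (j, k)).card =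
                ∑ i ∈ (univ.filter (fun k => light (x j k))).image (fun k => (P (j, k)).card),
                  w q i := by
              rw [sum_image]
              intro a ha b hb hab
              rw [mem_coe, mem_filter] at ha hb
              exact hinj j a b ha.2 hb.2 hab
            rw [h3]
            refine le_trans ?_ (sum_w_le hq (K + 1))
            apply sum_le_sum_of_subset_of_nonneg
            · intro i hi
              rw [mem_image] at hi
              obtain ⟨k, -, rfl⟩ := hi
              rw [mem_range, hPcard]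
              have := hQlt (j, k)
              omega
            · intros; exact w_nonneg hq _
        _ = m * (4 * q) := by rw [sum_const, nsmul_eq_mul, card_univ]
    have h2 : ((univ.filter (fun a => light a ∧ ¬ Wt a ≤ q / 10)).card : ℝ) * (q / 10) ≤
        m * (4 * q) := by
      refine le_trans ?_ h1
      calc ((univ.filter (fun a => light a ∧ ¬ Wt a ≤ q / 10)).card : ℝ) * (q / 10)
          = ∑ a ∈ univ.filter (fun a => light a ∧ ¬ Wt a ≤ q / 10), ((q : ℝ) / 10) := by
            rw [sum_const, nsmul_eq_mul]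
        _ ≤ ∑ a ∈ univ.filter (fun a => light a ∧ ¬ Wt a ≤ q / 10), Wt a := by
            apply sum_le_sum
            intro a ha
            rw [mem_filter] at ha
            exact (not_le.mp ha.2.2).le
        _ ≤ ∑ a ∈ univ.filter light, Wt a := by
            apply sum_le_sum_of_subset_of_nonneg
            · intro a ha
              rw [mem_filter] at ha ⊢
              exact ⟨ha.1, ha.2.1⟩
            · intros; exact hWt0 _
    have h3 : ((univ.filter (fun a => light a ∧ ¬ Wt a ≤ q / 10)).card : ℝ) ≤ 40 * m := by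
      have hqpos : (0 : ℝ) < q / 10 := by positivity
      have h4 : (m : ℝ) * (4 * q) = (40 * m) * (q / 10) := by ring
      rw [h4] at h2
      exact le_of_mul_le_mul_right h2 hqpos
    exact_mod_cast h3
  have hRcard : n ≤ 2 * R.card := by
    have hcov : (univ : Finset (Fin n)) ⊆ R ∪ (univ.filter (fun a => ¬ light a) ∪
        (univ.filter (fun a => light a ∧ ∃ p ∈ I a, (P p).card = 0) ∪
          univ.filter (fun a => light a ∧ ¬ Wt a ≤ q / 10))) := by
      intro a _
      simp only [hR, mem_union, mem_filter, mem_univ, true_and]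
      by_cases h1 : light a
      · by_cases h2 : ∃ p ∈ I a, (P p).card = 0
        · right; right; left; exact ⟨h1, h2⟩
        · by_cases h3 : Wt a ≤ q / 10
          · left
            push Not at h2
            exact ⟨h1, fun p hp => Nat.one_le_iff_ne_zero.mpr (h2 p hp), h3⟩
          · right; right; right; exact ⟨h1, h3⟩
      · right; left; exact h1
    have h1 := card_le_card hcov
    rw [card_univ, Fintype.card_fin] at h1
    have h2 := card_union_le R (univ.filter (fun a => ¬ light a) ∪
        (univ.filter (fun a => light a ∧ ∃ p ∈ I a, (P p).card = 0) ∪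
          univ.filter (fun a => light a ∧ ¬ Wt a ≤ q / 10)))
    have h3 := card_union_le (univ.filter (fun a => ¬ light a))
        (univ.filter (fun a => light a ∧ ∃ p ∈ I a, (P p).card = 0) ∪
          univ.filter (fun a => light a ∧ ¬ Wt a ≤ q / 10))
    have h4 := card_union_le (univ.filter (fun a => light a ∧ ∃ p ∈ I a, (P p).card = 0))
          (univ.filter (fun a => light a ∧ ¬ Wt a ≤ q / 10))
    omega
  obtain ⟨A, hAR, hAind, hAcard⟩ := exists_indep R conf hsymm (3 * K ^ 4) (by
    intro a ha
    rw [hR, mem_filter] at ha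
    refine le_trans (card_le_card ?_) (hdeg a ha.2.1)
    intro b hb
    have hb' := (@mem_filter _ _ (fun a => Classical.propDecidable _) _ _).mp hb
    exact (@mem_filter _ _ _ _ _).mpr hb')
  refine ⟨A, P, S, ?_, ?_, ?_, ?_, ?_, ?_⟩
  · calc n ≤ 2 * R.card := hRcard
      _ ≤ 2 * ((3 * K ^ 4 + 1) * A.card) := Nat.mul_le_mul_left _ hAcard
      _ = _ := by ring
  · intro p c hc
    obtain ⟨k', hk', hck⟩ := (hmemP p c).mp hc
    exact ⟨k', hk'.1, hck⟩
  · intro a ha p hp
    have haR := hAR ha
    rw [hR, mem_filter] at haR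
    refine ⟨?_, haR.2.2.1 p ((hmemI _ _).mpr hp)⟩
    intro c hc
    exact (hmemS a c).mpr ⟨p, hp, hc⟩
  · intro a ha h
    obtain ⟨p, hp, hcp⟩ := (hmemS a a).mp h
    obtain ⟨k', hk', hck⟩ := (hmemP p a).mp hcp
    rw [← hp] at hck
    exact absurd (hx p.1 hck) (ne_of_lt hk'.1)
  · intro a ha b hb hab
    have := hAind a ha b hb hab
    simp only [hconf] at this
    push Not at this
    exact ⟨this.1, this.2.1⟩
  · intro a ha
    have haR := hAR ha
    rw [hR, mem_filter] at haR
    exact haR.2.2.2

end Pool.Agent.BoxMinor.Low
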