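import Mathlib
import Pool.Agent.BoxMinor.LowerProb
import Pool.Agent.BoxMinor.LowerW
import Pool.Agent.BoxMinor.LowerSelect

set_option autoImplicit false

/-!
The probability that there is no free pair for given tops.
-/

namespace Pool.Agent.BoxMinor.Low

open Finset
open scoped Classical

/-- `(a, b)` is free for the tops `x, y` in the matrix `ω` (value `0` is a one of the matrix). -/
def FreePair {n K q : ℕ} [NeZero q] {J : Type*} (x y : J → Fin K → Fin n)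
    (ω : Fin n × Fin n → Fin q) (a b : Fin n) : Prop :=
  ω (a, b) ≠ 0 ∧ (∀ j k, x j k = a → ∃ k' < k, ω (x j k', b) = 0) ∧
    (∀ j k, y j k = b → ∃ k' < k, ω (a, y j k') = 0)

lemma pr_hit {I : Type*} [Fintype I] [DecidableEq I] {q : ℕ} [NeZero q] (hq : 2 ≤ q) {κ : Type*} (s : Finset κ)
    (T : κ → Finset I) (hT : ∀ p ∈ s, 1 ≤ (T p).card) (c : ℝ)
    (hc : ∑ p ∈ s, w q (T p).card ≤ c) :
    Real.exp (-c) ≤ pr (fun ω : I → Fin q => ∀ p ∈ s, ∃ i ∈ T p, ω i = 0) := by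
  calc Real.exp (-c) ≤ Real.exp (-∑ p ∈ s, w q (T p).card) :=
        Real.exp_le_exp.mpr (neg_le_neg hc)
    _ = ∏ p ∈ s, pr (fun ω : I → Fin q => ∃ i ∈ T p, ω i = 0) := by
        rw [← sum_neg_distrib, Real.exp_sum]
        apply prod_congr rfl
        intro p hp
        rw [exp_neg_w hq (hT p hp), pr_exists_zero]
    _ ≤ _ := harrisFam s (fun p ω => ∃ i ∈ T p, ω i = 0) (fun p _ => down_exists_zero (T p))

theorem pr_no_free (q n K : ℕ) [NeZero q] (hq : 2 ≤ q) {J : Type*} [Fintype J]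
    (x y : J → Fin K → Fin n)
    (hx : ∀ j, Function.Injective (x j)) (hy : ∀ j, Function.Injective (y j))
    (hm : 84 * Fintype.card J ≤ n) :
    pr (fun ω : Fin n × Fin n → Fin q => ¬ ∃ a b, FreePair x y ω a b) ≤
      Real.exp (-(1 / 2 * Real.exp (-(q / 5 : ℝ)) * ((n : ℝ) / (2 * (3 * (K : ℝ) ^ 4 + 1))) ^ 2)) := by
  obtain ⟨A, P, S, hA1, hA2, hA3, hA4, hA5, hA6⟩ := select q n K hq x hx hm
  obtain ⟨B, P', S', hB1, hB2, hB3, hB4, hB5, hB6⟩ := select q n K hq y hy hm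
  set Ia : Fin n → Finset (J × Fin K) := fun a => univ.filter (fun p => x p.1 p.2 = a) with hIa
  set Ib : Fin n → Finset (J × Fin K) := fun b => univ.filter (fun p => y p.1 p.2 = b) with hIb
  set E2 : Fin n × Fin n → (Fin n × Fin n → Fin q) → Prop := fun ab ω =>
    ∀ p ∈ Ia ab.1, ∃ i ∈ P p ×ˢ {ab.2}, ω i = 0 with hE2
  set E3 : Fin n × Fin n → (Fin n × Fin n → Fin q) → Prop := fun ab ω =>
    ∀ p ∈ Ib ab.2, ∃ i ∈ {ab.1} ×ˢ P' p, ω i = 0 with hE3
  set E : Fin n × Fin n → (Fin n × Fin n → Fin q) → Prop := fun ab ω =>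
    ω ab ≠ 0 ∧ (E2 ab ω ∧ E3 ab ω) with hE
  set T : Fin n × Fin n → Finset (Fin n × Fin n) := fun ab =>
    {ab} ∪ (S ab.1 ×ˢ {ab.2} ∪ {ab.1} ×ˢ S' ab.2) with hT
  have hq' : (2 : ℝ) ≤ q := by exact_mod_cast hq
  have hfree : ∀ ω ab, E ab ω → FreePair x y ω ab.1 ab.2 := by
    rintro ω ⟨a, b⟩ ⟨h1, h2, h3⟩
    refine ⟨h1, ?_, ?_⟩
    · intro j k hjk
      obtain ⟨i, hi, h0⟩ := h2 (j, k) (by simp [hIa, hjk])
      rw [mem_product, mem_singleton] at hi
      obtain ⟨k', hk', hxk⟩ := hA2 _ _ hi.1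
      refine ⟨k', hk', ?_⟩
      simp only at hxk hi
      rw [hxk, ← hi.2]
      exact h0
    · intro j k hjk
      obtain ⟨i, hi, h0⟩ := h3 (j, k) (by simp [hIb, hjk])
      rw [mem_product, mem_singleton] at hi
      obtain ⟨k', hk', hxk⟩ := hB2 _ _ hi.2
      refine ⟨k', hk', ?_⟩
      simp only at hxk hi
      rw [hxk, ← hi.1]
      exact h0
  have hdet1 : ∀ ab, DetBy (fun ω : Fin n × Fin n → Fin q => ω ab ≠ 0) {ab} := fun ab => det_ne ab
  have hdet2 : ∀ ab ∈ A ×ˢ B, DetBy (E2 ab) (S ab.1 ×ˢ {ab.2}) := by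
    rintro ⟨a, b⟩ hab
    rw [mem_product] at hab
    have h1 : DetBy (E2 (a, b)) ((Ia a).biUnion (fun p => P p ×ˢ {b})) :=
      DetBy.forall_mem fun p _ => det_exists_zero _
    refine h1.mono ?_
    intro i hi
    rw [mem_biUnion] at hi
    obtain ⟨p, hp, hi⟩ := hi
    rw [mem_product] at hi ⊢
    refine ⟨?_, hi.2⟩
    exact (hA3 a hab.1 p (by simpa [hIa] using hp)).1 hi.1
  have hdet3 : ∀ ab ∈ A ×ˢ B, DetBy (E3 ab) ({ab.1} ×ˢ S' ab.2) := by
    rintro ⟨a, b⟩ hab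
    rw [mem_product] at hab
    have h1 : DetBy (E3 (a, b)) ((Ib b).biUnion (fun p => {a} ×ˢ P' p)) :=
      DetBy.forall_mem fun p _ => det_exists_zero _
    refine h1.mono ?_
    intro i hi
    rw [mem_biUnion] at hi
    obtain ⟨p, hp, hi⟩ := hi
    rw [mem_product] at hi ⊢
    refine ⟨hi.1, ?_⟩
    exact (hB3 b hab.2 p (by simpa [hIb] using hp)).1 hi.2
  have hdet : ∀ ab ∈ A ×ˢ B, DetBy (E ab) (T ab) := fun ab hab =>
    (hdet1 ab).and ((hdet2 ab hab).and (hdet3 ab hab))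
  have hdisj23 : ∀ ab ∈ A ×ˢ B, Disjoint (S ab.1 ×ˢ ({ab.2} : Finset (Fin n)))
      (({ab.1} : Finset (Fin n)) ×ˢ S' ab.2) := by
    rintro ⟨a, b⟩ hab
    rw [mem_product] at hab
    rw [disjoint_left]
    intro i hi hi'
    rw [mem_product] at hi hi'
    simp only [mem_singleton] at hi hi'
    exact hA4 a hab.1 (hi'.1 ▸ hi.1)
  have hdisj1 : ∀ ab ∈ A ×ˢ B, Disjoint ({ab} : Finset (Fin n × Fin n))
      (S ab.1 ×ˢ {ab.2} ∪ {ab.1} ×ˢ S' ab.2) := by
    rintro ⟨a, b⟩ hab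
    rw [mem_product] at hab
    rw [disjoint_singleton_left, mem_union, mem_product, mem_product]
    rintro (h | h)
    · exact hA4 a hab.1 h.1
    · exact hB4 b hab.2 h.2
  have hpr : ∀ ab ∈ A ×ˢ B, 1 / 2 * Real.exp (-(q / 5 : ℝ)) ≤ pr (E ab) := by
    intro ab hab
    have h1 : pr (E ab) = pr (fun ω : Fin n × Fin n → Fin q => ω ab ≠ 0) * (pr (E2 ab) * pr (E3 ab)) := by
      rw [← indep2 (hdet2 ab hab) (hdet3 ab hab) (hdisj23 ab hab)]
      exact indep2 (hdet1 ab) ((hdet2 ab hab).and (hdet3 ab hab)) (hdisj1 ab hab)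
    have hab' := mem_product.mp hab
    have h2 : Real.exp (-(q / 10 : ℝ)) ≤ pr (E2 ab) := by
      apply pr_hit hq
      · intro p hp
        rw [card_product, card_singleton, mul_one]
        exact (hA3 ab.1 hab'.1 p (by simpa [hIa] using hp)).2
      · simp_rw [card_product, card_singleton, mul_one]
        exact hA6 ab.1 hab'.1
    have h3 : Real.exp (-(q / 10 : ℝ)) ≤ pr (E3 ab) := by
      apply pr_hit hq
      · intro p hp
        rw [card_product, card_singleton, one_mul]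
        exact (hB3 ab.2 hab'.2 p (by simpa [hIb] using hp)).2
      · simp_rw [card_product, card_singleton, one_mul]
        exact hB6 ab.2 hab'.2
    have h4 : (1 : ℝ) / 2 ≤ pr (fun ω : Fin n × Fin n → Fin q => ω ab ≠ 0) := by
      rw [pr_ne_zero]
      have : 1 / (q : ℝ) ≤ 1 / 2 := one_div_le_one_div_of_le (by norm_num) hq'
      linarith
    rw [h1]
    have h5 : Real.exp (-(q / 5 : ℝ)) = Real.exp (-(q / 10 : ℝ)) * Real.exp (-(q / 10 : ℝ)) := by
      rw [← Real.exp_add]; congr 1; ring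
    rw [h5]
    have h6 := Real.exp_pos (-(q / 10 : ℝ))
    exact mul_le_mul h4 (mul_le_mul h2 h3 h6.le (pr_nonneg _)) (mul_nonneg h6.le h6.le)
      (pr_nonneg _)
  have hTdisj : ∀ ab ∈ A ×ˢ B, ∀ cd ∈ A ×ˢ B, ab ≠ cd → Disjoint (T ab) (T cd) := by
    rintro ⟨a, b⟩ hab ⟨c, d⟩ hcd hne
    rw [mem_product] at hab hcd
    simp only at hab hcd
    rw [disjoint_left]
    rintro ⟨u, v⟩ h1 h2
    simp only [hT, mem_union, mem_singleton, mem_product, Prod.mk.injEq] at h1 h2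
    have hAn : ∀ z ∈ A, ∀ z' ∈ A, z ∉ S z' := by
      intro z hz z' hz'
      by_cases h : z = z'
      · subst h; exact hA4 z hz
      · exact (hA5 z hz z' hz' h).2
    have hBn : ∀ z ∈ B, ∀ z' ∈ B, z ∉ S' z' := by
      intro z hz z' hz'
      by_cases h : z = z'
      · subst h; exact hB4 z hz
      · exact (hB5 z hz z' hz' h).2
    have hne' : a = c → b = d → False := fun h1 h2 => hne (by rw [h1, h2])
    rcases h1 with ⟨hu, hv⟩ | ⟨hu, hv⟩ | ⟨hu, hv⟩ <;>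
      rcases h2 with ⟨hu', hv'⟩ | ⟨hu', hv'⟩ | ⟨hu', hv'⟩
    · exact hne' (hu.symm.trans hu') (hv.symm.trans hv')
    · rw [hu] at hu'; exact hAn a hab.1 c hcd.1 hu'
    · rw [hv] at hv'; exact hBn b hab.2 d hcd.2 hv'
    · rw [hu'] at hu; exact hAn c hcd.1 a hab.1 hu
    · have hac : a ≠ c := fun h => hne' h (hv.symm.trans hv')
      exact disjoint_left.mp (hA5 a hab.1 c hcd.1 hac).1 hu hu'
    · rw [hu'] at hu; exact hAn c hcd.1 a hab.1 hu
    · rw [hv'] at hv; exact hBn d hcd.2 b hab.2 hv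
    · rw [hu] at hu'; exact hAn a hab.1 c hcd.1 hu'
    · have hbd : b ≠ d := fun h => hne' (hu.symm.trans hu') h
      exact disjoint_left.mp (hB5 b hab.2 d hcd.2 hbd).1 hv hv'
  set ρ : ℝ := 1 / 2 * Real.exp (-(q / 5 : ℝ)) with hρ
  have hρ0 : 0 ≤ ρ := by positivity
  have hmain : pr (fun ω : Fin n × Fin n → Fin q => ¬ ∃ a b, FreePair x y ω a b) ≤
      (1 - ρ) ^ (A ×ˢ B).card := by
    calc pr (fun ω : Fin n × Fin n → Fin q => ¬ ∃ a b, FreePair x y ω a b)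
        ≤ pr (fun ω : Fin n × Fin n → Fin q => ∀ ab ∈ A ×ˢ B, ¬ E ab ω) := by
          apply pr_mono
          intro ω h ab _ hab
          exact h ⟨ab.1, ab.2, hfree ω ab hab⟩
      _ = ∏ ab ∈ A ×ˢ B, pr (fun ω => ¬ E ab ω) :=
          indepFam _ (fun ab ω => ¬ E ab ω) T (fun ab hab => (hdet ab hab).not) hTdisj
      _ ≤ ∏ ab ∈ A ×ˢ B, (1 - ρ) := by
          apply prod_le_prod
          · intro ab _; exact pr_nonneg _
          · intro ab hab
            rw [pr_not]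
            have := hpr ab hab
            linarith
      _ = _ := by rw [prod_const]
  have hρ1 : ρ ≤ 1 := by
    rw [hρ]
    have : Real.exp (-(q / 5 : ℝ)) ≤ 1 := Real.exp_le_one_iff.mpr (by
      have : (0 : ℝ) ≤ q / 5 := by positivity
      linarith)
    linarith
  have hK : (0 : ℝ) < 2 * (3 * (K : ℝ) ^ 4 + 1) := by positivity
  have hA' : (n : ℝ) / (2 * (3 * (K : ℝ) ^ 4 + 1)) ≤ A.card := by
    rw [div_le_iff₀ hK]
    have : (n : ℝ) ≤ 2 * (3 * (K : ℝ) ^ 4 + 1) * A.card := by exact_mod_cast hA1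
    linarith
  have hB' : (n : ℝ) / (2 * (3 * (K : ℝ) ^ 4 + 1)) ≤ B.card := by
    rw [div_le_iff₀ hK]
    have : (n : ℝ) ≤ 2 * (3 * (K : ℝ) ^ 4 + 1) * B.card := by exact_mod_cast hB1
    linarith
  have hAB : ((n : ℝ) / (2 * (3 * (K : ℝ) ^ 4 + 1))) ^ 2 ≤ ((A ×ˢ B).card : ℝ) := by
    rw [card_product, sq]
    push_cast
    exact mul_le_mul hA' hB' (by positivity) (by positivity)
  have hstep1 : (1 - ρ) ^ (A ×ˢ B).card ≤ (Real.exp (-ρ)) ^ (A ×ˢ B).card := by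
    apply pow_le_pow_left₀ (by linarith)
    have := Real.add_one_le_exp (-ρ)
    linarith
  have hstep2 : (Real.exp (-ρ)) ^ (A ×ˢ B).card = Real.exp (-(ρ * ((A ×ˢ B).card : ℝ))) := by
    rw [← Real.exp_nat_mul]; congr 1; ring
  have hstep3 : Real.exp (-(ρ * ((A ×ˢ B).card : ℝ))) ≤
      Real.exp (-(ρ * ((n : ℝ) / (2 * (3 * (K : ℝ) ^ 4 + 1))) ^ 2)) :=
    Real.exp_le_exp.mpr (neg_le_neg (mul_le_mul_of_nonneg_left hAB hρ0))
  exact (hmain.trans hstep1).trans (hstep2.le.trans hstep3)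

end Pool.Agent.BoxMinor.Low
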