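import Mathlib
import Pool.Agent.BoxMinor.Defs
import Pool.Agent.BoxMinor.LowerFree

set_option autoImplicit false

/-!
Bipartite graphs of matrices; box representations give tops with no free pair.
-/

namespace Pool.Agent.BoxMinor.Low

open Finset
open scoped Classical

/-- The bipartite graph of the matrix `ω` (cells with value `0` are edges). -/
def bip {n q : ℕ} [NeZero q] (ω : Fin n × Fin n → Fin q) : SimpleGraph (Fin n ⊕ Fin n) where
  Adj u v := (∃ a b, u = Sum.inl a ∧ v = Sum.inr b ∧ ω (a, b) = 0) ∨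
    (∃ a b, v = Sum.inl a ∧ u = Sum.inr b ∧ ω (a, b) = 0)
  symm := ⟨by
    rintro u v (h | h)
    · exact Or.inr h
    · exact Or.inl h⟩
  loopless := ⟨by
    rintro u (⟨a, b, h1, h2, -⟩ | ⟨a, b, h1, h2, -⟩)
    · rw [h1] at h2; exact absurd h2 (by simp)
    · rw [h1] at h2; exact absurd h2 (by simp)⟩

lemma bip_adj {n q : ℕ} [NeZero q] (ω : Fin n × Fin n → Fin q) (a b : Fin n) :
    (bip ω).Adj (Sum.inl a) (Sum.inr b) ↔ ω (a, b) = 0 := by
  constructor
  · rintro (⟨a', b', h1, h2, h⟩ | ⟨a', b', h1, h2, h⟩)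
    · rw [Sum.inl.injEq] at h1; rw [Sum.inr.injEq] at h2
      rw [h1, h2]; exact h
    · exact absurd h1 (by simp)
  · intro h
    exact Or.inl ⟨a, b, rfl, rfl, h⟩

/-- A top list for a real valued function: `K` distinct indices with the smallest values. -/
lemma exists_top {n K : ℕ} (hK : K ≤ n) (r : Fin n → ℝ) :
    ∃ x : Fin K → Fin n, Function.Injective x ∧ (∀ k' k, k' < k → r (x k') ≤ r (x k)) ∧
      ∀ a, (∀ k, x k ≠ a) → ∀ k, r (x k) ≤ r a := by
  refine ⟨fun k => Tuple.sort r (Fin.castLE hK k), ?_, ?_, ?_⟩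
  · intro k1 k2 h
    exact Fin.castLE_injective hK ((Tuple.sort r).injective h)
  · intro k' k h
    exact Tuple.monotone_sort r (by simpa using h.le)
  · intro a ha k
    obtain ⟨k0, rfl⟩ := (Tuple.sort r).surjective a
    have h1 : K ≤ (k0 : ℕ) := by
      by_contra hcon
      push Not at hcon
      exact ha ⟨k0, hcon⟩ rfl
    apply Tuple.monotone_sort r
    rw [Fin.le_def]
    simp only [Fin.val_castLE]
    have := k.2
    omega

theorem box_tops {n K q D : ℕ} [NeZero q] (hK : K ≤ n) (ω : Fin n × Fin n → Fin q)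
    (hrep : HasBoxRep (bip ω) D)
    (hrect : ∀ X Y : Fin K → Fin n, Function.Injective X → Function.Injective Y →
      ∃ k l, ω (X k, Y l) = 0) :
    ∃ x y : (Fin D × Bool) → Fin K → Fin n, (∀ j, Function.Injective (x j)) ∧
      (∀ j, Function.Injective (y j)) ∧ ¬ ∃ a b, FreePair x y ω a b := by
  obtain ⟨lo, hi, hlh, hadj⟩ := hrep
  set R : (Fin D × Bool) → Fin n → ℝ := fun j a =>
    if j.2 then hi (Sum.inl a) j.1 else - lo (Sum.inl a) j.1 with hR
  set L : (Fin D × Bool) → Fin n → ℝ := fun j b =>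
    if j.2 then lo (Sum.inr b) j.1 else - hi (Sum.inr b) j.1 with hL
  have hF1 : ∀ j a b, R j a < L j b → ω (a, b) ≠ 0 := by
    rintro ⟨i, s⟩ a b hlt h0
    have h1 := (hadj (Sum.inl a) (Sum.inr b) (by simp)).mp ((bip_adj ω a b).mpr h0) i
    cases s
    · simp only [hR, hL] at hlt
      simp only [Bool.false_eq_true, if_false] at hlt
      linarith [h1.1]
    · simp only [hR, hL] at hlt
      simp only [if_true] at hlt
      linarith [h1.2]
  have hF2 : ∀ a b, ω (a, b) ≠ 0 → ∃ j, R j a < L j b := by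
    intro a b h0
    have h1 : ¬ ∀ i, lo (Sum.inl a) i ≤ hi (Sum.inr b) i ∧ lo (Sum.inr b) i ≤ hi (Sum.inl a) i := by
      intro h
      exact h0 ((bip_adj ω a b).mp ((hadj (Sum.inl a) (Sum.inr b) (by simp)).mpr h))
    push Not at h1
    obtain ⟨i, h1⟩ := h1
    by_cases h2 : lo (Sum.inl a) i ≤ hi (Sum.inr b) i
    · refine ⟨(i, true), ?_⟩
      simp only [hR, hL]
      simp only [if_true]
      exact h1 h2
    · push Not at h2
      refine ⟨(i, false), ?_⟩
      simp only [hR, hL]
      simp only [Bool.false_eq_true, if_false]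
      linarith
  choose x hx1 hx2 hx3 using fun j => exists_top hK (R j)
  choose y hy1 hy2 hy3 using fun j => exists_top hK (fun b => - L j b)
  refine ⟨x, y, hx1, hy1, ?_⟩
  rintro ⟨a, b, hab, hfa, hfb⟩
  obtain ⟨j, hj⟩ := hF2 a b hab
  by_cases ha : ∃ k, x j k = a
  · obtain ⟨k, hk⟩ := ha
    obtain ⟨k', hk', h0⟩ := hfa j k hk
    have h1 := hx2 j k' k hk'
    rw [hk] at h1
    exact hF1 j (x j k') b (lt_of_le_of_lt h1 hj) h0
  · by_cases hb : ∃ k, y j k = b
    · obtain ⟨k, hk⟩ := hb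
      obtain ⟨k', hk', h0⟩ := hfb j k hk
      have h1 := hy2 j k' k hk'
      rw [hk] at h1
      exact hF1 j a (y j k') (by linarith) h0
    · push Not at ha hb
      obtain ⟨k, l, h0⟩ := hrect (x j) (y j) (hx1 j) (hy1 j)
      have h1 := hx3 j a ha k
      have h2 := hy3 j b hb l
      exact hF1 j (x j k) (y j l) (by linarith) h0

/-- adding trivial coordinates -/
lemma HasBoxRep.mono {V : Type*} {G : SimpleGraph V} {d e : ℕ} (hde : d ≤ e)
    (h : HasBoxRep G d) : HasBoxRep G e := by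
  obtain ⟨lo, hi, h1, h2⟩ := h
  refine ⟨fun v i => if hi' : (i : ℕ) < d then lo v ⟨i, hi'⟩ else 0,
    fun v i => if hi' : (i : ℕ) < d then hi v ⟨i, hi'⟩ else 0, ?_, ?_⟩
  · intro v i
    by_cases hid : (i : ℕ) < d
    · simp only [hid, dif_pos]; exact h1 v _
    · simp only [hid, dif_neg, not_false_iff]; exact le_rfl
  · intro u v huv
    rw [h2 u v huv]
    constructor
    · intro h i
      by_cases hid : (i : ℕ) < d
      · simp only [hid, dif_pos]; exact h _
      · simp only [hid, dif_neg, not_false_iff]; exact ⟨le_rfl, le_rfl⟩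
    · intro h i
      have := h ⟨i, lt_of_lt_of_le i.2 hde⟩
      simpa only [i.2, dif_pos, Fin.eta] using this

/-- box representations transfer along isomorphisms -/
lemma HasBoxRep.iso {V W : Type*} {G : SimpleGraph V} {H : SimpleGraph W} (e : G ≃g H) {d : ℕ}
    (h : HasBoxRep G d) : HasBoxRep H d := by
  obtain ⟨lo, hi, h1, h2⟩ := h
  refine ⟨fun v => lo (e.symm v), fun v => hi (e.symm v), fun v i => h1 _ i, ?_⟩
  intro u v huv
  rw [← h2 (e.symm u) (e.symm v) (fun h => huv (e.symm.injective h))]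
  exact (e.symm.map_adj_iff).symm

end Pool.Agent.BoxMinor.Low
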