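import Mathlib
import Pool.Agent.BoxMinor.Defs
import Pool.Agent.BoxMinor.LowerBox

set_option autoImplicit false

/-!
Random bipartite graphs have no large clique minor.
-/

namespace Pool.Agent.BoxMinor.Low

open Finset
open scoped Classical

/-- cells between two classes of a labelling -/
noncomputable def cells {n t : ℕ} (g : Fin n ⊕ Fin n → Option (Fin t)) (p : Fin t × Fin t) :
    Finset (Fin n × Fin n) :=
  univ.filter (fun c => (g (Sum.inl c.1) = some p.1 ∧ g (Sum.inr c.2) = some p.2) ∨
    (g (Sum.inl c.1) = some p.2 ∧ g (Sum.inr c.2) = some p.1))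

/-- labels whose class has at most `s` vertices -/
noncomputable def smallLabels {n t : ℕ} (s : ℕ) (g : Fin n ⊕ Fin n → Option (Fin t)) :
    Finset (Fin t) :=
  univ.filter (fun i => (univ.filter (fun v => g v = some i)).card ≤ s)

/-- ordered pairs of small labels -/
noncomputable def smallPairs {n t : ℕ} (s : ℕ) (g : Fin n ⊕ Fin n → Option (Fin t)) :
    Finset (Fin t × Fin t) :=
  (smallLabels s g ×ˢ smallLabels s g).filter (fun p => p.1 < p.2)

lemma card_cells {n t s : ℕ} (g : Fin n ⊕ Fin n → Option (Fin t)) (p : Fin t × Fin t)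
    (hp : p ∈ smallPairs s g) : (cells g p).card ≤ 2 * s ^ 2 := by
  simp only [smallPairs, smallLabels, mem_filter, mem_product, mem_univ, true_and] at hp
  obtain ⟨⟨h1, h2⟩, -⟩ := hp
  have hcol : ∀ i : Fin t, (univ.filter (fun v => g v = some i)).card ≤ s →
      (univ.filter (fun a : Fin n => g (Sum.inl a) = some i)).card ≤ s := by
    intro i hi
    refine le_trans ?_ hi
    rw [← card_image_of_injective _ (Sum.inl_injective (α := Fin n) (β := Fin n))]
    apply card_le_card
    intro v hv
    rw [mem_image] at hv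
    obtain ⟨a, ha, rfl⟩ := hv
    simpa using ha
  have hcor : ∀ i : Fin t, (univ.filter (fun v => g v = some i)).card ≤ s →
      (univ.filter (fun a : Fin n => g (Sum.inr a) = some i)).card ≤ s := by
    intro i hi
    refine le_trans ?_ hi
    rw [← card_image_of_injective _ (Sum.inr_injective (α := Fin n) (β := Fin n))]
    apply card_le_card
    intro v hv
    rw [mem_image] at hv
    obtain ⟨a, ha, rfl⟩ := hv
    simpa using ha
  have hsub : cells g p ⊆
      (univ.filter (fun a : Fin n => g (Sum.inl a) = some p.1) ×ˢ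
        univ.filter (fun a : Fin n => g (Sum.inr a) = some p.2)) ∪
      (univ.filter (fun a : Fin n => g (Sum.inl a) = some p.2) ×ˢ
        univ.filter (fun a : Fin n => g (Sum.inr a) = some p.1)) := by
    intro c hc
    simp only [cells, mem_filter, mem_univ, true_and] at hc
    simp only [mem_union, mem_product, mem_filter, mem_univ, true_and]
    exact hc
  calc (cells g p).card ≤ _ := card_le_card hsub
    _ ≤ _ := card_union_le _ _
    _ ≤ s * s + s * s := by
        rw [card_product, card_product]
        exact Nat.add_le_add (Nat.mul_le_mul (hcol _ h1) (hcor _ h2))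
          (Nat.mul_le_mul (hcol _ h2) (hcor _ h1))
    _ = 2 * s ^ 2 := by ring

lemma cells_disjoint {n t s : ℕ} (g : Fin n ⊕ Fin n → Option (Fin t)) :
    ∀ p ∈ smallPairs s g, ∀ p' ∈ smallPairs s g, p ≠ p' → Disjoint (cells g p) (cells g p') := by
  intro p hp p' hp' hne
  simp only [smallPairs, mem_filter] at hp hp'
  rw [disjoint_left]
  intro c hc hc'
  simp only [cells, mem_filter, mem_univ, true_and] at hc hc'
  have h1 := hp.2
  have h2 := hp'.2
  have inj : ∀ i j : Fin t, some i = some j → i = j := fun i j h => Option.some.inj h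
  rcases hc with ⟨e1, e2⟩ | ⟨e1, e2⟩ <;> rcases hc' with ⟨e3, e4⟩ | ⟨e3, e4⟩
  · exact hne (Prod.ext (inj _ _ (e1.symm.trans e3)) (inj _ _ (e2.symm.trans e4)))
  · have a1 := inj _ _ (e1.symm.trans e3)
    have a2 := inj _ _ (e2.symm.trans e4)
    rw [a1, a2] at h1
    exact absurd h1 (not_lt.mpr h2.le)
  · have a1 := inj _ _ (e1.symm.trans e3)
    have a2 := inj _ _ (e2.symm.trans e4)
    rw [a1, a2] at h1
    exact absurd h1 (not_lt.mpr h2.le)
  · exact hne (Prod.ext (inj _ _ (e2.symm.trans e4)) (inj _ _ (e1.symm.trans e3)))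

lemma card_pairs {t : ℕ} (I : Finset (Fin t)) :
    2 * ((I ×ˢ I).filter (fun p : Fin t × Fin t => p.1 < p.2)).card + I.card = I.card * I.card := by
  have h1 : (I ×ˢ I).card = ((I ×ˢ I).filter (fun p : Fin t × Fin t => p.1 < p.2)).card +
      (((I ×ˢ I).filter (fun p : Fin t × Fin t => p.2 < p.1)).card +
        ((I ×ˢ I).filter (fun p : Fin t × Fin t => p.1 = p.2)).card) := by
    rw [← card_filter_add_card_filter_not (s := I ×ˢ I) (fun p : Fin t × Fin t => p.1 < p.2)]
    congr 1
    rw [← card_filter_add_card_filter_not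
      (s := (I ×ˢ I).filter (fun p : Fin t × Fin t => ¬ p.1 < p.2))
      (fun p : Fin t × Fin t => p.2 < p.1), filter_filter, filter_filter]
    congr 2
    · ext p
      simp only [mem_filter]
      constructor
      · rintro ⟨h, h1, h2⟩; exact ⟨h, h2⟩
      · rintro ⟨h, h1⟩; exact ⟨h, not_lt.mpr h1.le, h1⟩
    · ext p
      simp only [mem_filter]
      constructor
      · rintro ⟨h, h1, h2⟩; exact ⟨h, le_antisymm (not_lt.mp h2) (not_lt.mp h1)⟩
      · rintro ⟨h, h1⟩; exact ⟨h, by rw [h1]; exact lt_irrefl _, by rw [h1]; exact lt_irrefl _⟩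
  have h2 : ((I ×ˢ I).filter (fun p : Fin t × Fin t => p.2 < p.1)).card =
      ((I ×ˢ I).filter (fun p : Fin t × Fin t => p.1 < p.2)).card := by
    refine card_nbij' Prod.swap Prod.swap ?_ ?_ ?_ ?_
    · intro p hp
      simp only [coe_filter, mem_product, Set.mem_ofPred_eq] at hp ⊢
      exact ⟨⟨hp.1.2, hp.1.1⟩, hp.2⟩
    · intro p hp
      simp only [coe_filter, mem_product, Set.mem_ofPred_eq] at hp ⊢
      exact ⟨⟨hp.1.2, hp.1.1⟩, hp.2⟩
    · intro p _; rfl
    · intro p _; rfl
  have h3 : ((I ×ˢ I).filter (fun p : Fin t × Fin t => p.1 = p.2)).card = I.card := by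
    refine card_nbij' Prod.fst (fun i => (i, i)) ?_ ?_ ?_ ?_
    · intro p hp
      simp only [coe_filter, mem_product, Set.mem_ofPred_eq] at hp
      exact hp.1.1
    · intro i hi
      simp only [coe_filter, mem_product, Set.mem_ofPred_eq]
      exact ⟨⟨hi, hi⟩, trivial⟩
    · intro p hp
      simp only [coe_filter, mem_product, Set.mem_ofPred_eq] at hp
      exact Prod.ext rfl hp.2
    · intro i _; rfl
  rw [card_product] at h1
  omega

lemma small_many {n t s : ℕ} (g : Fin n ⊕ Fin n → Option (Fin t)) (hts : 4 * n ≤ t * s)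
    (hn : 0 < n) : t ≤ 2 * (smallLabels s g).card := by
  have h1 : ∑ i : Fin t, (univ.filter (fun v => g v = some i)).card ≤ 2 * n := by
    have h2 : ∑ i : Fin t, (univ.filter (fun v => g v = some i)).card =
        (univ.biUnion (fun i : Fin t => univ.filter (fun v => g v = some i))).card := by
      rw [card_biUnion]
      intro i _ j _ hij
      rw [Function.onFun, disjoint_left]
      intro v hv hv'
      rw [mem_filter] at hv hv'
      exact hij (Option.some.inj (hv.2.symm.trans hv'.2))
    rw [h2]
    refine (card_le_univ _).trans ?_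
    rw [Fintype.card_sum, Fintype.card_fin]
    omega
  have h3 : (univ.filter (fun i : Fin t => ¬ (univ.filter (fun v => g v = some i)).card ≤ s)).card *
      (s + 1) ≤ 2 * n := by
    refine le_trans ?_ h1
    calc _ = ∑ i ∈ univ.filter (fun i : Fin t => ¬ (univ.filter (fun v => g v = some i)).card ≤ s),
          (s + 1) := by rw [sum_const, smul_eq_mul]
      _ ≤ ∑ i ∈ univ.filter (fun i : Fin t => ¬ (univ.filter (fun v => g v = some i)).card ≤ s),
          (univ.filter (fun v => g v = some i)).card := by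
          apply sum_le_sum
          intro i hi
          rw [mem_filter] at hi
          omega
      _ ≤ _ := sum_le_sum_of_subset (subset_univ _)
  have h4 := card_filter_add_card_filter_not (s := (univ : Finset (Fin t)))
    (fun i : Fin t => (univ.filter (fun v => g v = some i)).card ≤ s)
  rw [card_univ, Fintype.card_fin] at h4
  have h5 : (smallLabels s g).card =
      (univ.filter (fun i : Fin t => (univ.filter (fun v => g v = some i)).card ≤ s)).card := rfl
  rw [h5]
  set u := (univ.filter (fun i : Fin t => (univ.filter (fun v => g v = some i)).card ≤ s)).card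
  set u' := (univ.filter (fun i : Fin t =>
    ¬ (univ.filter (fun v => g v = some i)).card ≤ s)).card
  by_contra hcon
  push Not at hcon
  have h6 : t < 2 * u' := by omega
  have h7 : t * (s + 1) ≤ 2 * u' * (s + 1) := Nat.mul_le_mul_right _ h6.le
  have h8 : 2 * u' * (s + 1) ≤ 4 * n := by
    calc 2 * u' * (s + 1) = 2 * (u' * (s + 1)) := by ring
      _ ≤ 2 * (2 * n) := Nat.mul_le_mul_left _ h3
      _ = 4 * n := by ring
  have h9 : t * (s + 1) = t * s + t := by ring
  have ht0 : t = 0 := by omega
  rw [ht0] at hts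
  omega

theorem pr_minor (q n t s : ℕ) [NeZero q] (hq : 2 ≤ q) (hn : 0 < n) (ht : 4 ≤ t)
    (hts : 4 * n ≤ t * s) :
    pr (fun ω : Fin n × Fin n → Fin q => HasCliqueMinor (bip ω) t) ≤
      ((t : ℝ) + 1) ^ (2 * n) *
        Real.exp (-((1 - 1 / (q : ℝ)) ^ (2 * s ^ 2) * ((t : ℝ) ^ 2 / 16))) := by
  have hq' : (2 : ℝ) ≤ q := by exact_mod_cast hq
  have hq2 : 1 / (q : ℝ) ≤ 1 / 2 := one_div_le_one_div_of_le (by norm_num) hq'
  have hq3 : (0 : ℝ) < 1 / q := by positivity
  set θ : ℝ := (1 - 1 / (q : ℝ)) ^ (2 * s ^ 2) with hθ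
  have hθ0 : 0 ≤ θ := pow_nonneg (by linarith) _
  have hθ1 : θ ≤ 1 := pow_le_one₀ (by linarith) (by linarith)
  have hstep : ∀ g : Fin n ⊕ Fin n → Option (Fin t),
      pr (fun ω : Fin n × Fin n → Fin q => ∀ p ∈ smallPairs s g, ∃ c ∈ cells g p, ω c = 0) ≤
        Real.exp (-(θ * ((t : ℝ) ^ 2 / 16))) := by
    intro g
    have hu := small_many g hts hn
    have hpairs := card_pairs (smallLabels s g)
    have hpr : pr (fun ω : Fin n × Fin n → Fin q => ∀ p ∈ smallPairs s g, ∃ c ∈ cells g p, ω c = 0) ≤
        (1 - θ) ^ (smallPairs s g).card := by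
      rw [indepFam (smallPairs s g) (fun p (ω : Fin n × Fin n → Fin q) => ∃ c ∈ cells g p, ω c = 0)
        (fun p => cells g p) (fun p _ => det_exists_zero _) (cells_disjoint g)]
      rw [← prod_const]
      apply prod_le_prod
      · intro p _; exact pr_nonneg _
      · intro p hp
        rw [pr_exists_zero]
        have : θ ≤ (1 - 1 / (q : ℝ)) ^ (cells g p).card :=
          pow_le_pow_of_le_one (by linarith) (by linarith) (card_cells g p hp)
        linarith
    have h1 : (t : ℝ) ^ 2 / 16 ≤ ((smallPairs s g).card : ℝ) := by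
      have h2 : 2 * (smallPairs s g).card + (smallLabels s g).card =
          (smallLabels s g).card * (smallLabels s g).card := hpairs
      have h2' : 2 * ((smallPairs s g).card : ℝ) + ((smallLabels s g).card : ℝ) =
          ((smallLabels s g).card : ℝ) * ((smallLabels s g).card : ℝ) := by exact_mod_cast h2
      have hu' : (t : ℝ) ≤ 2 * ((smallLabels s g).card : ℝ) := by exact_mod_cast hu
      have ht' : (4 : ℝ) ≤ t := by exact_mod_cast ht
      nlinarith
    calc _ ≤ (1 - θ) ^ (smallPairs s g).card := hpr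
      _ ≤ (Real.exp (-θ)) ^ (smallPairs s g).card := by
          apply pow_le_pow_left₀ (by linarith)
          have := Real.add_one_le_exp (-θ)
          linarith
      _ = Real.exp (-(θ * ((smallPairs s g).card : ℝ))) := by
          rw [← Real.exp_nat_mul]; congr 1; ring
      _ ≤ _ := Real.exp_le_exp.mpr (neg_le_neg (mul_le_mul_of_nonneg_left h1 hθ0))
  calc pr (fun ω : Fin n × Fin n → Fin q => HasCliqueMinor (bip ω) t)
      ≤ pr (fun ω : Fin n × Fin n → Fin q => ∃ g : Fin n ⊕ Fin n → Option (Fin t),
          ∀ p ∈ smallPairs s g, ∃ c ∈ cells g p, ω c = 0) := by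
        apply pr_mono
        rintro ω ⟨B, hB1, hB2, hB3⟩
        have hg : ∃ g : Fin n ⊕ Fin n → Option (Fin t), ∀ v i, v ∈ B i → g v = some i := by
          have : ∀ v, ∃ o : Option (Fin t), ∀ i, v ∈ B i → o = some i := by
            intro v
            by_cases h : ∃ i, v ∈ B i
            · obtain ⟨i, hi⟩ := h
              refine ⟨some i, fun j hj => ?_⟩
              by_contra hne
              have hij : i ≠ j := fun h => hne (by rw [h])
              exact Set.disjoint_left.mp (hB2 i j hij) hi hj
            · exact ⟨none, fun i hi => absurd ⟨i, hi⟩ h⟩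
          choose g hg using this
          exact ⟨g, hg⟩
        obtain ⟨g, hg⟩ := hg
        refine ⟨g, ?_⟩
        intro p hp
        have hne : p.1 ≠ p.2 := by
          simp only [smallPairs, mem_filter] at hp
          exact ne_of_lt hp.2
        obtain ⟨u, hu, v, hv, huv⟩ := hB3 p.1 p.2 hne
        rcases huv with ⟨a, b, rfl, rfl, h0⟩ | ⟨a, b, rfl, rfl, h0⟩
        · refine ⟨(a, b), ?_, h0⟩
          simp only [cells, mem_filter, mem_univ, true_and]
          exact Or.inl ⟨hg _ _ hu, hg _ _ hv⟩
        · refine ⟨(a, b), ?_, h0⟩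
          simp only [cells, mem_filter, mem_univ, true_and]
          exact Or.inr ⟨hg _ _ hv, hg _ _ hu⟩
    _ ≤ Fintype.card (Fin n ⊕ Fin n → Option (Fin t)) *
          Real.exp (-(θ * ((t : ℝ) ^ 2 / 16))) := pr_exists_le _ _ hstep
    _ = _ := by
        rw [Fintype.card_fun, Fintype.card_option, Fintype.card_fin, Fintype.card_sum,
          Fintype.card_fin]
        push_cast
        rw [two_mul]

end Pool.Agent.BoxMinor.Low
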