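import Mathlib
import Pool.Agent.BoxMinor.LowerW

set_option autoImplicit false

/-!
Numerical estimates for the union bound.
-/

namespace Pool.Agent.BoxMinor.Low

open Finset

lemma num1 (r q K n : ℕ) (hr : 1 ≤ r) (hq : q = 16 * r) (hn : n = 2 ^ q) (hK : K = 3 * q ^ 2) :
    (((n : ℝ) ^ K) ^ 2) * (1 - 1 / (q : ℝ)) ^ (K * K) ≤ 1 / 4 := by
  have hq2 : 2 ≤ q := by omega
  have h1 : (1 - 1 / (q : ℝ)) ^ (K * K) ≤ (1 / 2 : ℝ) ^ (9 * q ^ 3) := by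
    have hq' : (2 : ℝ) ≤ q := by exact_mod_cast hq2
    have h2 : 1 / (q : ℝ) ≤ 1 / 2 := one_div_le_one_div_of_le (by norm_num) hq'
    have : K * K = q * (9 * q ^ 3) := by rw [hK]; ring
    rw [this, pow_mul]
    exact pow_le_pow_left₀ (pow_nonneg (by linarith) _) (pow_q_le_half hq2) _
  have h3 : (((n : ℝ) ^ K) ^ 2) = (2 : ℝ) ^ (6 * q ^ 3) := by
    rw [hn, hK]; push_cast
    rw [← pow_mul, ← pow_mul]; congr 1; ring
  rw [h3]
  calc (2 : ℝ) ^ (6 * q ^ 3) * (1 - 1 / (q : ℝ)) ^ (K * K)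
      ≤ (2 : ℝ) ^ (6 * q ^ 3) * (1 / 2 : ℝ) ^ (9 * q ^ 3) := by gcongr
    _ = (1 / 2 : ℝ) ^ (3 * q ^ 3) := by
        have : 9 * q ^ 3 = 6 * q ^ 3 + 3 * q ^ 3 := by ring
        rw [this, pow_add, ← mul_assoc, ← mul_pow]
        norm_num
    _ ≤ (1 / 2 : ℝ) ^ 2 := by
        apply pow_le_pow_of_le_one (by norm_num) (by norm_num)
        have : 1 ≤ q ^ 3 := Nat.one_le_pow _ _ (by omega)
        omega
    _ = 1 / 4 := by norm_num

lemma two_le_exp_one : (2 : ℝ) ≤ Real.exp 1 := by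
  have := Real.exp_one_gt_d9
  linarith

lemma exp_neg_two : Real.exp (-2) ≤ 1 / 4 := by
  have h := two_le_exp_one
  have h1 : Real.exp 2 = Real.exp 1 * Real.exp 1 := by rw [← Real.exp_add]; norm_num
  have h2 : (4 : ℝ) ≤ Real.exp 2 := by rw [h1]; nlinarith
  rw [Real.exp_neg]
  rw [inv_le_comm₀ (Real.exp_pos _) (by norm_num)]
  norm_num
  exact h2

lemma num2 (r q n t s : ℕ) (hr : 2 ≤ r) (hq : q = 16 * r) (hn : n = 2 ^ q) (hs : s = 4 * r)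
    (ht : t = n / r + 1) :
    ((t : ℝ) + 1) ^ (2 * n) *
        Real.exp (-((1 - 1 / (q : ℝ)) ^ (2 * s ^ 2) * ((t : ℝ) ^ 2 / 16))) ≤ 1 / 4 := by
  have hq2 : 2 ≤ q := by omega
  have hrpos : (0 : ℝ) < r := by
    have : 0 < r := by omega
    exact_mod_cast this
  have hnr : (n : ℝ) = 65536 ^ r := by
    rw [hn, hq]; push_cast
    rw [pow_mul]; norm_num
  have hn1 : (1 : ℝ) ≤ n := by rw [hnr]; exact one_le_pow₀ (by norm_num)
  have hn4 : 4 ≤ n := by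
    rw [hn]
    calc 4 = 2 ^ 2 := by norm_num
      _ ≤ 2 ^ q := Nat.pow_le_pow_right (by norm_num) hq2
  -- upper bound for the first factor
  have h1 : ((t : ℝ) + 1) ^ (2 * n) ≤ Real.exp (((q : ℝ) + 1) * (2 * n)) := by
    have h2 : (t : ℝ) + 1 ≤ (2 : ℝ) ^ (q + 1) := by
      have h3 : t + 1 ≤ 2 ^ (q + 1) := by
        rw [ht, pow_succ, ← hn]
        have := Nat.div_le_self n r
        omega
      exact_mod_cast h3
    calc ((t : ℝ) + 1) ^ (2 * n) ≤ ((2 : ℝ) ^ (q + 1)) ^ (2 * n) :=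
          pow_le_pow_left₀ (by positivity) h2 _
      _ ≤ ((Real.exp 1) ^ (q + 1)) ^ (2 * n) := by
          apply pow_le_pow_left₀ (by positivity)
          exact pow_le_pow_left₀ (by norm_num) two_le_exp_one _
      _ = Real.exp (((q : ℝ) + 1) * (2 * n)) := by
          rw [← pow_mul, ← Real.exp_nat_mul]; congr 1; push_cast; ring
  -- lower bound for the exponent
  have h4 : (1 / 16 : ℝ) ^ r ≤ (1 - 1 / (q : ℝ)) ^ (2 * s ^ 2) := by
    have h5 : 2 * s ^ 2 = q * (2 * r) := by rw [hs, hq]; ring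
    rw [h5, pow_mul]
    calc (1 / 16 : ℝ) ^ r = (1 / 4 : ℝ) ^ (2 * r) := by rw [pow_mul]; norm_num
      _ ≤ _ := pow_le_pow_left₀ (by norm_num) (quarter_le_pow hq2 (8 * r) (by omega)) _
  have h6 : (n : ℝ) / r ≤ t := by
    rw [div_le_iff₀ hrpos]
    have h7 : n < r * (n / r + 1) := by
      have := Nat.lt_mul_div_succ n (show 0 < r by omega)
      simpa using this
    have h8 : n ≤ t * r := by rw [ht, mul_comm]; exact h7.le
    exact_mod_cast h8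
  have h9 : (576 : ℝ) * r ^ 3 ≤ 4096 ^ r := by
    have h10 : (r : ℝ) ≤ 2 ^ r := by
      have : r < 2 ^ r := Nat.lt_two_pow_self
      exact_mod_cast this.le
    calc (576 : ℝ) * r ^ 3 ≤ 576 * (2 ^ r) ^ 3 := by gcongr
      _ = 576 * 8 ^ r := by rw [← pow_mul, mul_comm r 3, pow_mul]; norm_num
      _ ≤ 512 ^ r * 8 ^ r := by
          gcongr
          calc (576 : ℝ) ≤ 512 ^ 2 := by norm_num
            _ ≤ 512 ^ r := pow_le_pow_right₀ (by norm_num) hr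
      _ = 4096 ^ r := by rw [← mul_pow]; norm_num
  have h11 : ((q : ℝ) + 1) * (2 * n) + 2 ≤
      (1 - 1 / (q : ℝ)) ^ (2 * s ^ 2) * ((t : ℝ) ^ 2 / 16) := by
    have h12 : (1 / 16 : ℝ) ^ r * (((n : ℝ) / r) ^ 2 / 16) ≤
        (1 - 1 / (q : ℝ)) ^ (2 * s ^ 2) * ((t : ℝ) ^ 2 / 16) := by
      have : ((n : ℝ) / r) ^ 2 ≤ (t : ℝ) ^ 2 := pow_le_pow_left₀ (by positivity) h6 2
      have hpos : (0 : ℝ) ≤ (1 - 1 / (q : ℝ)) ^ (2 * s ^ 2) :=
        (by positivity : (0 : ℝ) ≤ (1 / 16 : ℝ) ^ r).trans h4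
      exact mul_le_mul h4 (by linarith) (by positivity) hpos
    refine le_trans ?_ h12
    have h13 : (1 / 16 : ℝ) ^ r * (((n : ℝ) / r) ^ 2 / 16) = n * (4096 ^ r / (16 * r ^ 2)) := by
      have h14 : (1 / 16 : ℝ) ^ r * n = 4096 ^ r := by
        rw [hnr, ← mul_pow]; norm_num
      calc (1 / 16 : ℝ) ^ r * (((n : ℝ) / r) ^ 2 / 16)
          = ((1 / 16 : ℝ) ^ r * n) * n / (16 * r ^ 2) := by
            field_simp
        _ = _ := by rw [h14]; ring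
    rw [h13]
    have h15 : 36 * (r : ℝ) ≤ 4096 ^ r / (16 * r ^ 2) := by
      rw [le_div_iff₀ (by positivity)]
      calc 36 * (r : ℝ) * (16 * r ^ 2) = 576 * r ^ 3 := by ring
        _ ≤ _ := h9
    have hqr : (q : ℝ) = 16 * r := by rw [hq]; push_cast; ring
    have hr2 : (2 : ℝ) ≤ r := by exact_mod_cast hr
    calc ((q : ℝ) + 1) * (2 * n) + 2 ≤ ((q : ℝ) + 1) * (2 * n) + 2 * n := by linarith
      _ = n * (32 * r + 4) := by rw [hqr]; ring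
      _ ≤ n * (36 * r) := by
          apply mul_le_mul_of_nonneg_left _ (by positivity)
          linarith
      _ ≤ _ := mul_le_mul_of_nonneg_left h15 (by positivity)
  calc ((t : ℝ) + 1) ^ (2 * n) *
        Real.exp (-((1 - 1 / (q : ℝ)) ^ (2 * s ^ 2) * ((t : ℝ) ^ 2 / 16)))
      ≤ Real.exp (((q : ℝ) + 1) * (2 * n)) *
        Real.exp (-(((q : ℝ) + 1) * (2 * n) + 2)) := by
        apply mul_le_mul h1 _ (Real.exp_pos _).le (Real.exp_pos _).le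
        exact Real.exp_le_exp.mpr (neg_le_neg h11)
    _ = Real.exp (-2) := by rw [← Real.exp_add]; congr 1; ring
    _ ≤ 1 / 4 := exp_neg_two

lemma num3 (r q K n D : ℕ) (hr : 1 ≤ r) (hq : q = 16 * r) (hn : n = 2 ^ q) (hK : K = 3 * q ^ 2)
    (hD : D = n / 168) (hbig : (952576 : ℝ) * (q : ℝ) ^ 19 ≤ (3 / 2 : ℝ) ^ q) :
    ((((n : ℝ) ^ K) ^ (D * 2)) ^ 2) *
      Real.exp (-(1 / 2 * Real.exp (-(q / 5 : ℝ)) * ((n : ℝ) / (2 * (3 * (K : ℝ) ^ 4 + 1))) ^ 2)) ≤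
      1 / 4 := by
  have hq1 : 16 ≤ q := by omega
  have hq' : (16 : ℝ) ≤ q := by exact_mod_cast hq1
  have hqpos : (0 : ℝ) < q := by linarith
  have hnr : (n : ℝ) = 2 ^ q := by rw [hn]; push_cast; rfl
  have hn1 : (1 : ℝ) ≤ n := by rw [hnr]; exact one_le_pow₀ (by norm_num)
  have hDn : (D : ℝ) ≤ n / 168 := by
    rw [le_div_iff₀ (by norm_num)]
    have : D * 168 ≤ n := by rw [hD]; exact Nat.div_mul_le_self n 168
    exact_mod_cast this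
  have h1 : ((((n : ℝ) ^ K) ^ (D * 2)) ^ 2) ≤ Real.exp ((q : ℝ) ^ 3 * n) := by
    calc ((((n : ℝ) ^ K) ^ (D * 2)) ^ 2) = (2 : ℝ) ^ (12 * q ^ 3 * D) := by
          rw [hnr, hK, ← pow_mul, ← pow_mul, ← pow_mul]; congr 1; ring
      _ ≤ (Real.exp 1) ^ (12 * q ^ 3 * D) := pow_le_pow_left₀ (by norm_num) two_le_exp_one _
      _ = Real.exp (12 * (q : ℝ) ^ 3 * D) := by
          rw [← Real.exp_nat_mul]; congr 1; push_cast; ring
      _ ≤ _ := by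
          apply Real.exp_le_exp.mpr
          have h2 : (0 : ℝ) ≤ (q : ℝ) ^ 3 := by positivity
          have h3 : (q : ℝ) ^ 3 * D ≤ (q : ℝ) ^ 3 * (n / 168) := mul_le_mul_of_nonneg_left hDn h2
          have h4 : (0 : ℝ) ≤ (q : ℝ) ^ 3 * n := by positivity
          linarith
  have h5 : (3 / 2 : ℝ) ^ q ≤ n * Real.exp (-(q / 5 : ℝ)) := by
    have h6 : (4 / 5 : ℝ) ≤ Real.exp (-(1 / 5)) := by
      have := Real.add_one_le_exp (-(1 / 5 : ℝ))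
      linarith
    have h7 : Real.exp (-(q / 5 : ℝ)) = (Real.exp (-(1 / 5))) ^ q := by
      rw [← Real.exp_nat_mul]; congr 1; ring
    rw [h7, hnr, ← mul_pow]
    apply pow_le_pow_left₀ (by norm_num)
    linarith
  have h8 : 2 * (3 * (K : ℝ) ^ 4 + 1) ≤ 488 * (q : ℝ) ^ 8 := by
    rw [hK]; push_cast
    have : (1 : ℝ) ≤ (q : ℝ) ^ 8 := one_le_pow₀ (by linarith)
    nlinarith
  have h9 : (q : ℝ) ^ 3 * n + 2 ≤
      1 / 2 * Real.exp (-(q / 5 : ℝ)) * ((n : ℝ) / (2 * (3 * (K : ℝ) ^ 4 + 1))) ^ 2 := by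
    have h10 : (n : ℝ) / (488 * (q : ℝ) ^ 8) ≤ (n : ℝ) / (2 * (3 * (K : ℝ) ^ 4 + 1)) := by
      apply div_le_div_of_nonneg_left (by linarith) (by positivity) h8
    have h11 : ((n : ℝ) / (488 * (q : ℝ) ^ 8)) ^ 2 ≤
        ((n : ℝ) / (2 * (3 * (K : ℝ) ^ 4 + 1))) ^ 2 := pow_le_pow_left₀ (by positivity) h10 2
    have h12 : 1 / 2 * Real.exp (-(q / 5 : ℝ)) * ((n : ℝ) / (488 * (q : ℝ) ^ 8)) ^ 2 ≤
        1 / 2 * Real.exp (-(q / 5 : ℝ)) * ((n : ℝ) / (2 * (3 * (K : ℝ) ^ 4 + 1))) ^ 2 := by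
      gcongr
    refine le_trans ?_ h12
    have h13 : 1 / 2 * Real.exp (-(q / 5 : ℝ)) * ((n : ℝ) / (488 * (q : ℝ) ^ 8)) ^ 2 =
        n * ((n * Real.exp (-(q / 5 : ℝ))) / (476288 * (q : ℝ) ^ 16)) := by
      field_simp
      ring
    rw [h13]
    have h14 : 2 * (q : ℝ) ^ 3 ≤ (n * Real.exp (-(q / 5 : ℝ))) / (476288 * (q : ℝ) ^ 16) := by
      rw [le_div_iff₀ (by positivity)]
      calc 2 * (q : ℝ) ^ 3 * (476288 * (q : ℝ) ^ 16) = 952576 * (q : ℝ) ^ 19 := by ring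
        _ ≤ (3 / 2 : ℝ) ^ q := hbig
        _ ≤ _ := h5
    have h15 : (2 : ℝ) ≤ (q : ℝ) ^ 3 := by
      calc (2 : ℝ) ≤ 16 ^ 3 := by norm_num
        _ ≤ (q : ℝ) ^ 3 := pow_le_pow_left₀ (by norm_num) hq' 3
    calc (q : ℝ) ^ 3 * n + 2 ≤ (q : ℝ) ^ 3 * n + (q : ℝ) ^ 3 * n := by nlinarith
      _ = n * (2 * (q : ℝ) ^ 3) := by ring
      _ ≤ _ := mul_le_mul_of_nonneg_left h14 (by linarith)
  calc _ ≤ Real.exp ((q : ℝ) ^ 3 * n) * Real.exp (-((q : ℝ) ^ 3 * n + 2)) := by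
        apply mul_le_mul h1 _ (Real.exp_pos _).le (Real.exp_pos _).le
        exact Real.exp_le_exp.mpr (neg_le_neg h9)
    _ = Real.exp (-2) := by rw [← Real.exp_add]; congr 1; ring
    _ ≤ 1 / 4 := exp_neg_two

lemma eventually_big : ∃ r0 : ℕ, 2 ≤ r0 ∧ ∀ r ≥ r0,
    (952576 : ℝ) * ((16 * r : ℕ) : ℝ) ^ 19 ≤ (3 / 2 : ℝ) ^ (16 * r) := by
  have h := tendsto_pow_const_div_const_pow_of_one_lt 19 (show (1 : ℝ) < 3 / 2 by norm_num)
  have h1 : ∀ᶠ q : ℕ in Filter.atTop, (q : ℝ) ^ 19 / (3 / 2 : ℝ) ^ q < 1 / 952576 :=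
    h.eventually (gt_mem_nhds (by norm_num))
  rw [Filter.eventually_atTop] at h1
  obtain ⟨q0, hq0⟩ := h1
  refine ⟨max 2 q0, le_max_left _ _, fun r hr => ?_⟩
  have h2 : q0 ≤ 16 * r := by
    have := le_max_right 2 q0
    omega
  have h3 := hq0 (16 * r) h2
  rw [div_lt_iff₀ (by positivity)] at h3
  linarith

end Pool.Agent.BoxMinor.Low
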