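import Mathlib
import Pool.Agent.BoxMinor.Defs
import Pool.Agent.BoxMinor.LowerProb
import Pool.Agent.BoxMinor.LowerFree
import Pool.Agent.BoxMinor.LowerBox
import Pool.Agent.BoxMinor.LowerMinor
import Pool.Agent.BoxMinor.LowerNum

set_option autoImplicit false

/-!
The lower bound: graphs without `K_t` minor and boxicity at least `c t log t`.
-/

namespace Pool.Agent.BoxMinor

open Finset Low
open scoped Classical

namespace Low

lemma pr_rect (q n K : ℕ) [NeZero q] (hq : 2 ≤ q) :
    pr (fun ω : Fin n × Fin n → Fin q => ∃ XY : (Fin K → Fin n) × (Fin K → Fin n),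
      Function.Injective XY.1 ∧ Function.Injective XY.2 ∧ ∀ k l, ω (XY.1 k, XY.2 l) ≠ 0) ≤
      (((n : ℝ) ^ K) ^ 2) * (1 - 1 / (q : ℝ)) ^ (K * K) := by
  have hq' : (2 : ℝ) ≤ q := by exact_mod_cast hq
  have hq2 : 1 / (q : ℝ) ≤ 1 / 2 := one_div_le_one_div_of_le (by norm_num) hq'
  refine (pr_exists_le _ ((1 - 1 / (q : ℝ)) ^ (K * K)) ?_).trans (le_of_eq ?_)
  · rintro ⟨X, Y⟩
    by_cases hX : Function.Injective X
    · by_cases hY : Function.Injective Y
      · have hcard : ((univ.image X) ×ˢ (univ.image Y)).card = K * K := by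
          rw [card_product, card_image_of_injective _ hX, card_image_of_injective _ hY, card_univ,
            Fintype.card_fin]
        rw [← hcard, ← pr_all_ne]
        apply pr_mono
        rintro ω ⟨-, -, h⟩ ⟨a, b⟩ hab
        rw [mem_product, mem_image, mem_image] at hab
        obtain ⟨⟨k, -, hk⟩, ⟨l, -, hl⟩⟩ := hab
        simp only at hk hl
        rw [← hk, ← hl]
        exact h k l
      · refine le_trans (le_of_eq ?_) (pow_nonneg (by linarith) _)
        rw [pr_congr (F := fun _ => False)]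
        · unfold pr; simp
        · intro ω; simp [hY]
    · refine le_trans (le_of_eq ?_) (pow_nonneg (by linarith) _)
      rw [pr_congr (F := fun _ => False)]
      · unfold pr; simp
      · intro ω; simp [hX]
  · rw [Fintype.card_prod, Fintype.card_fun, Fintype.card_fin, Fintype.card_fin]
    push_cast
    ring

lemma pr_nofree_union (q n K D : ℕ) [NeZero q] (hq : 2 ≤ q) (hD : 168 * D ≤ n) :
    pr (fun ω : Fin n × Fin n → Fin q =>
      ∃ xy : ((Fin D × Bool) → Fin K → Fin n) × ((Fin D × Bool) → Fin K → Fin n),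
      (∀ j, Function.Injective (xy.1 j)) ∧ (∀ j, Function.Injective (xy.2 j)) ∧
        ¬ ∃ a b, FreePair xy.1 xy.2 ω a b) ≤
      ((((n : ℝ) ^ K) ^ (D * 2)) ^ 2) *
      Real.exp (-(1 / 2 * Real.exp (-(q / 5 : ℝ)) *
        ((n : ℝ) / (2 * (3 * (K : ℝ) ^ 4 + 1))) ^ 2)) := by
  refine (pr_exists_le _ (Real.exp (-(1 / 2 * Real.exp (-(q / 5 : ℝ)) *
        ((n : ℝ) / (2 * (3 * (K : ℝ) ^ 4 + 1))) ^ 2))) ?_).trans (le_of_eq ?_)
  · rintro ⟨x, y⟩
    by_cases hx : ∀ j, Function.Injective (x j)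
    · by_cases hy : ∀ j, Function.Injective (y j)
      · refine le_trans (pr_mono ?_) (pr_no_free q n K hq x y hx hy ?_)
        · rintro ω ⟨-, -, h⟩
          exact h
        · rw [Fintype.card_prod, Fintype.card_fin, Fintype.card_bool]
          omega
      · refine le_trans (le_of_eq ?_) (Real.exp_pos _).le
        rw [pr_congr (F := fun _ => False)]
        · unfold pr; simp
        · intro ω
          simp only [iff_false]
          rintro ⟨-, h, -⟩
          exact hy h
    · refine le_trans (le_of_eq ?_) (Real.exp_pos _).le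
      rw [pr_congr (F := fun _ => False)]
      · unfold pr; simp
      · intro ω
        simp only [iff_false]
        rintro ⟨h, -, -⟩
        exact hx h
  · rw [Fintype.card_prod, Fintype.card_fun, Fintype.card_fun, Fintype.card_fin, Fintype.card_fin,
      Fintype.card_prod, Fintype.card_fin, Fintype.card_bool]
    push_cast
    ring

lemma HasCliqueMinor.iso {V W : Type*} {G : SimpleGraph V} {H : SimpleGraph W} (e : G ≃g H)
    {t : ℕ} (h : HasCliqueMinor G t) : HasCliqueMinor H t := by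
  obtain ⟨B, h1, h2, h3⟩ := h
  refine ⟨fun i => e '' (B i), ?_, ?_, ?_⟩
  · intro i
    refine SimpleGraph.Connected.map (G := G.induce (B i)) (H := H.induce (e '' (B i)))
      ⟨fun x => ⟨e x.1, Set.mem_image_of_mem _ x.2⟩, ?_⟩ ?_ (h1 i)
    · intro a b hab
      have : G.Adj a.1 b.1 := by simpa using hab
      simpa using e.map_adj_iff.mpr this
    · rintro ⟨y, x, hx, rfl⟩
      exact ⟨⟨x, hx⟩, rfl⟩
  · intro i j hij
    exact (Set.disjoint_image_iff e.injective).mpr (h2 i j hij)
  · intro i j hij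
    obtain ⟨x, hx, y, hy, hxy⟩ := h3 i j hij
    exact ⟨e x, Set.mem_image_of_mem _ hx, e y, Set.mem_image_of_mem _ hy,
      e.map_adj_iff.mpr hxy⟩

lemma HasCliqueMinor.of_le {V : Type*} {G : SimpleGraph V} {s t : ℕ} (hst : s ≤ t)
    (h : HasCliqueMinor G t) : HasCliqueMinor G s := by
  obtain ⟨B, h1, h2, h3⟩ := h
  refine ⟨fun i => B (Fin.castLE hst i), fun i => h1 _, ?_, ?_⟩
  · intro i j hij
    exact h2 _ _ (fun h => hij (Fin.castLE_injective hst h))
  · intro i j hij
    exact h3 _ _ (fun h => hij (Fin.castLE_injective hst h))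

theorem main_r (r : ℕ) (hr : 2 ≤ r)
    (hbig : (952576 : ℝ) * ((16 * r : ℕ) : ℝ) ^ 19 ≤ (3 / 2 : ℝ) ^ (16 * r)) :
    ∃ (N : ℕ) (G : SimpleGraph (Fin N)), ¬ HasCliqueMinor G (65536 ^ r / r + 1) ∧
      ∀ d : ℕ, HasBoxRep G d → 65536 ^ r < 168 * d := by
  obtain ⟨q, hq⟩ : ∃ q, q = 16 * r := ⟨_, rfl⟩
  obtain ⟨n, hn⟩ : ∃ n, n = 2 ^ q := ⟨_, rfl⟩
  obtain ⟨K, hK⟩ : ∃ K, K = 3 * q ^ 2 := ⟨_, rfl⟩
  obtain ⟨D, hD⟩ : ∃ D, D = n / 168 := ⟨_, rfl⟩
  obtain ⟨t, ht⟩ : ∃ t, t = n / r + 1 := ⟨_, rfl⟩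
  have hn' : n = 65536 ^ r := by
    rw [hn, hq, pow_mul]; norm_num
  rw [← hn', ← ht]
  have hq2 : 2 ≤ q := by omega
  have : NeZero q := ⟨by omega⟩
  have hKn : K ≤ n := by
    have h1 : r < 2 ^ r := Nat.lt_two_pow_self
    have h2 : K = 768 * r ^ 2 := by rw [hK, hq]; ring
    rw [h2, hn']
    calc 768 * r ^ 2 ≤ 768 * (2 ^ r) ^ 2 := by gcongr
      _ = 768 * 4 ^ r := by rw [← pow_mul, mul_comm r 2, pow_mul]; norm_num
      _ ≤ 16384 ^ r * 4 ^ r := by
          gcongr
          calc 768 ≤ 16384 ^ 1 := by norm_num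
            _ ≤ 16384 ^ r := Nat.pow_le_pow_right (by norm_num) (by omega)
      _ = 65536 ^ r := by rw [← mul_pow]; norm_num
  have hnpos : 0 < n := by rw [hn']; positivity
  have hD168 : 168 * D ≤ n := by rw [hD]; exact Nat.mul_div_le n 168
  have hrn : r ≤ n := by
    have h1 : r < 2 ^ r := Nat.lt_two_pow_self
    have h2 : 2 ^ r ≤ 65536 ^ r := Nat.pow_le_pow_left (by norm_num) r
    omega
  have hts : 4 * n ≤ t * (4 * r) := by
    have h7 : n < r * (n / r + 1) := by
      have := Nat.lt_mul_div_succ n (show 0 < r by omega)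
      simpa using this
    rw [ht]
    calc 4 * n ≤ 4 * (r * (n / r + 1)) := by omega
      _ = _ := by ring
  have ht4 : 4 ≤ t := by
    have h1 : 3 * r ≤ n := by
      have h1 : r < 2 ^ r := Nat.lt_two_pow_self
      have h2 : 3 * 2 ^ r ≤ 65536 ^ r := by
        calc 3 * 2 ^ r ≤ 32768 ^ 1 * 2 ^ r := by gcongr; norm_num
          _ ≤ 32768 ^ r * 2 ^ r := by
              gcongr
              · norm_num
              · omega
          _ = 65536 ^ r := by rw [← mul_pow]; norm_num
      omega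
    have h2 : 3 ≤ n / r := (Nat.le_div_iff_mul_le (by omega)).mpr h1
    omega
  have e1 := (pr_rect q n K hq2).trans (num1 r q K n (by omega) hq hn hK)
  have e2 := (pr_minor q n t (4 * r) hq2 hnpos ht4 hts).trans
    (num2 r q n t (4 * r) hr hq hn rfl ht)
  have e3 := (pr_nofree_union q n K D hq2 hD168).trans
    (num3 r q K n D (by omega) hq hn hK hD (by rw [hq]; exact hbig))
  set E1 : (Fin n × Fin n → Fin q) → Prop := fun ω => ∃ XY : (Fin K → Fin n) × (Fin K → Fin n),
      Function.Injective XY.1 ∧ Function.Injective XY.2 ∧ ∀ k l, ω (XY.1 k, XY.2 l) ≠ 0 with hE1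
  set E2 : (Fin n × Fin n → Fin q) → Prop := fun ω => HasCliqueMinor (bip ω) t with hE2
  set E3 : (Fin n × Fin n → Fin q) → Prop := fun ω =>
      ∃ xy : ((Fin D × Bool) → Fin K → Fin n) × ((Fin D × Bool) → Fin K → Fin n),
      (∀ j, Function.Injective (xy.1 j)) ∧ (∀ j, Function.Injective (xy.2 j)) ∧
        ¬ ∃ a b, FreePair xy.1 xy.2 ω a b with hE3
  have hpos : 0 < pr (fun ω => ¬ (E1 ω ∨ (E2 ω ∨ E3 ω))) := by
    rw [pr_not]
    have h1 := pr_or E1 (fun ω => E2 ω ∨ E3 ω)
    have h2 := pr_or E2 E3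
    linarith
  obtain ⟨ω, hω⟩ := exists_of_pr_pos hpos
  push Not at hω
  obtain ⟨hω1, hω2, hω3⟩ := hω
  have e : Fin n ⊕ Fin n ≃ Fin (n + n) := finSumFinEquiv
  refine ⟨n + n, (bip ω).map e.toEmbedding, ?_, ?_⟩
  · -- no clique minor
    intro hminor
    exact hω2 (HasCliqueMinor.iso (SimpleGraph.Iso.map e (bip ω)).symm hminor)
  · intro d hd
    have hd' : HasBoxRep (bip ω) d :=
      HasBoxRep.iso (SimpleGraph.Iso.map e (bip ω)).symm hd
    by_contra hcon
    have hdD : d ≤ D := by
      rw [hD, Nat.le_div_iff_mul_le (by norm_num)]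
      omega
    apply hω3
    obtain ⟨x, y, hx, hy, hfree⟩ := box_tops hKn ω (HasBoxRep.mono hdD hd') (by
      intro X Y hX hY
      by_contra hc
      push Not at hc
      exact hω1 ⟨(X, Y), hX, hY, hc⟩)
    exact ⟨(x, y), hx, hy, hfree⟩

end Low

/-- Lower bound for the boxicity of `K_t`-minor-free graphs. -/
theorem lower : ∃ c : ℝ, 0 < c ∧ ∀ t : ℕ, 2 ≤ t → ∃ (n : ℕ) (G : SimpleGraph (Fin n)),
    ¬ HasCliqueMinor G t ∧ ∀ d : ℕ, HasBoxRep G d → c * t * Real.log t ≤ d := by
  obtain ⟨r0, hr0, hbig⟩ := eventually_big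
  set F : ℝ := ((65536 ^ r0 / r0 + 1 : ℕ) : ℝ) with hF
  have hF1 : 1 ≤ F := by
    rw [hF]
    exact_mod_cast Nat.le_add_left 1 _
  set c : ℝ := min (1 / (168 * 65536 * 12)) (1 / F ^ 2) with hc
  have hcpos : 0 < c := by
    rw [hc]
    apply lt_min
    · norm_num
    · positivity
  refine ⟨c, hcpos, ?_⟩
  intro t ht
  have ht' : (2 : ℝ) ≤ t := by exact_mod_cast ht
  have hlog0 : 0 ≤ Real.log t := Real.log_nonneg (by linarith)
  by_cases htF : t < 65536 ^ r0 / r0 + 1
  · refine ⟨2, ⊥, ?_, ?_⟩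
    · rintro ⟨B, -, -, h3⟩
      obtain ⟨x, -, y, -, hxy⟩ := h3 ⟨0, by omega⟩ ⟨1, by omega⟩ (by
        intro h
        simpa using congrArg Fin.val h)
      exact hxy
    · intro d hd
      have hd1 : 1 ≤ d := by
        by_contra hcon
        have hd0 : d = 0 := by omega
        subst hd0
        obtain ⟨lo, hi, -, h⟩ := hd
        exact (h 0 1 (by simp)).mpr (fun i => i.elim0)
      have h1 : (t : ℝ) ≤ F := by
        rw [hF]
        exact_mod_cast htF.le
      have h2 : Real.log t ≤ t := (Real.log_le_sub_one_of_pos (by linarith)).trans (by linarith)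
      have h3 : (t : ℝ) * Real.log t ≤ F ^ 2 := by nlinarith
      have h4 : c ≤ 1 / F ^ 2 := min_le_right _ _
      have hFp : 0 < F ^ 2 := by positivity
      calc c * t * Real.log t = c * (t * Real.log t) := by ring
        _ ≤ (1 / F ^ 2) * F ^ 2 := by
            apply mul_le_mul h4 h3 (by positivity) (by positivity)
        _ = 1 := by field_simp
        _ ≤ d := by exact_mod_cast hd1
  · push Not at htF
    have hlin : ∀ r, 1 ≤ r → r + 1 ≤ 65536 ^ r / r + 1 := by
      intro r hr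
      have h1 : r < 2 ^ r := Nat.lt_two_pow_self
      have h2 : r * r ≤ 65536 ^ r := by
        calc r * r ≤ 2 ^ r * 2 ^ r := Nat.mul_le_mul h1.le h1.le
          _ = 4 ^ r := by rw [← mul_pow]; norm_num
          _ ≤ 65536 ^ r := Nat.pow_le_pow_left (by norm_num) r
      have h3 : r ≤ 65536 ^ r / r := (Nat.le_div_iff_mul_le (by omega)).mpr h2
      omega
    have hex : ∃ r, r0 ≤ r ∧ t < 65536 ^ (r + 1) / (r + 1) + 1 := by
      refine ⟨max t r0, le_max_right _ _, ?_⟩
      have := hlin (max t r0 + 1) (by omega)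
      have h2 := le_max_left t r0
      omega
    obtain ⟨hr1, hr2⟩ := Nat.find_spec hex
    set r := Nat.find hex with hr
    have hft : 65536 ^ r / r + 1 ≤ t := by
      rcases Nat.lt_or_ge r0 r with h | h
      · have h1 := Nat.find_min hex (m := r - 1) (by omega)
        push Not at h1
        have h2 := h1 (by omega)
        have h3 : r - 1 + 1 = r := by omega
        rw [h3] at h2
        exact h2
      · have : r = r0 := le_antisymm h hr1
        rw [this]; exact htF
    obtain ⟨N, G, hG1, hG2⟩ := Low.main_r r (by omega) (hbig r hr1)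
    refine ⟨N, G, fun h => hG1 (Low.HasCliqueMinor.of_le hft h), ?_⟩
    intro d hd
    have hd2 := hG2 d hd
    have hd3 : ((65536 : ℝ) ^ r) < 168 * d := by exact_mod_cast hd2
    have hrp : (0 : ℝ) < (r : ℝ) + 1 := by positivity
    have ht2 : (t : ℝ) ≤ 65536 ^ (r + 1) / (r + 1) := by
      rw [le_div_iff₀ hrp]
      have h1 : t ≤ 65536 ^ (r + 1) / (r + 1) := by omega
      have h2 : t * (r + 1) ≤ 65536 ^ (r + 1) := (Nat.le_div_iff_mul_le (by omega)).mp h1
      exact_mod_cast h2
    have ht3 : (t : ℝ) ≤ 65536 ^ (r + 1) := by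
      refine ht2.trans ?_
      apply div_le_self (by positivity)
      linarith
    have hlog : Real.log t ≤ 12 * (r + 1) := by
      have h1 : Real.log t ≤ Real.log (65536 ^ (r + 1)) := Real.log_le_log (by linarith) ht3
      have h2 : Real.log ((65536 : ℝ) ^ (r + 1)) = ((r : ℝ) + 1) * Real.log 65536 := by
        rw [Real.log_pow]; push_cast; ring
      have h3 : Real.log 65536 ≤ 12 := by
        have h4 : (65536 : ℝ) = 2 ^ 16 := by norm_num
        rw [h4, Real.log_pow]
        have := Real.log_two_lt_d9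
        push_cast
        linarith
      rw [h2] at h1
      nlinarith
    have h5 : (t : ℝ) * Real.log t ≤ 65536 * 12 * 65536 ^ r := by
      calc (t : ℝ) * Real.log t ≤ (65536 ^ (r + 1) / (r + 1)) * (12 * (r + 1)) :=
            mul_le_mul ht2 hlog hlog0 (by positivity)
        _ = 65536 * 12 * 65536 ^ r := by
            field_simp
            ring
    have h6 : c ≤ 1 / (168 * 65536 * 12) := min_le_left _ _
    calc c * t * Real.log t = c * (t * Real.log t) := by ring
      _ ≤ (1 / (168 * 65536 * 12)) * (65536 * 12 * 65536 ^ r) :=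
          mul_le_mul h6 h5 (by positivity) (by norm_num)
      _ = 65536 ^ r / 168 := by ring
      _ ≤ d := by
          rw [div_le_iff₀ (by norm_num)]
          linarith

end Pool.Agent.BoxMinor
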