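import Mathlib
import Pool.Agent.BoxMinor.Defs
import Pool.Agent.BoxMinor.Lower

set_option autoImplicit false

namespace Pool.Agent.BoxMinor

open scoped Classical

/-- Every graph on `Fin n` has a box representation in dimension `n`. -/
lemma hasBoxRep_card {n : ℕ} (G : SimpleGraph (Fin n)) : HasBoxRep G n := by
  refine ⟨fun u i => if u = i then 0 else if G.Adj u i then 0 else 1,
    fun u i => if u = i then 0 else 1, ?_, ?_⟩
  · intro v i
    by_cases h : v = i
    · simp only [h, if_true]; exact le_rfl
    · by_cases h' : G.Adj v i
      · simp only [h, h', if_true, if_false]; exact zero_le_one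
      · simp only [h, h', if_false]; exact le_rfl
  · intro u v huv
    constructor
    · intro hadj i
      by_cases h1 : u = i
      · subst h1
        have h2 : v ≠ u := fun h => huv h.symm
        simp only [h2, hadj.symm, if_true, if_false]
        exact ⟨zero_le_one, le_rfl⟩
      · by_cases h2 : v = i
        · subst h2
          simp only [h1, hadj, if_true, if_false]
          exact ⟨le_rfl, zero_le_one⟩
        · simp only [h1, h2, if_false]
          constructor
          · split_ifs
            · exact zero_le_one
            · exact le_rfl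
          · split_ifs
            · exact zero_le_one
            · exact le_rfl
    · intro h
      by_contra hadj
      have h1 := (h u).2
      have h2 : v ≠ u := fun h => huv h.symm
      have h3 : ¬ G.Adj v u := fun h => hadj h.symm
      simp only [h2, h3, if_true, if_false] at h1
      exact absurd h1 (not_le.mpr zero_lt_one)

/-- Lower bound in terms of `boxicity`. -/
theorem lower_boxicity : ∃ c : ℝ, 0 < c ∧ ∀ t : ℕ, 2 ≤ t → ∃ (n : ℕ) (G : SimpleGraph (Fin n)),
    ¬ HasCliqueMinor G t ∧ HasBoxRep G (boxicity G) ∧ c * t * Real.log t ≤ boxicity G := by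
  obtain ⟨c, hc, h⟩ := lower
  refine ⟨c, hc, fun t ht => ?_⟩
  obtain ⟨n, G, hG, hd⟩ := h t ht
  have hmem : HasBoxRep G (boxicity G) :=
    Nat.sInf_mem (s := {d | HasBoxRep G d}) ⟨n, hasBoxRep_card G⟩
  exact ⟨n, G, hG, hmem, hd _ hmem⟩

end Pool.Agent.BoxMinor
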