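import Mathlib
import Pool.Agent.BoxMinor.Far

set_option autoImplicit false

namespace Pool.Agent.BoxMinor
open SimpleGraph

variable {V : Type*} {G : SimpleGraph V} {c lam N : ℕ} {β : V → ℕ} {e : ℕ → ℕ} {φ : ℕ → Fin c}
  {D : ℕ → V → ℕ}

/-- inside `[j, e j]` one stays when walking in the later parts -/
lemma LayoutOn.walk_le (L : LayoutOn G c lam Set.univ N β e φ D) {i j : ℕ} (hji : j ≤ i)
    {x y : V} (p : (restr G {z | i ≤ β z}).Walk x y) (hx : i ≤ β x) (hxj : β x ≤ e j)
    (hj : j < N) : i ≤ β y ∧ β y ≤ e j := by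
  induction p with
  | nil => exact ⟨hx, hxj⟩
  | @cons a b c' h p ih =>
    have hb : i ≤ β b := by simpa using h.2.2
    refine ih hb ?_
    rcases le_or_gt (β a) (β b) with h1 | h1
    · have h2 := L.adj_le a (Set.mem_univ _) b (Set.mem_univ _) h.1 h1
      exact h2.trans (L.laminar j (β a) hj (by omega) hxj)
    · omega

lemma LayoutOn.walk_lip (L : LayoutOn G c lam Set.univ N β e φ D) {i j : ℕ} (hji : j ≤ i)
    {x y : V} (p : (restr G {z | i ≤ β z}).Walk x y) (hx : i ≤ β x) (hxj : β x ≤ e j)
    (hj : j < N) : D j y ≤ D j x + p.length ∧ D j x ≤ D j y + p.length := by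
  induction p with
  | nil => simp
  | @cons a b c' h p ih =>
    have hb : i ≤ β b := by simpa using h.2.2
    have hbe : β b ≤ e j := by
      rcases le_or_gt (β a) (β b) with h1 | h1
      · have h2 := L.adj_le a (Set.mem_univ _) b (Set.mem_univ _) h.1 h1
        exact h2.trans (L.laminar j (β a) hj (by omega) hxj)
      · omega
    obtain ⟨h1, h2⟩ := ih hb hbe
    have h3 := L.lip j hj a (Set.mem_univ _) b (Set.mem_univ _) h.1 (by omega) hxj (by omega) hbe
    have h4 := L.lip j hj b (Set.mem_univ _) a (Set.mem_univ _) h.1.symm (by omega) hbe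
      (by omega) hxj
    rw [Walk.length_cons]
    omega

/-- vertices in older parts reachable from `x` through later parts in at most `r` steps -/
def oldReach (G : SimpleGraph V) (β : V → ℕ) (i : ℕ) (x : V) (r : ℕ) : Set V :=
  {w | β w ≤ i ∧ (w = x ∨ ∃ y, G.Adj y w ∧ i ≤ β y ∧
    ∃ p : (restr G {z | i ≤ β z}).Walk x y, p.length + 1 ≤ r)}

lemma oldReach_prop (L : LayoutOn G c lam Set.univ N β e φ D) {i r : ℕ} {x : V} (hx : i ≤ β x)
    {w : V} (hw : w ∈ oldReach G β i x r) :
    β x ≤ e (β w) ∧ D (β w) w ≤ D (β w) x + r ∧ D (β w) x ≤ D (β w) w + r := by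
  obtain ⟨h1, h2⟩ := hw
  have hwN := L.lt w (Set.mem_univ _)
  rcases h2 with rfl | ⟨y, hy1, hy2, p, hp⟩
  · have := L.le_e _ hwN
    refine ⟨this, ?_, ?_⟩ <;> omega
  · have h3 : β y ≤ e (β w) := L.adj_le w (Set.mem_univ _) y (Set.mem_univ _) hy1.symm (by omega)
    have h4 := L.walk_le (j := β w) (by omega) p.reverse hy2 h3 hwN
    have h5 := L.walk_lip (j := β w) (by omega) p hx h4.2 hwN
    have h6 := L.lip (β w) hwN y (Set.mem_univ _) w (Set.mem_univ _) hy1 (by omega) h3 le_rfl
      (L.le_e _ hwN)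
    have h7 := L.lip (β w) hwN w (Set.mem_univ _) y (Set.mem_univ _) hy1.symm le_rfl
      (L.le_e _ hwN) (by omega) h3
    refine ⟨h4.2, ?_, ?_⟩ <;> omega

theorem oldReach_card [Finite V] (L : LayoutOn G c lam Set.univ N β e φ D) {i r : ℕ} {x : V}
    (hx : i ≤ β x) : (oldReach G β i x r).ncard ≤ c * lam * (2 * r + 1) := by
  classical
  have := Fintype.ofFinite V
  set R : Finset V := Finset.univ.filter (fun w => w ∈ oldReach G β i x r) with hR
  have hRR : (oldReach G β i x r) = (R : Set V) := by ext; simp [hR]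
  rw [hRR, Set.ncard_coe_finset]
  set J : Finset ℕ := R.image β with hJ
  -- distinct colours
  have hcol : ∀ j ∈ J, ∀ j' ∈ J, j < j' → φ j ≠ φ j' := by
    intro j hj j' hj' hlt
    simp only [hJ, Finset.mem_image, hR, Finset.mem_filter, Finset.mem_univ, true_and] at hj hj'
    obtain ⟨w, hw, rfl⟩ := hj
    obtain ⟨w', hw', rfl⟩ := hj'
    have hw'1 := oldReach_prop L hx hw'
    obtain ⟨h1, h2⟩ := hw
    have h3 : β w' ≤ i := hw'.1
    rcases h2 with rfl | ⟨y, hy1, hy2, p, hp⟩
    · omega
    · have hw'N := L.lt w' (Set.mem_univ _)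
      have h4 := L.walk_le (j := β w') h3 p hx hw'1.1 hw'N
      exact (L.color w (Set.mem_univ _) y (Set.mem_univ _) hy1.symm (by omega) (β w') hlt
        (by omega) h4.2).symm
  have hJc : J.card ≤ c := by
    have : J.card ≤ (Finset.univ : Finset (Fin c)).card := by
      apply Finset.card_le_card_of_injOn φ (fun _ _ => Finset.mem_coe.2 (Finset.mem_univ _))
      intro j hj j' hj' h
      by_contra hne
      rcases Nat.lt_or_gt_of_ne hne with h1 | h1
      · exact hcol j hj j' hj' h1 h
      · exact hcol j' hj' j hj h1 h.symm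
    simpa using this
  -- fibres
  have hfib : ∀ j ∈ J, (R.filter (fun w => β w = j)).card ≤ lam * (2 * r + 1) := by
    intro j hj
    have h1 : ∀ w ∈ R.filter (fun w => β w = j),
        D j w ∈ Finset.Icc (D j x - r) (D j x + r) := by
      intro w hw
      simp only [hR, Finset.mem_filter, Finset.mem_univ, true_and] at hw
      obtain ⟨hw, rfl⟩ := hw
      have := oldReach_prop L hx hw
      rw [Finset.mem_Icc]
      omega
    have h2 := Finset.card_le_mul_card_image_of_maps_to h1 lam ?_
    · refine h2.trans (Nat.mul_le_mul_left _ ?_)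
      rw [Nat.card_Icc]
      omega
    · intro k hk
      have h3 := L.width j k
      have h4 : (((R.filter (fun w => β w = j)).filter (fun w => D j w = k) : Finset V) : Set V) ⊆
          {x | x ∈ Set.univ ∧ β x = j ∧ D j x = k} := by
        intro w hw
        simp only [Finset.coe_filter, Finset.mem_filter, Set.mem_ofPred_eq] at hw
        exact ⟨Set.mem_univ _, hw.1.2, hw.2⟩
      have h5 := Set.ncard_le_ncard h4 (Set.toFinite _)
      rw [Set.ncard_coe_finset] at h5
      exact h5.trans h3
  have h2 : R.card ≤ (lam * (2 * r + 1)) * J.card := by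
    apply Finset.card_le_mul_card_image_of_maps_to (f := β) (fun w hw => Finset.mem_image_of_mem _ hw)
    exact hfib
  calc R.card ≤ (lam * (2 * r + 1)) * J.card := h2
    _ ≤ (lam * (2 * r + 1)) * c := Nat.mul_le_mul_left _ hJc
    _ = c * lam * (2 * r + 1) := by ring

end Pool.Agent.BoxMinor
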