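import Mathlib
import Pool.Agent.BoxMinor.Closure
import Pool.Agent.BoxMinor.Window

set_option autoImplicit false

namespace Pool.Agent.BoxMinor
open SimpleGraph

lemma growth_bound (a : ℕ → ℕ) (n s : ℕ) (hn : ∀ r, a r ≤ n)
    (h : ∀ r, 2 * a r ≤ a (r + 1) + s * (2 * r + 3)) : ∀ r, a r ≤ s * (2 * r + 5) := by
  intro r
  by_contra hcon
  push Not at hcon
  have key : ∀ k, s * (2 * (r + k) + 5) + (k + 1) ≤ a (r + k) := by
    intro k
    induction k with
    | zero => simpa using hcon
    | succ k ih =>
      have h1 := h (r + k)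
      have h2 : r + (k + 1) = r + k + 1 := by ring
      rw [h2]
      have h3 : 2 * (s * (2 * (r + k) + 5)) = s * (2 * (r + k + 1) + 5) + s * (2 * (r + k) + 3) := by
        ring
      omega
  have h1 := key n
  have h2 := hn (r + n)
  omega

variable {V : Type*} {G : SimpleGraph V} {c lam N : ℕ} {β : V → ℕ} {e : ℕ → ℕ} {φ : ℕ → Fin c}
  {D : ℕ → V → ℕ}

open Classical in
/-- the closed set of index `i` -/
noncomputable def lvl [Fintype V] (G : SimpleGraph V) (β : V → ℕ) (d i : ℕ) : Finset V :=
  cl G (2 * d) (Finset.univ.filter (fun x => β x ≤ i))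

lemma lvl_mono [Fintype V] (G : SimpleGraph V) (β : V → ℕ) (d : ℕ) {i j : ℕ} (h : i ≤ j) :
    lvl G β d i ⊆ lvl G β d j := by
  classical
  apply cl_mono
  intro x hx
  simp only [Finset.mem_filter, Finset.mem_univ, true_and] at hx ⊢
  omega

/-- the level of a vertex -/
noncomputable def iot [Fintype V] (G : SimpleGraph V) (β : V → ℕ) (d : ℕ) (x : V) : ℕ :=
  sInf {i | x ∈ lvl G β d i}

lemma mem_lvl_self [Fintype V] (G : SimpleGraph V) (β : V → ℕ) (d : ℕ) (x : V) :
    x ∈ lvl G β d (β x) := subset_cl _ _ _ (by simp)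

lemma mem_lvl_iot [Fintype V] (G : SimpleGraph V) (β : V → ℕ) (d : ℕ) (x : V) :
    x ∈ lvl G β d (iot G β d x) :=
  Nat.sInf_mem (s := {i | x ∈ lvl G β d i}) ⟨β x, mem_lvl_self G β d x⟩

lemma iot_le [Fintype V] (G : SimpleGraph V) (β : V → ℕ) (d : ℕ) (x : V) :
    iot G β d x ≤ β x := Nat.sInf_le (mem_lvl_self G β d x)

lemma iot_le_iff [Fintype V] (G : SimpleGraph V) (β : V → ℕ) (d : ℕ) (x : V) (i : ℕ) :
    iot G β d x ≤ i ↔ x ∈ lvl G β d i := by
  constructor
  · intro h; exact lvl_mono G β d h (mem_lvl_iot G β d x)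
  · intro h; exact Nat.sInf_le h

open Classical in
/-- promoted vertices close to `u` -/
noncomputable def prom [Fintype V] (G : SimpleGraph V) (β : V → ℕ) (d i : ℕ) (u : V) (r : ℕ) :
    Finset V :=
  Finset.univ.filter (fun w => w ∈ lvl G β d i ∧ i < β w ∧
    ∃ p : (restr G {z | i ≤ β z}).Walk u w, p.length ≤ r)

lemma prom_card [Fintype V] (L : LayoutOn G c lam Set.univ N β e φ D) {d : ℕ} (hd : 1 ≤ d)
    (hden : ∀ S : Finset V, pairsIn G S ≤ 2 * d * S.card) {i : ℕ} {u : V} (hu : i ≤ β u) (r : ℕ) :
    (prom G β d i u r).card ≤ c * lam * (2 * r + 5) := by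
  classical
  refine growth_bound (fun r => (prom G β d i u r).card) (Fintype.card V) (c * lam)
    (fun r => Finset.card_le_univ _) ?_ r
  intro r
  set O : Finset V := (oldReach G β i u (r + 1)).toFinite.toFinset with hO
  have hOc : O.card ≤ c * lam * (2 * r + 3) := by
    have := oldReach_card L (r := r + 1) hu
    rw [Set.ncard_eq_toFinset_card _ (Set.toFinite _)] at this
    calc O.card ≤ c * lam * (2 * (r + 1) + 1) := this
      _ = _ := by ring
  set T := prom G β d i u (r + 1) ∪ O with hT
  have h1 := closure_growth G (2 * d) d (Finset.univ.filter (fun x => β x ≤ i)) T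
    (prom G β d i u r) ?_ ?_ ?_ ?_ (hden T)
  · have h2 : T.card ≤ (prom G β d i u (r + 1)).card + c * lam * (2 * r + 3) :=
      (Finset.card_union_le _ _).trans (by omega)
    have h3 : d * (2 * (prom G β d i u r).card) ≤ d * T.card := by
      refine le_trans ?_ h1
      have : d * (2 * (prom G β d i u r).card) = 2 * d * (prom G β d i u r).card := by ring
      rw [this]
      exact Nat.mul_le_mul_right _ (by omega)
    exact (Nat.le_of_mul_le_mul_left h3 (by omega)).trans h2
  · intro x hx
    simp only [prom, Finset.mem_filter, Finset.mem_univ, true_and] at hx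
    exact hx.1
  · rw [Finset.disjoint_left]
    intro x hx hx2
    simp only [prom, Finset.mem_filter, Finset.mem_univ, true_and] at hx hx2
    omega
  · intro x hx
    simp only [hT, Finset.mem_union]
    left
    simp only [prom, Finset.mem_filter, Finset.mem_univ, true_and] at hx ⊢
    obtain ⟨h1, h2, p, hp⟩ := hx
    exact ⟨h1, h2, p, by omega⟩
  · intro x hx y hy hxy
    simp only [prom, Finset.mem_filter, Finset.mem_univ, true_and] at hx
    obtain ⟨h1, h2, p, hp⟩ := hx
    simp only [hT, Finset.mem_union]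
    rcases Nat.lt_or_ge i (β y) with h3 | h3
    · left
      simp only [prom, Finset.mem_filter, Finset.mem_univ, true_and]
      have hadj : (restr G {z | i ≤ β z}).Adj x y := ⟨hxy, by simp; omega, by simp; omega⟩
      refine ⟨hy, h3, p.append (Walk.cons hadj Walk.nil), ?_⟩
      rw [Walk.length_append]
      simp
      omega
    · right
      simp only [hO, Set.Finite.mem_toFinset]
      exact ⟨h3, Or.inr ⟨x, hxy, by omega, p, by omega⟩⟩

lemma level_degenerate [Fintype V] (β : V → ℕ) {d : ℕ}
    (hden : ∀ S : Finset V, pairsIn G S ≤ 2 * d * S.card) (S : Finset V) (hS : S.Nonempty) :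
    ∃ x ∈ S, (∀ y ∈ S, iot G β d y ≤ iot G β d x) ∧ degIn G S x ≤ 4 * d := by
  classical
  obtain ⟨x0, hx0, hmax⟩ := Finset.exists_max_image S (iot G β d) hS
  set S' := S.filter (fun y => iot G β d y = iot G β d x0) with hS'
  have hne : S'.Nonempty := ⟨x0, by simp [hS', hx0]⟩
  obtain ⟨x, hx, hdeg⟩ := exists_small_degree hne (hden S')
  simp only [hS', Finset.mem_filter] at hx
  refine ⟨x, hx.1, fun y hy => by rw [hx.2]; exact hmax y hy, ?_⟩
  have h2 : degIn G (S.filter (fun y => iot G β d y < iot G β d x0)) x ≤ 2 * d := by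
    rcases Nat.eq_zero_or_pos (iot G β d x0) with h0 | h0
    · have : S.filter (fun y => iot G β d y < iot G β d x0) = ∅ := by
        apply Finset.filter_eq_empty_iff.2
        intro y _
        omega
      rw [this]
      simp [degIn]
    · have hxn : x ∉ lvl G β d (iot G β d x0 - 1) := by
        rw [← iot_le_iff]
        omega
      refine (degIn_mono G ?_ x).trans (cl_closed G (2 * d) _ x hxn)
      intro y hy
      rw [Finset.mem_filter] at hy
      have : y ∈ lvl G β d (iot G β d x0 - 1) := by
        rw [← iot_le_iff]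
        omega
      exact this
  have h3 : degIn G S x ≤ degIn G S' x +
      degIn G (S.filter (fun y => iot G β d y < iot G β d x0)) x := by
    unfold degIn
    rw [← Finset.card_union_add_card_inter]
    refine le_trans (Finset.card_le_card ?_) (Nat.le_add_right _ _)
    intro y hy
    simp only [hS', Finset.mem_union, Finset.mem_filter] at hy ⊢
    have := hmax y hy.1
    rcases this.lt_or_eq with h | h
    · exact Or.inr ⟨⟨hy.1, h⟩, hy.2⟩
    · exact Or.inl ⟨⟨hy.1, h⟩, hy.2⟩
  omega

open Classical in
theorem exists_order [Fintype V] (L : LayoutOn G c lam Set.univ N β e φ D) {d : ℕ} (hd : 1 ≤ d)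
    (hden : ∀ S : Finset V, pairsIn G S ≤ 2 * d * S.card) :
    ∃ (pos : V → ℕ) (W : V → Finset V), Function.Injective pos ∧
      (∀ u, degIn G (Finset.univ.filter (fun w => pos w < pos u)) u ≤ 4 * d) ∧
      (∀ u, ∀ w ∈ W u, pos w < pos u) ∧
      (∀ u, (W u).card ≤ c * lam * (8 * lam + 14)) ∧
      (∀ u v, pos u < pos v →
        (∃ p : (restr G {x | min (β u) (β v) ≤ β x}).Walk u v, p.length ≤ 2 * lam + 1) →
        ∀ w, G.Adj v w → pos w < pos u → w ∈ W u) := by
  obtain ⟨pos, hinj, -, hmon, hback⟩ := exists_pos G (iot G β d) (4 * d)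
    (level_degenerate β hden) _ Finset.univ rfl
  have hinj' : Function.Injective pos := fun x y h =>
    hinj (Finset.mem_coe.2 (Finset.mem_univ _)) (Finset.mem_coe.2 (Finset.mem_univ _)) h
  have hle : ∀ x y, pos x ≤ pos y → iot G β d x ≤ iot G β d y := by
    intro x y h
    by_contra hcon
    have := hmon y (Finset.mem_univ _) x (Finset.mem_univ _) (by omega)
    omega
  refine ⟨pos, fun u => (prom G β d (iot G β d u) u (2 * lam + 2) ∪
    (oldReach G β (iot G β d u) u (2 * lam + 2)).toFinite.toFinset).filter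
      (fun w => pos w < pos u), hinj', fun u => hback u (Finset.mem_univ _), ?_, ?_, ?_⟩
  · intro u w hw
    rw [Finset.mem_filter] at hw
    exact hw.2
  · intro u
    have h1 := prom_card L hd hden (iot_le G β d u) (2 * lam + 2)
    have h2 := oldReach_card L (r := 2 * lam + 2) (iot_le G β d u)
    rw [Set.ncard_eq_toFinset_card _ (Set.toFinite _)] at h2
    refine (Finset.card_filter_le _ _).trans ((Finset.card_union_le _ _).trans ?_)
    calc _ ≤ c * lam * (2 * (2 * lam + 2) + 5) + c * lam * (2 * (2 * lam + 2) + 1) :=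
          Nat.add_le_add h1 h2
      _ = c * lam * (8 * lam + 14) := by ring
  · rintro u v huv ⟨p, hp⟩ w hvw hwu
    rw [Finset.mem_filter]
    refine ⟨?_, hwu⟩
    have hiu := iot_le G β d u
    have hiv : iot G β d u ≤ β v := (hle u v huv.le).trans (iot_le G β d v)
    have hsub : {x | min (β u) (β v) ≤ β x} ⊆ {x | iot G β d u ≤ β x} := by
      intro x hx
      have : min (β u) (β v) ≤ β x := by simpa using hx
      have : iot G β d u ≤ β x := (le_min hiu hiv).trans this
      simpa using this
    set q := p.mapLe (restr_mono G hsub) with hq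
    have hql : q.length ≤ 2 * lam + 1 := by rw [hq, Walk.length_map]; exact hp
    have hwi : w ∈ lvl G β d (iot G β d u) := by
      rw [← iot_le_iff]; exact hle w u hwu.le
    rw [Finset.mem_union]
    rcases Nat.lt_or_ge (iot G β d u) (β w) with h3 | h3
    · left
      simp only [prom, Finset.mem_filter, Finset.mem_univ, true_and]
      have hadj : (restr G {z | iot G β d u ≤ β z}).Adj v w :=
        ⟨hvw, by simpa using hiv, by simpa using h3.le⟩
      refine ⟨hwi, h3, q.append (Walk.cons hadj Walk.nil), ?_⟩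
      rw [Walk.length_append]
      simp
      omega
    · right
      simp only [Set.Finite.mem_toFinset]
      exact ⟨h3, Or.inr ⟨v, hvw, hiv, q, by omega⟩⟩

end Pool.Agent.BoxMinor
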