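import Mathlib
import Pool.Agent.BoxMinor.Order
import Pool.Agent.BoxMinor.FewTypes
import Pool.Agent.BoxMinor.Codes

set_option autoImplicit false

namespace Pool.Agent.BoxMinor
open SimpleGraph

open Classical in
theorem upper_main {V : Type} [Fintype V] (G : SimpleGraph V) {t d κ : ℕ} (ht : 2 ≤ t)
    (hd : 1 ≤ d) (hsp : Sparse t d) (hG : ¬ HasCliqueMinor G t) (hκ : 1 ≤ κ)
    (h3 : ((t - 1) * t * (8 * t + 14)) ^ 4 + ((t - 1) * t * (8 * t + 14)) + 1 < 3 ^ κ) :
    HasBoxRep G (6 * (t - 1) + 1 + 16 * (κ * d)) := by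
  obtain ⟨N, β, e, φ, D, L⟩ := exists_layout G t ht hG
  obtain ⟨l, r, hlr, hfar⟩ := far_coords L
  obtain ⟨pos, W, hinj, hback, hWpos, hWcard, hW⟩ := exists_order L hd (hsp.pairsIn_self hG)
  set near : V → V → Prop := fun u v =>
    ∃ p : (restr G {x | min (β u) (β v) ≤ β x}).Walk u v, p.length ≤ 2 * t + 1 with hnear
  have near_symm : ∀ u v, near u v → near v u := by
    rintro u v ⟨p, hp⟩
    simp only [hnear]
    rw [min_comm]
    exact ⟨p.reverse, by rw [Walk.length_reverse]; exact hp⟩
  set VV : V → Finset V := fun u =>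
    Finset.univ.filter (fun v => pos u < pos v ∧ near u v) with hVV
  have hex : ∀ u, ∃ F : Finset (Finset V), F.card ≤ (W u).card ^ 4 + (W u).card + 1 ∧
      (∀ A ∈ F, A ⊆ W u ∧ A.card ≤ 4 * d) ∧
      ∀ v ∈ VV u, ∃ A ∈ F, (W u).filter (fun w => G.Adj v w) ⊆ A := by
    intro u
    apply few_types G hsp hG (W u) (VV u)
    · rw [Finset.disjoint_left]
      intro w hw hw'
      have h1 := hWpos u w hw
      simp only [hVV, Finset.mem_filter, Finset.mem_univ, true_and] at hw'
      omega
    · intro v hv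
      simp only [hVV, Finset.mem_filter, Finset.mem_univ, true_and] at hv
      refine (degIn_mono G ?_ v).trans (hback v)
      intro w hw
      have h1 := hWpos u w hw
      simp only [Finset.mem_filter, Finset.mem_univ, true_and]
      omega
    · omega
  choose F hF1 hF2 hF3 using hex
  obtain ⟨b, hb⟩ := exists_codes G pos hinj κ (4 * d) (4 * (κ * (4 * d))) hκ (by omega) rfl hback F
    (by
      intro u
      refine lt_of_le_of_lt (hF1 u) (lt_of_le_of_lt ?_ h3)
      have := hWcard u
      gcongr)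
    (by
      intro u A hA
      exact ⟨(hF2 u A hA).2, fun w hw => hWpos u w ((hF2 u A hA).1 hw)⟩)
  have hbadj : ∀ u v, G.Adj u v → Disjoint (b u) (b v) := by
    intro u v huv
    rcases lt_trichotomy (pos u) (pos v) with h | h | h
    · exact ((hb v).2.1 u huv.symm h).symm
    · exact absurd (hinj h) huv.ne
    · exact (hb u).2.1 v huv h
  set M := Finset.univ.sup pos with hM
  have hMle : ∀ v, pos v ≤ M := fun v => Finset.le_sup (Finset.mem_univ v)
  have main : ∀ u v, pos u < pos v → near u v → ¬ G.Adj u v → ∃ c,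
      Sep (fun v => (lC G pos b c v : ℝ)) (fun v => (rC pos b M c v : ℝ)) u v := by
    intro u v huv hn hadj
    obtain ⟨A, hA, hsub⟩ := hF3 u v (by simp [hVV, huv, hn])
    obtain ⟨c, hc, hcA⟩ := (hb u).2.2 A hA
    refine ⟨c, sepC G pos b M c huv hadj hinj hc ?_⟩
    intro w hvw hwu
    exact hcA w (hsub (Finset.mem_filter.2 ⟨hW u v huv hn w hvw hwu, hvw⟩))
  have hrep := hasBoxRep_of_family (G := G)
    (ι := Option (Fin (t - 1) × Fin 3 × Bool) ⊕ Fin (4 * (κ * (4 * d))))
    (Sum.elim l (fun c v => (lC G pos b c v : ℝ))) (Sum.elim r (fun c v => (rC pos b M c v : ℝ)))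
    (by
      rintro (i | c)
      · exact hlr i
      · exact coordC G pos b hbadj M hMle c)
    (by
      intro u v huv hn
      rcases hfar u v huv hn with ⟨i, hi⟩ | hnr
      · exact ⟨Sum.inl i, hi⟩
      · have hnr' : near u v := hnr
        rcases lt_trichotomy (pos u) (pos v) with h | h | h
        · obtain ⟨c, hc⟩ := main u v h hnr' hn
          exact ⟨Sum.inr c, hc⟩
        · exact absurd (hinj h) huv
        · obtain ⟨c, hc⟩ := main v u h (near_symm u v hnr') (fun h' => hn h'.symm)
          exact ⟨Sum.inr c, hc.symm⟩)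
  have hcard : Fintype.card (Option (Fin (t - 1) × Fin 3 × Bool) ⊕ Fin (4 * (κ * (4 * d)))) =
      6 * (t - 1) + 1 + 16 * (κ * d) := by
    simp only [Fintype.card_sum, Fintype.card_option, Fintype.card_prod, Fintype.card_fin,
      Fintype.card_bool]
    ring
  rw [← hcard]
  exact hrep

end Pool.Agent.BoxMinor
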