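import Mathlib
import Pool.Agent.BoxMinor.Upper
import Pool.Agent.BoxMinor.KT

set_option autoImplicit false

namespace Pool.Agent.BoxMinor
open SimpleGraph

lemma pairsIn_univ {W : Type} [Fintype W] [DecidableEq W] (H : SimpleGraph W)
    [DecidableRel H.Adj] : pairsIn H Finset.univ = 2 * H.edgeFinset.card := by
  classical
  rw [pairsIn_eq_sum, ← sum_degrees_eq_twice_card_edges]
  refine Finset.sum_congr rfl fun x _ => ?_
  rw [degIn_eq_card_filter, ← card_neighborFinset_eq_degree]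
  congr 1
  ext y
  simp

lemma kappa_bound (t : ℕ) (ht : 2 ≤ t) :
    ((t - 1) * t * (8 * t + 14)) ^ 4 + ((t - 1) * t * (8 * t + 14)) + 1 <
      3 ^ (12 * Nat.clog 3 t + 11) := by
  have h1 : (t - 1) * t * (8 * t + 14) ≤ 15 * t ^ 3 := by
    calc (t - 1) * t * (8 * t + 14) ≤ t * t * (15 * t) := by
          apply Nat.mul_le_mul
          · exact Nat.mul_le_mul_right _ (Nat.sub_le _ _)
          · omega
      _ = 15 * t ^ 3 := by ring
  set w := (t - 1) * t * (8 * t + 14) with hw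
  have h2 : w ≤ w ^ 4 := Nat.le_self_pow (by norm_num) w
  have h3 : 1 ≤ w ^ 4 := by
    apply Nat.one_le_pow
    rw [hw]
    have : 1 ≤ t - 1 := by omega
    positivity
  have h4 : w ^ 4 ≤ (15 * t ^ 3) ^ 4 := Nat.pow_le_pow_left h1 4
  have h5 : t ≤ 3 ^ Nat.clog 3 t := Nat.le_pow_clog (by norm_num) t
  have h6 : t ^ 12 ≤ (3 ^ Nat.clog 3 t) ^ 12 := Nat.pow_le_pow_left h5 12
  have h7 : 3 ^ (12 * Nat.clog 3 t + 11) = 177147 * (3 ^ Nat.clog 3 t) ^ 12 := by
    rw [pow_add, mul_comm 12 (Nat.clog 3 t), pow_mul]; ring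
  have h8 : 3 * (15 * t ^ 3) ^ 4 = 151875 * t ^ 12 := by ring
  have h9 : 1 ≤ t ^ 12 := Nat.one_le_pow _ _ (by omega)
  rw [h7]
  omega

/-- upper bound for the boxicity of graphs without a `K_t` minor -/
theorem upper_final : ∃ C : ℝ, 0 < C ∧ ∀ t : ℕ, 2 ≤ t → ∀ {V : Type} [Finite V]
    (G : SimpleGraph V), ¬ HasCliqueMinor G t →
    ∃ k : ℕ, HasBoxRep G k ∧ (k : ℝ) ≤ C * t * (Real.log t * Real.sqrt (Real.log t)) := by
  obtain ⟨C0, hC0, hkt⟩ := kt_density
  refine ⟨720 * (C0 + 1) + 12, by positivity, ?_⟩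
  intro t ht V _ G hG
  have := Fintype.ofFinite V
  have ht' : (2 : ℝ) ≤ t := by exact_mod_cast ht
  have hL : 0.69 < Real.log t := by
    have h1 := Real.log_two_gt_d9
    have h2 : Real.log 2 ≤ Real.log t := Real.log_le_log (by norm_num) ht'
    linarith
  set s := Real.sqrt (Real.log t) with hs
  have hss : s * s = Real.log t := Real.mul_self_sqrt (by linarith)
  have hsq : 0.83 < s := by
    apply Real.lt_sqrt_of_sq_lt
    norm_num
    linarith
  set d := ⌈C0 * t * s⌉₊ with hd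
  have hdpos : 1 ≤ d := Nat.one_le_iff_ne_zero.2 (by
    have : 0 < d := Nat.ceil_pos.2 (by positivity)
    omega)
  have hsp : Sparse t d := by
    intro W _ H hH
    classical
    have h1 := hkt t ht H hH
    rw [pairsIn_univ]
    have h2 : C0 * t * s ≤ d := Nat.le_ceil _
    have h3 : (H.edgeFinset.card : ℝ) ≤ d * Fintype.card W :=
      h1.trans (mul_le_mul_of_nonneg_right h2 (Nat.cast_nonneg _))
    have h4 : H.edgeFinset.card ≤ d * Fintype.card W := by exact_mod_cast h3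
    calc 2 * H.edgeFinset.card ≤ 2 * (d * Fintype.card W) := Nat.mul_le_mul_left _ h4
      _ = 2 * d * Fintype.card W := by ring
  have hrep := upper_main G (κ := 12 * Nat.clog 3 t + 11) ht hdpos hsp hG (by omega)
    (kappa_bound t ht)
  refine ⟨_, hrep, ?_⟩
  -- arithmetic
  have hclog : (Nat.clog 3 t : ℝ) ≤ Real.log t / Real.log 3 + 1 := by
    have h1 : Nat.clog 3 t ≤ Nat.log 3 t + 1 := Nat.clog_le_of_le_pow
      (Nat.lt_pow_succ_log_self (by norm_num) t).le
    have h2 : (Nat.log 3 t : ℝ) ≤ Real.log t / Real.log 3 := by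
      rw [le_div_iff₀ (Real.log_pos (by norm_num)), ← Real.log_pow]
      apply Real.log_le_log (by positivity)
      exact_mod_cast Nat.pow_log_le_self 3 (by omega)
    have h3 : (Nat.clog 3 t : ℝ) ≤ (Nat.log 3 t : ℝ) + 1 := by exact_mod_cast h1
    linarith
  have hlog3 : 1.09 < Real.log 3 := by
    have := Real.log_three_gt_d9
    linarith
  have hdiv : Real.log t / Real.log 3 ≤ Real.log t := by
    rw [div_le_iff₀ (by linarith)]
    nlinarith
  have hκ : ((12 * Nat.clog 3 t + 11 : ℕ) : ℝ) ≤ 45 * (s * s) := by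
    push_cast
    rw [hss]
    have : Real.log t / Real.log 3 ≤ Real.log t / 1.09 := by
      apply div_le_div_of_nonneg_left (by linarith) (by norm_num) hlog3.le
    have h5 : Real.log t / 1.09 ≤ 0.92 * Real.log t := by
      rw [div_le_iff₀ (by norm_num)]
      nlinarith
    linarith
  have hdle : (d : ℝ) ≤ (C0 + 1) * (t * s) := by
    have h1 : (d : ℝ) ≤ C0 * t * s + 1 := (Nat.ceil_lt_add_one (by positivity)).le
    have h2 : 1 ≤ t * s := by nlinarith
    linarith
  have hts : 0 < t * s := by positivity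
  have h6 : (((12 * Nat.clog 3 t + 11 : ℕ) * d : ℕ) : ℝ) ≤ 45 * (s * s) * ((C0 + 1) * (t * s)) := by
    push_cast at hκ ⊢
    exact mul_le_mul hκ hdle (Nat.cast_nonneg _) (by positivity)
  have h7 : ((6 * (t - 1) + 1 : ℕ) : ℝ) ≤ 6 * t := by
    have : 6 * (t - 1) + 1 ≤ 6 * t := by omega
    exact_mod_cast this
  have h8 : 6 * (t : ℝ) ≤ 12 * (t * (s * s * s)) := by
    have : 0.5 ≤ s * s * s := by
      have : 0.5 ≤ 0.83 * 0.83 * (0.83 : ℝ) := by norm_num
      have h9 : 0.83 * 0.83 * (0.83 : ℝ) ≤ s * s * s := by gcongr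
      linarith
    nlinarith
  rw [← hss]
  push_cast [Nat.cast_add, Nat.cast_mul] at h6 h7 ⊢
  have e1 : 45 * (s * s) * ((C0 + 1) * (t * s)) = 45 * (C0 + 1) * (t * (s * s * s)) := by ring
  rw [e1] at h6
  calc _ ≤ 6 * (t : ℝ) + 16 * (45 * (C0 + 1) * (t * (s * s * s))) := by linarith
    _ ≤ 12 * (t * (s * s * s)) + 16 * (45 * (C0 + 1) * (t * (s * s * s))) := by linarith
    _ = (720 * (C0 + 1) + 12) * t * (s * s * s) := by ring

end Pool.Agent.BoxMinor
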